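import Mathlib
import Pool.Agent.Lib.MP_ec260d_ntH.TameW

/-!
# The function `Sy y = (y / B) / lam (y / D₀)`
-/

open Set Filter Topology

namespace Pool.Agent.Lib.MP_ec260d_ntG

open Pool.Agent.Lib.MP_ec260d_nt Pool.Agent.Lib.MP_ec260d_ntH

/-- the model of the ordinate of index `y` -/
noncomputable def Sy (B D₀ y : ℝ) : ℝ := (y / B) / lam (y / D₀)

theorem Sy_pos {B D₀ y : ℝ} (hB : 0 < B) (hD : 0 < D₀) (hy : 0 < y) : 0 < Sy B D₀ y :=
  div_pos (div_pos hy hB) (lam_pos (div_pos hy hD))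

theorem lam_mono {x y : ℝ} (hx : 0 < x) (hxy : x ≤ y) : lam x ≤ lam y := by
  have h1 : lam x = gE (Real.log x) := by unfold gE; rw [Real.exp_log hx]
  have h2 : lam y = gE (Real.log y) := by unfold gE; rw [Real.exp_log (hx.trans_le hxy)]
  rw [h1, h2]
  exact gE_strictMono.monotone (Real.log_le_log hx hxy)

theorem Sy_eq {B D₀ y : ℝ} (hD : 0 < D₀) (hy : 0 < y) : Sy B D₀ y = D₀ / B * Real.exp (lam (y / D₀)) := by
  have hpos : 0 < y / D₀ := div_pos hy hD
  have h1 := lam_add_log hpos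
  have h2 := lam_pos hpos
  have h3 : Real.exp (lam (y / D₀)) * lam (y / D₀) = y / D₀ := by
    conv_lhs => rw [← Real.exp_log h2]
    rw [Real.exp_log h2]
    have h4 := congrArg Real.exp h1
    rw [Real.exp_add, Real.exp_log h2, Real.exp_log hpos] at h4
    exact h4
  unfold Sy
  rw [div_eq_iff h2.ne']
  have h5 : D₀ / B * Real.exp (lam (y / D₀)) * lam (y / D₀) =
      D₀ / B * (Real.exp (lam (y / D₀)) * lam (y / D₀)) := by ring
  rw [h5, h3]
  field_simp

theorem Sy_mono {B D₀ y z : ℝ} (hB : 0 < B) (hD : 0 < D₀) (hy : 0 < y) (hyz : y ≤ z) :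
    Sy B D₀ y ≤ Sy B D₀ z := by
  rw [Sy_eq hD hy, Sy_eq hD (hy.trans_le hyz)]
  have h1 : lam (y / D₀) ≤ lam (z / D₀) := lam_mono (div_pos hy hD) (by gcongr)
  have := Real.exp_le_exp.2 h1
  gcongr

theorem Sy_le {B D₀ y z : ℝ} (hB : 0 < B) (hD : 0 < D₀) (hy : 0 < y) (hyz : y ≤ z) :
    Sy B D₀ z ≤ z / y * Sy B D₀ y := by
  have hz := hy.trans_le hyz
  have h1 : lam (y / D₀) ≤ lam (z / D₀) := lam_mono (div_pos hy hD) (by gcongr)
  have h2 := lam_pos (div_pos hy hD)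
  unfold Sy
  calc (z / B) / lam (z / D₀) ≤ (z / B) / lam (y / D₀) :=
        div_le_div_of_nonneg_left (div_pos hz hB).le h2 h1
    _ = z / y * (y / B / lam (y / D₀)) := by field_simp

theorem Sy_exp {a b B D₀ : ℝ} (ha : 0 < a) (hD : 0 < D₀) (t : ℝ) :
    Sy B D₀ (a * Real.exp (b * t)) =
      Real.exp (b * t) * ((a / B) / gE (Real.log (a / D₀) + b * t)) := by
  have h2 : gE (Real.log (a / D₀) + b * t) = lam (a * Real.exp (b * t) / D₀) := by
    unfold gE
    rw [Real.exp_add, Real.exp_log (div_pos ha hD)]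
    congr 1
    ring
  unfold Sy
  rw [h2]
  ring

end Pool.Agent.Lib.MP_ec260d_ntG
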