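import Mathlib
import Pool.Agent.Lib.MP_ec260d_ntG.Sy
import Pool.Agent.Lib.MP_ec260d_ntU.Null

/-!
# Monomials in an exponential and the `Sy` as a solution of the algebraic differential system
-/

open Set Filter Topology

namespace Pool.Agent.Lib.MP_ec260d_ntG

open Pool.Agent.Lib.MP_ec260d_nt Pool.Agent.Lib.MP_ec260d_ntH Pool.Agent.Lib.MP_ec260d_ntU

variable {ι A : Type}

/-- `y i = 1 / (1 + w i)` -/
noncomputable def yy (a b : ι → ℝ) (D₀ : ℝ) (i : ι) (u : ℝ) : ℝ :=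
  (1 + gE (Real.log (a i / D₀) + b i * u))⁻¹

/-- `S i` along a line -/
noncomputable def SS (a b : ι → ℝ) (B D₀ : ℝ) (i : ι) (u : ℝ) : ℝ := Sy B D₀ (a i * Real.exp (b i * u))

variable [Fintype ι]

/-- the monomial -/
noncomputable def hg (a₀ : A → ℕ) (a₁ : A → ι → ℕ) (a b : ι → ℝ) (B D₀ : ℝ) (α : A) (u : ℝ) : ℝ :=
  Real.exp (a₀ α * u) * ∏ i, SS a b B D₀ i u ^ a₁ α i

/-- the logarithmic derivative of `hg α` -/
noncomputable def fg (a₀ : A → ℕ) (a₁ : A → ι → ℕ) (a b : ι → ℝ) (D₀ : ℝ) (α : A) (u : ℝ) : ℝ :=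
  (a₀ α : ℝ) + ∑ i, (a₁ α i : ℝ) * (b i * (1 - yy a b D₀ i u))

/-- the point of the system -/
noncomputable def pt (a₀ : A → ℕ) (a₁ : A → ι → ℕ) (a b : ι → ℝ) (B D₀ : ℝ) (cc : A → ℂ) (M u : ℝ) :
    (ι ⊕ ι) ⊕ A → ℂ
  | .inl (.inl i) => ((b i : ℝ) : ℂ)
  | .inl (.inr i) => ((yy a b D₀ i u : ℝ) : ℂ)
  | .inr α => cc α * ((hg a₀ a₁ a b B D₀ α u / M : ℝ) : ℂ)

omit [Fintype ι] in
theorem gA_deriv (A b u : ℝ) : HasDerivAt (fun u => gE (A + b * u))
    (gE (A + b * u) / (1 + gE (A + b * u)) * b) u := by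
  have h3 : HasDerivAt (fun u => A + b * u) b u := by
    simpa using ((hasDerivAt_id u).const_mul b).const_add A
  exact HasDerivAt.comp (h₂ := gE) (h := fun u => A + b * u) u (gE_hasDeriv (A + b * u)) h3

omit [Fintype ι] in
theorem yy_deriv (a b : ι → ℝ) (D₀ : ℝ) (i : ι) (u : ℝ) : HasDerivAt (yy a b D₀ i)
    (-(b i * yy a b D₀ i u ^ 2 * (1 - yy a b D₀ i u))) u := by
  have h1 := gA_deriv (Real.log (a i / D₀)) (b i) u
  have h2 : 0 < 1 + gE (Real.log (a i / D₀) + b i * u) := by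
    have := gE_pos (Real.log (a i / D₀) + b i * u); linarith
  have h3 := (h1.const_add 1).fun_inv h2.ne'
  refine h3.congr_deriv ?_
  unfold yy
  generalize gE (Real.log (a i / D₀) + b i * u) = W at h2 ⊢
  field_simp
  ring

omit [Fintype ι] in
theorem SS_deriv {a b : ι → ℝ} {B D₀ : ℝ} (ha : ∀ i, 0 < a i) (hD : 0 < D₀) (u : ℝ)
    (i : ι) : HasDerivAt (SS a b B D₀ i)
      (b i * (1 - yy a b D₀ i u) * SS a b B D₀ i u) u := by
  have h0 : SS a b B D₀ i = fun u =>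
      Real.exp (b i * u) * ((a i / B) / gE (Real.log (a i / D₀) + b i * u)) :=
    funext fun u => Sy_exp (ha i) hD u
  rw [h0]
  have h1 := gA_deriv (Real.log (a i / D₀)) (b i) u
  have h2 : 0 < gE (Real.log (a i / D₀) + b i * u) := gE_pos _
  have h3 : HasDerivAt (fun u => Real.exp (b i * u)) (Real.exp (b i * u) * b i) u := by
    have h4 : HasDerivAt (fun u => b i * u) (b i) u := by
      simpa using (hasDerivAt_id u).const_mul (b i)
    exact h4.exp
  have h5 := h3.fun_mul ((hasDerivAt_const u (a i / B)).fun_div h1 h2.ne')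
  refine h5.congr_deriv ?_
  beta_reduce
  unfold yy
  generalize gE (Real.log (a i / D₀) + b i * u) = W at h2 ⊢
  generalize Real.exp (b i * u) = Z
  have h6 : 0 < 1 + W := by linarith
  field_simp
  ring

omit [Fintype ι] in
theorem prod_deriv {κ : Type} (g : κ → ℝ → ℝ) (r : κ → ℝ) (u : ℝ)
    (h : ∀ o, HasDerivAt (g o) (r o * g o u) u) (n : κ → ℕ) (S : Finset κ) :
    HasDerivAt (fun u => ∏ o ∈ S, g o u ^ n o) ((∑ o ∈ S, (n o : ℝ) * r o) * ∏ o ∈ S, g o u ^ n o) u := by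
  classical
  have hp : ∀ o, HasDerivAt (fun u => g o u ^ n o) ((n o : ℝ) * r o * g o u ^ n o) u := by
    intro o
    refine ((h o).fun_pow (n o)).congr_deriv ?_
    cases hn : n o with
    | zero => simp
    | succ m =>
      simp only [Nat.add_sub_cancel]
      push_cast
      ring
  induction S using Finset.induction_on with
  | empty =>
    simp only [Finset.prod_empty, Finset.sum_empty, zero_mul]
    exact hasDerivAt_const u 1
  | insert o S ho ih =>
    have h1 : (fun u => ∏ o ∈ insert o S, g o u ^ n o) = fun u => g o u ^ n o * ∏ o ∈ S, g o u ^ n o :=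
      funext fun u => Finset.prod_insert ho
    rw [h1, Finset.prod_insert ho, Finset.sum_insert ho]
    refine ((hp o).fun_mul ih).congr_deriv ?_
    ring

variable {a₀ : A → ℕ} {a₁ : A → ι → ℕ}

theorem hg_pos {a b : ι → ℝ} {B D₀ : ℝ} (ha : ∀ i, 0 < a i) (hB : 0 < B) (hD : 0 < D₀)
    (α : A) (u : ℝ) : 0 < hg a₀ a₁ a b B D₀ α u := by
  unfold hg SS
  refine mul_pos (Real.exp_pos _) (Finset.prod_pos fun i _ => pow_pos (Sy_pos hB hD ?_) _)
  exact mul_pos (ha i) (Real.exp_pos _)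

theorem hg_deriv {a b : ι → ℝ} {B D₀ : ℝ} (ha : ∀ i, 0 < a i) (hD : 0 < D₀)
    (α : A) (u : ℝ) :
    HasDerivAt (hg a₀ a₁ a b B D₀ α) (fg a₀ a₁ a b D₀ α u * hg a₀ a₁ a b B D₀ α u) u := by
  have h1 := prod_deriv (SS a b B D₀) (fun i => b i * (1 - yy a b D₀ i u)) u
    (fun i => SS_deriv ha hD u i) (a₁ α) Finset.univ
  have h3 : HasDerivAt (fun u => Real.exp (a₀ α * u)) (Real.exp (a₀ α * u) * a₀ α) u := by
    have h4 : HasDerivAt (fun u : ℝ => (a₀ α : ℝ) * u) (a₀ α) u := by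
      simpa using (hasDerivAt_id u).const_mul (a₀ α : ℝ)
    exact h4.exp
  refine (h3.fun_mul h1).congr_deriv ?_
  unfold fg hg
  ring

theorem pt_deriv {a b : ι → ℝ} {B D₀ : ℝ} (ha : ∀ i, 0 < a i) (hD : 0 < D₀)
    (cc : A → ℂ) (M : ℝ) (Q : MvPolynomial ((ι ⊕ ι) ⊕ A) ℂ) (u : ℝ) :
    HasDerivAt (fun u => MvPolynomial.aeval (pt a₀ a₁ a b B D₀ cc M u) Q)
      (MvPolynomial.aeval (pt a₀ a₁ a b B D₀ cc M u) (dd a₀ a₁ Q)) u := by
  have hX : ∀ v, HasDerivAt (fun u => pt a₀ a₁ a b B D₀ cc M u v)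
      (MvPolynomial.aeval (pt a₀ a₁ a b B D₀ cc M u) (dd a₀ a₁ (MvPolynomial.X v))) u := by
    rintro ((i | i) | α)
    · rw [dd_b, map_zero]
      exact hasDerivAt_const u _
    · rw [dd_y]
      have h1 : (fun u => pt a₀ a₁ a b B D₀ cc M u (.inl (.inr i))) =
          fun u => ((yy a b D₀ i u : ℝ) : ℂ) := rfl
      rw [h1]
      refine (yy_deriv a b D₀ i u).ofReal_comp.congr_deriv ?_
      simp only [map_neg, map_mul, map_pow, map_sub, map_one, MvPolynomial.aeval_X]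
      show _ = -(((b i : ℝ) : ℂ) * ((yy a b D₀ i u : ℝ) : ℂ) ^ 2 * (1 - ((yy a b D₀ i u : ℝ) : ℂ)))
      push_cast
      ring
    · rw [dd_c]
      have h1 : (fun u => pt a₀ a₁ a b B D₀ cc M u (.inr α)) =
          fun u => cc α * ((hg a₀ a₁ a b B D₀ α u / M : ℝ) : ℂ) := rfl
      rw [h1]
      refine ((((hg_deriv ha hD α u).div_const M).ofReal_comp).const_mul (cc α)).congr_deriv ?_
      have h2 : MvPolynomial.aeval (pt a₀ a₁ a b B D₀ cc M u) (ph a₀ a₁ α) =
          ((fg a₀ a₁ a b D₀ α u : ℝ) : ℂ) := by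
        unfold ph fg
        simp only [map_add, map_sum, map_mul, map_natCast, MvPolynomial.aeval_X, map_sub, map_one]
        push_cast
        rfl
      rw [map_mul, h2, MvPolynomial.aeval_X]
      show _ = ((fg a₀ a₁ a b D₀ α u : ℝ) : ℂ) * (cc α * ((hg a₀ a₁ a b B D₀ α u / M : ℝ) : ℂ))
      push_cast
      ring
  induction Q using MvPolynomial.induction_on with
  | C c =>
    have h1 : dd (ι := ι) (A := A) a₀ a₁ (MvPolynomial.C c) = 0 := by
      rw [← MvPolynomial.algebraMap_eq]; exact (dd a₀ a₁).map_algebraMap c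
    rw [h1, map_zero]
    have h2 : (fun u => MvPolynomial.aeval (pt a₀ a₁ a b B D₀ cc M u) (MvPolynomial.C c)) = fun _ => c := by
      funext u
      rw [MvPolynomial.algHom_C]
      rfl
    rw [h2]
    exact hasDerivAt_const u c
  | add P Q hP hQ =>
    simp only [map_add]
    exact hP.add hQ
  | mul_X P v hP =>
    simp only [map_mul, MvPolynomial.aeval_X, Derivation.leibniz, smul_eq_mul, map_add]
    refine (hP.fun_mul (hX v)).congr_deriv ?_
    ring

end Pool.Agent.Lib.MP_ec260d_ntG
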