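import Mathlib
import Pool.Agent.Lib.MP_ec260d_ntG.Pt
import Pool.Agent.Lib.MP_ec260d_ntU.Sub

/-!
# Uniform cover of the sublevel sets
-/

open Set Filter Topology

namespace Pool.Agent.Lib.MP_ec260d_ntG

open Pool.Agent.Lib.MP_ec260d_nt Pool.Agent.Lib.MP_ec260d_ntH Pool.Agent.Lib.MP_ec260d_ntU

variable {ι A : Type} [Fintype ι] [DecidableEq ι] {a₀ : A → ℕ} {a₁ : A → ι → ℕ}

/-- the product of the quantities that have to be away from `0` -/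
noncomputable def rr (a b : ι → ℝ) (D₀ : ℝ) (f : ι → ι → Bool) (u : ℝ) : ℝ :=
  (∏ i, b i * yy a b D₀ i u * (1 - yy a b D₀ i u)) *
    ∏ i, ∏ j, if i = j then 1 else if f i j then b i - b j else yy a b D₀ i u - yy a b D₀ j u

theorem aeval_rho (a b : ι → ℝ) (B D₀ : ℝ) (cc : A → ℂ) (M u : ℝ)
    (f : ι → ι → Bool) :
    MvPolynomial.aeval (pt a₀ a₁ a b B D₀ cc M u) (rho A f) = ((rr a b D₀ f u : ℝ) : ℂ) := by
  unfold rho rr
  rw [map_mul, map_prod, map_prod]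
  push_cast
  congr 1
  · refine Finset.prod_congr rfl fun i _ => ?_
    simp only [map_mul, map_sub, map_one, MvPolynomial.aeval_X]
    rfl
  · refine Finset.prod_congr rfl fun i _ => ?_
    rw [map_prod]
    refine Finset.prod_congr rfl fun j _ => ?_
    split_ifs
    · rw [map_one, Complex.ofReal_one]
    · rw [map_sub, MvPolynomial.aeval_X, MvPolynomial.aeval_X, Complex.ofReal_sub]; rfl
    · rw [map_sub, MvPolynomial.aeval_X, MvPolynomial.aeval_X, Complex.ofReal_sub]; rfl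

omit [Fintype ι] [DecidableEq ι] in
theorem yy_pos (a b : ι → ℝ) (D₀ : ℝ) (i : ι) (u : ℝ) : 0 < yy a b D₀ i u := by
  have := gE_pos (Real.log (a i / D₀) + b i * u)
  unfold yy
  positivity

omit [Fintype ι] [DecidableEq ι] in
theorem yy_le (a b : ι → ℝ) (D₀ : ℝ) (i : ι) (u : ℝ) : yy a b D₀ i u ≤ 1 := by
  have := gE_pos (Real.log (a i / D₀) + b i * u)
  unfold yy
  exact inv_le_one_of_one_le₀ (by linarith)

omit [DecidableEq ι] in
theorem fg_le {a b : ι → ℝ} {D₀ β : ℝ} {M₀ : ℕ} (hM₀ : ∀ α, a₀ α ≤ M₀) (hM₁ : ∀ α i, a₁ α i ≤ M₀)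
    (hb : ∀ i, 0 < b i) (hbβ : ∀ i, b i ≤ β)
    (α : A) (u : ℝ) : fg a₀ a₁ a b D₀ α u ≤ M₀ + Fintype.card ι * (M₀ * β) := by
  unfold fg
  have h1 : (a₀ α : ℝ) ≤ M₀ := by exact_mod_cast hM₀ α
  have h2 : ∑ i, (a₁ α i : ℝ) * (b i * (1 - yy a b D₀ i u)) ≤ ∑ _i : ι, (M₀ * β : ℝ) := by
    refine Finset.sum_le_sum fun i _ => ?_
    have h3 : (a₁ α i : ℝ) ≤ M₀ := by exact_mod_cast hM₁ α i
    have h4 := yy_pos a b D₀ i u
    have h5 := yy_le a b D₀ i u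
    have h6 : b i * (1 - yy a b D₀ i u) ≤ β := by
      have := hb i
      have := hbβ i
      nlinarith
    have h7 : 0 ≤ b i * (1 - yy a b D₀ i u) := mul_nonneg (hb i).le (by linarith)
    exact mul_le_mul h3 h6 h7 (Nat.cast_nonneg _)
  rw [Finset.sum_const, Finset.card_univ, nsmul_eq_mul] at h2
  linarith

omit [DecidableEq ι] in
theorem hg_grow {a b : ι → ℝ} {B D₀ β : ℝ} {M₀ : ℕ} (hM₀ : ∀ α, a₀ α ≤ M₀) (hM₁ : ∀ α i, a₁ α i ≤ M₀)
    (ha : ∀ i, 0 < a i) (hb : ∀ i, 0 < b i) (hβ : 0 ≤ β)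
    (hbβ : ∀ i, b i ≤ β) (hB : 0 < B) (hD : 0 < D₀) (α : A) {p u : ℝ} (hpu : p ≤ u)
    (hu : u ≤ p + 1) :
    hg a₀ a₁ a b B D₀ α u ≤ Real.exp (M₀ + Fintype.card ι * (M₀ * β)) * hg a₀ a₁ a b B D₀ α p := by
  set Φ : ℝ := M₀ + Fintype.card ι * (M₀ * β) with hΦ
  have hd : ∀ t, HasDerivAt (fun t => Real.exp (-Φ * t) * hg a₀ a₁ a b B D₀ α t)
      (Real.exp (-Φ * t) * -Φ * hg a₀ a₁ a b B D₀ α t + Real.exp (-Φ * t) * (fg a₀ a₁ a b D₀ α t * hg a₀ a₁ a b B D₀ α t)) t := by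
    intro t
    have h1 : HasDerivAt (fun t => Real.exp (-Φ * t)) (Real.exp (-Φ * t) * -Φ) t := by
      have h2 : HasDerivAt (fun t => -Φ * t) (-Φ) t := by
        simpa using (hasDerivAt_id t).const_mul (-Φ)
      exact h2.exp
    exact h1.fun_mul (hg_deriv ha hD α t)
  have hanti : Antitone (fun t => Real.exp (-Φ * t) * hg a₀ a₁ a b B D₀ α t) := by
    refine antitone_of_deriv_nonpos (fun t => (hd t).differentiableAt) fun t => ?_
    rw [(hd t).deriv]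
    have h1 := fg_le (a := a) (D₀ := D₀) hM₀ hM₁ hb hbβ α t
    have h2 := hg_pos (a₀ := a₀) (a₁ := a₁) (b := b) ha hB hD α t
    have h3 := Real.exp_pos (-Φ * t)
    have h4 : 0 < Real.exp (-Φ * t) * hg a₀ a₁ a b B D₀ α t := mul_pos h3 h2
    nlinarith
  have h1 := hanti hpu
  simp only at h1
  have h2 : 0 ≤ Φ := by rw [hΦ]; positivity
  have h3 : hg a₀ a₁ a b B D₀ α u = Real.exp (Φ * u) * (Real.exp (-Φ * u) * hg a₀ a₁ a b B D₀ α u) := by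
    rw [← mul_assoc, ← Real.exp_add]
    have : Φ * u + -Φ * u = 0 := by ring
    rw [this, Real.exp_zero, one_mul]
  rw [h3]
  calc Real.exp (Φ * u) * (Real.exp (-Φ * u) * hg a₀ a₁ a b B D₀ α u)
      ≤ Real.exp (Φ * u) * (Real.exp (-Φ * p) * hg a₀ a₁ a b B D₀ α p) := by
        have := Real.exp_pos (Φ * u)
        gcongr
    _ = Real.exp (Φ * (u - p)) * hg a₀ a₁ a b B D₀ α p := by
        rw [← mul_assoc, ← Real.exp_add]
        congr 2
        ring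
    _ ≤ Real.exp Φ * hg a₀ a₁ a b B D₀ α p := by
        have h5 := hg_pos (a₀ := a₀) (a₁ := a₁) (b := b) ha hB hD α p
        have h6 : Φ * (u - p) ≤ Φ := by nlinarith
        exact mul_le_mul_of_nonneg_right (Real.exp_le_exp.2 h6) h5.le

/-- one piece -/
theorem piece [Fintype A] [Nonempty A] (hinj : Function.Injective fun α => (a₀ α, a₁ α)) {M₀ : ℕ}
    (hM₀ : ∀ α, a₀ α ≤ M₀) (hM₁ : ∀ α i, a₁ α i ≤ M₀) (β : ℝ) (hβ : 0 ≤ β) : ∃ (K J : ℕ) (C : ℝ), 1 ≤ C ∧ ∀ (a b : ι → ℝ) (B D₀ : ℝ),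
    (∀ i, 0 < a i) → (∀ i, 0 < b i) → (∀ i, b i ≤ β) → 0 < B → 0 < D₀ →
    ∀ (f : ι → ι → Bool) (ρ p q : ℝ), 0 < ρ → p ≤ q → q ≤ p + 1 → C * (q - p) ≤ ρ ^ K →
      ρ ≤ |rr a b D₀ f p| → ∀ (cc : A → ℂ) (η l : ℝ), 0 < η → 0 < l → l ≤ 1 →
        C * η ≤ ρ ^ K * l ^ J → Cov (2 ^ J) l {u | u ∈ Icc p q ∧
          ‖∑ α, cc α * ((hg a₀ a₁ a b B D₀ α u : ℝ) : ℂ)‖ < η * ∑ α, ‖cc α‖ * hg a₀ a₁ a b B D₀ α u} := by
  classical
  set Φ : ℝ := M₀ + Fintype.card ι * (M₀ * β) with hΦ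
  set Bd : ℝ := |β| + 1 + Real.exp Φ with hBd
  obtain ⟨K, J, C₀, hC₀, hnull⟩ := null (ι := ι) (A := A) a₀ a₁ hinj Bd
  choose Cp hCp hCp' using fun j => poly_bdd (GG (ι := ι) (A := A) a₀ a₁ j) Bd
  set Λ := ∑ j ∈ Finset.range (J + 1), Cp j with hΛ
  have hΛ0 : 0 < Λ := Finset.sum_pos (fun j _ => hCp j) ⟨0, by simp⟩
  set nA : ℝ := ((Fintype.card A : ℕ) : ℝ) with hnA
  have hnA1 : 1 ≤ nA := by
    rw [hnA]; exact_mod_cast (Fintype.card_pos : 0 < Fintype.card A)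
  have hnA0 : 0 < nA := by linarith
  set C₁ : ℝ := 4 * C₀ * (J + 1) * nA ^ K with hC₁
  have hC₁0 : 0 < C₁ := by positivity
  refine ⟨K, J, 1 + C₁ * Λ + C₁ * 2 ^ J * Real.exp Φ, ?_, ?_⟩
  · have := Real.exp_pos Φ
    have : 0 ≤ C₁ * Λ + C₁ * 2 ^ J * Real.exp Φ := by positivity
    linarith
  intro a b B D₀ ha hb hbβ hB hD f ρ p q hρ hpq hqp hlen hρr cc η l hη hl hl1 hηl
  have hexp := Real.exp_pos Φ
  by_cases hcc : ∀ α, cc α = 0
  · refine (Cov.empty l).mono (Nat.zero_le _) le_rfl ?_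
    rintro u ⟨_, hu⟩
    simp [hcc] at hu
  push Not at hcc
  obtain ⟨α₀, hα₀⟩ := hcc
  set M : ℝ := ∑ α, ‖cc α‖ * hg a₀ a₁ a b B D₀ α p with hM
  have hM0 : 0 < M := by
    have h1 : ‖cc α₀‖ * hg a₀ a₁ a b B D₀ α₀ p ≤ M :=
      Finset.single_le_sum (f := fun α => ‖cc α‖ * hg a₀ a₁ a b B D₀ α p)
        (fun α _ => mul_nonneg (norm_nonneg _) (hg_pos ha hB hD α p).le) (Finset.mem_univ α₀)
    have h2 : 0 < ‖cc α₀‖ * hg a₀ a₁ a b B D₀ α₀ p :=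
      mul_pos (norm_pos_iff.2 hα₀) (hg_pos ha hB hD α₀ p)
    linarith
  set F : ℕ → ℝ → ℂ := fun j u => MvPolynomial.aeval (pt a₀ a₁ a b B D₀ cc M u) (GG (ι := ι) (A := A) a₀ a₁ j) with hF
  have hder : ∀ i, ∀ u, HasDerivAt (F i) (F (i + 1) u) u := by
    intro i u
    have h1 := pt_deriv (a₀ := a₀) (a₁ := a₁) (b := b) (B := B) ha hD cc M (GG (ι := ι) (A := A) a₀ a₁ i) u
    have h2 : GG (ι := ι) (A := A) a₀ a₁ (i + 1) = dd a₀ a₁ (GG a₀ a₁ i) := by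
      unfold GG
      rw [Function.iterate_succ_apply']
    rw [hF]
    simp only
    rw [h2]
    exact h1
  have hF0 : ∀ u, F 0 u = (∑ α, cc α * ((hg a₀ a₁ a b B D₀ α u : ℝ) : ℂ)) / M := by
    intro u
    rw [hF]
    simp only
    unfold GG
    rw [Function.iterate_zero, id, map_sum, Finset.sum_div]
    refine Finset.sum_congr rfl fun α _ => ?_
    rw [MvPolynomial.aeval_X]
    show cc α * ((hg a₀ a₁ a b B D₀ α u / M : ℝ) : ℂ) = _
    push_cast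
    ring
  have hbdd : ∀ u ∈ Icc p q, ∀ v, ‖pt a₀ a₁ a b B D₀ cc M u v‖ ≤ Bd := by
    intro u hu v
    rcases v with (i | i) | α
    · show ‖((b i : ℝ) : ℂ)‖ ≤ _
      rw [Complex.norm_real, Real.norm_eq_abs, abs_of_pos (hb i), hBd]
      have := hbβ i
      have := le_abs_self β
      linarith
    · show ‖((yy a b D₀ i u : ℝ) : ℂ)‖ ≤ _
      rw [Complex.norm_real, Real.norm_eq_abs, abs_of_pos (yy_pos a b D₀ i u), hBd]
      have := yy_le a b D₀ i u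
      have := abs_nonneg β
      linarith
    · show ‖cc α * ((hg a₀ a₁ a b B D₀ α u / M : ℝ) : ℂ)‖ ≤ _
      rw [norm_mul, Complex.norm_real, Real.norm_eq_abs,
        abs_of_pos (div_pos (hg_pos ha hB hD α u) hM0)]
      have h1 := hg_grow hM₀ hM₁ ha hb hβ hbβ hB hD α hu.1 (hu.2.trans hqp)
      rw [← hΦ] at h1
      have h2 : ‖cc α‖ * hg a₀ a₁ a b B D₀ α p ≤ M :=
        Finset.single_le_sum (f := fun α => ‖cc α‖ * hg a₀ a₁ a b B D₀ α p)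
          (fun α _ => mul_nonneg (norm_nonneg _) (hg_pos ha hB hD α p).le) (Finset.mem_univ α)
      have h3 : ‖cc α‖ * (hg a₀ a₁ a b B D₀ α u / M) ≤ Real.exp Φ := by
        rw [mul_div_assoc', div_le_iff₀ hM0]
        calc ‖cc α‖ * hg a₀ a₁ a b B D₀ α u ≤ ‖cc α‖ * (Real.exp Φ * hg a₀ a₁ a b B D₀ α p) :=
              mul_le_mul_of_nonneg_left h1 (norm_nonneg _)
          _ = Real.exp Φ * (‖cc α‖ * hg a₀ a₁ a b B D₀ α p) := by ring
          _ ≤ _ := by gcongr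
      rw [hBd]
      have := abs_nonneg β
      linarith
  have hΛb : ∀ i ≤ J, ∀ u ∈ Icc p q, ‖F i u‖ ≤ Λ := by
    intro i hi u hu
    refine (hCp' i _ (hbdd u hu)).trans ?_
    exact Finset.single_le_sum (f := Cp) (fun j _ => (hCp j).le) (Finset.mem_range.2 (by omega))
  -- a large derivative at `p`
  set δ : ℝ := 4 * ρ ^ K / C₁ with hδ
  have hδ0 : 0 < δ := by positivity
  obtain ⟨α₁, hα₁⟩ : ∃ α, M / nA ≤ ‖cc α‖ * hg a₀ a₁ a b B D₀ α p := by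
    by_contra hcon
    push Not at hcon
    have h1 : M < ∑ _α : A, M / nA := by
      conv_lhs => rw [hM]
      exact Finset.sum_lt_sum_of_nonempty Finset.univ_nonempty fun α _ => hcon α
    rw [Finset.sum_const, Finset.card_univ, nsmul_eq_mul, ← hnA] at h1
    have h2 : nA * (M / nA) = M := by field_simp
    linarith
  obtain ⟨j, hj, hjδ⟩ : ∃ j < J, δ ≤ ‖F j p‖ := by
    by_contra hcon
    push Not at hcon
    have h1 := hnull f (pt a₀ a₁ a b B D₀ cc M p) (hbdd p ⟨le_rfl, hpq⟩) α₁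
    rw [aeval_rho, Complex.norm_real, Real.norm_eq_abs] at h1
    have h2 : 1 / nA ≤ ‖pt a₀ a₁ a b B D₀ cc M p (.inr α₁)‖ := by
      show _ ≤ ‖cc α₁ * ((hg a₀ a₁ a b B D₀ α₁ p / M : ℝ) : ℂ)‖
      rw [norm_mul, Complex.norm_real, Real.norm_eq_abs,
        abs_of_pos (div_pos (hg_pos ha hB hD α₁ p) hM0), mul_div_assoc', le_div_iff₀ hM0]
      calc 1 / nA * M = M / nA := by ring
        _ ≤ _ := hα₁
    have h3 : (ρ * (1 / nA)) ^ K ≤ C₀ * ∑ j ∈ Finset.range J, ‖F j p‖ := by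
      refine le_trans (pow_le_pow_left₀ (by positivity) ?_ K) h1
      gcongr
    have h4 : ∑ j ∈ Finset.range J, ‖F j p‖ ≤ J * δ := by
      calc _ ≤ ∑ _j ∈ Finset.range J, δ :=
            Finset.sum_le_sum fun j hj => (hcon j (Finset.mem_range.1 hj)).le
        _ = _ := by rw [Finset.sum_const, Finset.card_range, nsmul_eq_mul]
    have h5 : C₀ * (J * δ) < C₀ * ((J + 1) * δ) := by
      have : (J : ℝ) * δ < (J + 1) * δ := by linarith
      exact mul_lt_mul_of_pos_left this hC₀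
    have h6 : C₀ * ((J + 1) * δ) = (ρ * (1 / nA)) ^ K := by
      rw [hδ, hC₁, mul_pow, div_pow, one_pow]
      field_simp
    have h7 : C₀ * ∑ j ∈ Finset.range J, ‖F j p‖ ≤ C₀ * (J * δ) := by gcongr
    linarith
  have hlen' : Λ * (q - p) ≤ δ / 4 := by
    have h1 : C₁ * Λ * (q - p) ≤ ρ ^ K := by
      refine le_trans ?_ hlen
      refine mul_le_mul_of_nonneg_right ?_ (by linarith)
      have : 0 ≤ C₁ * 2 ^ J * Real.exp Φ := by positivity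
      linarith
    have h2 : δ / 4 = ρ ^ K / C₁ := by rw [hδ]; ring
    rw [h2, le_div_iff₀ hC₁0]
    calc Λ * (q - p) * C₁ = C₁ * Λ * (q - p) := by ring
      _ ≤ _ := h1
  have hη' : η * Real.exp Φ * (2 / l) ^ J < δ / 4 := by
    have h2 : δ / 4 = ρ ^ K / C₁ := by rw [hδ]; ring
    have hlJ : 0 < l ^ J := by positivity
    rw [h2, lt_div_iff₀ hC₁0, div_pow]
    have h3 : C₁ * 2 ^ J * Real.exp Φ * η < ρ ^ K * l ^ J := by
      refine lt_of_lt_of_le ?_ hηl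
      refine mul_lt_mul_of_pos_right ?_ hη
      have : 0 ≤ C₁ * Λ := by positivity
      linarith
    calc η * Real.exp Φ * (2 ^ J / l ^ J) * C₁ = (C₁ * 2 ^ J * Real.exp Φ * η) / l ^ J := by ring
      _ < (ρ ^ K * l ^ J) / l ^ J := by gcongr
      _ = ρ ^ K := by field_simp
  refine (sub_cplx J F p q l (η * Real.exp Φ) Λ δ hl (by linarith) (by positivity) hder hpq hΛb hlen' hj
    hjδ hη').mono le_rfl le_rfl ?_
  rintro u ⟨hu, hlt⟩
  refine ⟨hu, ?_⟩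
  rw [hF0, norm_div, Complex.norm_real, Real.norm_eq_abs, abs_of_pos hM0, div_le_iff₀ hM0]
  refine hlt.le.trans ?_
  have h1 : ∑ α, ‖cc α‖ * hg a₀ a₁ a b B D₀ α u ≤ Real.exp Φ * M := by
    rw [hM, Finset.mul_sum]
    refine Finset.sum_le_sum fun α _ => ?_
    have h2 := hg_grow hM₀ hM₁ ha hb hβ hbβ hB hD α hu.1 (hu.2.trans hqp)
    rw [← hΦ] at h2
    calc ‖cc α‖ * hg a₀ a₁ a b B D₀ α u ≤ ‖cc α‖ * (Real.exp Φ * hg a₀ a₁ a b B D₀ α p) :=
          mul_le_mul_of_nonneg_left h2 (norm_nonneg _)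
      _ = _ := by ring
  calc η * ∑ α, ‖cc α‖ * hg a₀ a₁ a b B D₀ α u ≤ η * (Real.exp Φ * M) := by gcongr
    _ = _ := by ring

/-- the unit interval -/
theorem block [Fintype A] [Nonempty A] (hinj : Function.Injective fun α => (a₀ α, a₁ α)) {M₀ : ℕ}
    (hM₀ : ∀ α, a₀ α ≤ M₀) (hM₁ : ∀ α i, a₁ α i ≤ M₀) (β : ℝ) (hβ : 0 ≤ β) : ∃ (K J : ℕ) (C : ℝ), 1 ≤ C ∧ ∀ (a b : ι → ℝ) (B D₀ : ℝ),
    (∀ i, 0 < a i) → (∀ i, 0 < b i) → (∀ i, b i ≤ β) → 0 < B → 0 < D₀ →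
    ∀ (f : ι → ι → Bool) (ρ U : ℝ), 0 < ρ → (∀ u ∈ Icc U (U + 1), ρ ≤ |rr a b D₀ f u|) →
      ∀ (np : ℕ), 0 < np → C ≤ np * ρ ^ K → ∀ (cc : A → ℂ) (η l : ℝ), 0 < η → 0 < l → l ≤ 1 →
        C * η ≤ ρ ^ K * l ^ J → Cov (np * 2 ^ J) l {u | u ∈ Icc U (U + 1) ∧
          ‖∑ α, cc α * ((hg a₀ a₁ a b B D₀ α u : ℝ) : ℂ)‖ < η * ∑ α, ‖cc α‖ * hg a₀ a₁ a b B D₀ α u} := by
  obtain ⟨K, J, C, hC, hpiece⟩ := piece hinj hM₀ hM₁ β hβ
  refine ⟨K, J, C, hC, ?_⟩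
  intro a b B D₀ ha hb hbβ hB hD f ρ U hρ hrr np hnp hCnp cc η l hη hl hl1 hηl
  have hnp0 : (0 : ℝ) < np := by exact_mod_cast hnp
  have hnp1 : (1 : ℝ) ≤ np := by exact_mod_cast hnp
  set P : ℕ → ℝ := fun i => U + i / np with hP
  have hPs : ∀ i, P (i + 1) = P i + 1 / np := by
    intro i
    rw [hP]
    simp only
    push_cast
    ring
  have h1 : ∀ i < np, Cov (2 ^ J) l {u | u ∈ Icc (P i) (P (i + 1)) ∧
      ‖∑ α, cc α * ((hg a₀ a₁ a b B D₀ α u : ℝ) : ℂ)‖ < η * ∑ α, ‖cc α‖ * hg a₀ a₁ a b B D₀ α u} := by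
    intro i hi
    have h2 : (0 : ℝ) ≤ i / np := by positivity
    have h3 : (i : ℝ) / np ≤ 1 := by
      rw [div_le_one hnp0]; exact_mod_cast hi.le
    have h4 : (1 : ℝ) / np ≤ 1 := by
      rw [div_le_one hnp0]; exact hnp1
    have h5 : (0 : ℝ) ≤ 1 / np := by positivity
    refine hpiece a b B D₀ ha hb hbβ hB hD f ρ (P i) (P (i + 1)) hρ (by rw [hPs]; linarith)
      (by rw [hPs]; linarith) ?_ (hrr _ ⟨by rw [hP]; simp only; linarith, by rw [hP]; simp only; linarith⟩)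
      cc η l hη hl hl1 hηl
    rw [hPs, add_sub_cancel_left, mul_one_div, div_le_iff₀ hnp0, mul_comm]
    exact hCnp
  refine (Cov.iUnion _ np h1).mono le_rfl le_rfl ?_
  rintro u ⟨hu, hlt⟩
  -- the index of the piece
  rcases lt_or_ge u (U + 1) with h2 | h2
  · refine ⟨⌊(u - U) * np⌋₊, ?_, ?_, hlt⟩
    · rw [Nat.floor_lt (mul_nonneg (by linarith [hu.1]) hnp0.le)]
      nlinarith
    · have h3 : 0 ≤ (u - U) * np := mul_nonneg (by linarith [hu.1]) hnp0.le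
      have h4 := Nat.floor_le h3
      have h5 := Nat.lt_floor_add_one ((u - U) * np)
      constructor
      · rw [hP]
        simp only
        have h6 : (⌊(u - U) * np⌋₊ : ℝ) / np ≤ u - U := by
          rw [div_le_iff₀ hnp0]; exact h4
        linarith
      · rw [hP]
        simp only
        have h6 : u - U ≤ ((⌊(u - U) * np⌋₊ + 1 : ℕ) : ℝ) / np := by
          rw [le_div_iff₀ hnp0]; push_cast; exact h5.le
        linarith
  · refine ⟨np - 1, by omega, ?_, hlt⟩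
    have h3 : u = U + 1 := le_antisymm hu.2 h2
    have h4 : np - 1 + 1 = np := by omega
    constructor
    · rw [hP, h3]
      simp only
      have h5 : ((np - 1 : ℕ) : ℝ) / np ≤ 1 := by
        rw [div_le_one hnp0]; exact_mod_cast Nat.sub_le _ _
      linarith
    · rw [h4, hP, h3]
      simp only
      rw [div_self hnp0.ne']

end Pool.Agent.Lib.MP_ec260d_ntG
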