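import Mathlib
import Pool.Agent.Lib.MP_ec260d_ntU.Sep
import Pool.Agent.Lib.MP_ec260d_ntG.CovG

/-!
# Lower bound for the product `rr` along lines, from the separation of the pairs
-/

open Set Filter Topology

namespace Pool.Agent.Lib.MP_ec260d_ntG

open Pool.Agent.Lib.MP_ec260d_nt Pool.Agent.Lib.MP_ec260d_ntH
open Pool.Agent.Lib.MP_ec260d_ntU (log_sep log_lip yy_sep)

/-- scalar product -/
def dt {r : ℕ} (b u : Fin r → ℝ) : ℝ := ∑ l, b l * u l

theorem dt_add {r : ℕ} (b u v : Fin r → ℝ) : dt b (u + v) = dt b u + dt b v := by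
  unfold dt
  rw [← Finset.sum_add_distrib]
  exact Finset.sum_congr rfl fun l _ => by rw [Pi.add_apply]; ring

theorem dt_smul {r : ℕ} (b u : Fin r → ℝ) (t : ℝ) : dt b (t • u) = t * dt b u := by
  unfold dt
  rw [Finset.mul_sum]
  exact Finset.sum_congr rfl fun l _ => by rw [Pi.smul_apply, smul_eq_mul]; ring

theorem dt_sub {r : ℕ} (b b' u : Fin r → ℝ) : dt (fun l => b l - b' l) u = dt b u - dt b' u := by
  unfold dt
  rw [← Finset.sum_sub_distrib]
  exact Finset.sum_congr rfl fun l _ => by ring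

theorem sepG (k r : ℕ) (β D₀ c Ω : ℝ) (hβ : 1 ≤ β) (hc : 0 < c) (hD : 0 < D₀) (hcβ : c ≤ 1 / (8 * β))
    (ω : Fin r → ℝ) (hω1 : ∀ l, 1 ≤ ω l) (hωΩ : ∀ l, ω l ≤ Ω) :
    ∀ᶠ N : ℝ in atTop, ∀ (a : Fin k → ℝ) (b : Fin k → Fin r → ℝ), (∀ i, N ^ (-c) ≤ a i ∧ a i ≤ N ^ c) →
      (∀ i l, 0 ≤ b i l ∧ b i l ≤ β) → (∀ i, ∃ l, β⁻¹ ≤ b i l) →
      (∀ i j, i ≠ j → N ^ (-c) ≤ |a i - a j| + ∑ l, |b i l - b j l|) →
      ∀ v : Fin r → ℝ, (∀ l, Real.log N / 3 ≤ v l ∧ v l ≤ Real.log N + 1) →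
      (∀ i j, i ≠ j → N ^ (-(3 * c)) ≤ ∑ l, |b i l - b j l| →
        N ^ (-(7 * c)) ≤ |Real.log (a i) - Real.log (a j) + dt (fun l => b i l - b j l) v|) →
      ∃ f : Fin k → Fin k → Bool, ∀ t ∈ Icc (0 : ℝ) 1, (N ^ (-(8 * c))) ^ (k + k * k) ≤
        |rr (fun i => a i * Real.exp (dt (b i) v)) (fun i => dt (b i) ω) D₀ f t| := by
  classical
  have hβ0 : 0 < β := by linarith
  have hc8 : c ≤ 1 / 8 := by
    refine hcβ.trans ?_
    rw [div_le_div_iff₀ (by positivity) (by norm_num)]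
    linarith
  have hr0 : (0 : ℝ) ≤ r := Nat.cast_nonneg _
  set C : ℝ := 8 * β * (2 * r * β + 3) ^ 2 + 22 with hC
  have hC0 : 0 < C := by positivity
  have hlim : ∀ᶠ N : ℝ in atTop, C * (Real.log N) ^ 2 ≤ N ^ c := by
    have h1 := (isLittleO_log_rpow_rpow_atTop ((2 : ℕ) : ℝ) hc).def (c := 1 / C) (by positivity)
    filter_upwards [h1, eventually_ge_atTop (1 : ℝ)] with N hN hN1
    have hl : 0 ≤ Real.log N := Real.log_nonneg hN1
    rw [Real.rpow_natCast, Real.norm_of_nonneg (pow_nonneg hl _),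
      Real.norm_of_nonneg (Real.rpow_nonneg (by linarith) _), one_div_mul_eq_div,
      le_div_iff₀ hC0] at hN
    linarith
  have hgap : 0 < β⁻¹ / 3 - c := by
    have h1 : c ≤ β⁻¹ / 8 := by
      rw [one_div, mul_inv] at hcβ
      linarith
    have h2 : 0 < β⁻¹ := inv_pos.2 hβ0
    linarith
  have hL1 : ∀ᶠ N : ℝ in atTop, (1 + Real.log D₀) / (β⁻¹ / 3 - c) ≤ Real.log N :=
    Real.tendsto_log_atTop.eventually_ge_atTop _
  have hL2 : ∀ᶠ N : ℝ in atTop, -Real.log D₀ ≤ Real.log N :=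
    Real.tendsto_log_atTop.eventually_ge_atTop _
  have hL3 : ∀ᶠ N : ℝ in atTop, max 1 (1 + Ω) ≤ Real.log N := Real.tendsto_log_atTop.eventually_ge_atTop _
  filter_upwards [hlim, hL1, hL2, hL3, eventually_ge_atTop (1 : ℝ)] with N hN hN1 hN2 hN3' hNge
    a b ha hb hb' hab v hv hslab
  have hN3 : 1 ≤ Real.log N := (le_max_left _ _).trans hN3'
  have hN4 : 1 + Ω ≤ Real.log N := (le_max_right _ _).trans hN3'
  have hN0 : 0 < N := by linarith
  set L := Real.log N with hL
  have hp : ∀ e : ℝ, 0 < N ^ e := fun e => Real.rpow_pos_of_pos hN0 e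
  set T : ℝ := (2 * r * β + 2) * L with hT
  have hT0 : 0 < T := by positivity
  have hQ : 8 * β * (1 + T) ^ 2 + 8 * (L + 1) + 4 ≤ N ^ c := by
    refine le_trans ?_ hN
    have h1 : 1 + T ≤ (2 * r * β + 3) * L := by rw [hT]; linarith
    have h2 : (1 + T) ^ 2 ≤ ((2 * r * β + 3) * L) ^ 2 := pow_le_pow_left₀ (by linarith) h1 2
    have h3 : L ≤ L ^ 2 := by nlinarith
    have h4 : (1 : ℝ) ≤ L ^ 2 := by nlinarith
    have h5 : 8 * β * (1 + T) ^ 2 ≤ 8 * β * ((2 * r * β + 3) * L) ^ 2 := by gcongr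
    rw [hC]
    nlinarith
  have hNc1 : 1 ≤ N ^ c := Real.one_le_rpow hNge hc.le
  have hsq0 : 0 ≤ (1 + T) ^ 2 := sq_nonneg _
  have hA3 : 8 * β * (1 + T) ^ 2 ≤ N ^ c := by linarith
  have hA0 : 0 ≤ 8 * β * (1 + T) ^ 2 := by positivity
  have hA1 : (4 : ℝ) ≤ N ^ c := by linarith
  have hA2 : L + 1 ≤ N ^ c / 8 := by linarith
  have hA4 : 8 * (1 + T) ^ 2 ≤ N ^ c := by
    refine le_trans ?_ hA3
    have : 8 * 1 * (1 + T) ^ 2 ≤ 8 * β * (1 + T) ^ 2 := by gcongr
    linarith
  have hA5 : β * (1 + T) * 2 ≤ N ^ c := by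
    refine le_trans ?_ hA3
    have h1 : 1 + T ≤ (1 + T) ^ 2 := by
      rw [pow_two]; exact le_mul_of_one_le_left (by linarith) (by linarith)
    calc β * (1 + T) * 2 = 2 * β * (1 + T) := by ring
      _ ≤ 8 * β * (1 + T) ^ 2 := by gcongr; norm_num
  have e87 : N ^ (-(8 * c)) * N ^ c = N ^ (-(7 * c)) := by
    rw [← Real.rpow_add hN0]; congr 1; ring
  have e32 : N ^ (-(3 * c)) * N ^ c = N ^ (-(2 * c)) := by
    rw [← Real.rpow_add hN0]; congr 1; ring
  have e21 : N ^ (-(2 * c)) * N ^ c = N ^ (-c) := by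
    rw [← Real.rpow_add hN0]; congr 1; ring
  set ρ : ℝ := N ^ (-(8 * c)) with hρ
  have hρ0 : 0 < ρ := hp _
  have hρ1 : ρ ≤ 1 := by
    rw [hρ]; exact Real.rpow_le_one_of_one_le_of_nonpos hNge (by linarith)
  have ha0 : ∀ i, 0 < a i := fun i => (hp _).trans_le (ha i).1
  have hloga : ∀ i, -(c * L) ≤ Real.log (a i) ∧ Real.log (a i) ≤ c * L := by
    intro i
    have h1 := Real.log_le_log (hp _) (ha i).1
    have h2 := Real.log_le_log (ha0 i) (ha i).2
    rw [Real.log_rpow hN0] at h1 h2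
    constructor <;> linarith
  -- the arguments
  set u : ℝ → Fin r → ℝ := fun t => v + t • ω with hu
  have hul : ∀ t ∈ Icc (0 : ℝ) 1, ∀ l, L / 3 ≤ u t l ∧ u t l ≤ 2 * L := by
    intro t ht l
    have h1 : u t l = v l + t * ω l := by rw [hu]; simp
    have h2 : 0 ≤ t * ω l := mul_nonneg ht.1 (by linarith [hω1 l])
    have h3 : t * ω l ≤ Ω := by
      have : t * ω l ≤ 1 * ω l := mul_le_mul_of_nonneg_right ht.2 (by linarith [hω1 l])
      linarith [hωΩ l]
    rw [h1]
    constructor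
    · linarith [(hv l).1]
    · linarith [(hv l).2]
  have hdlow : ∀ i, ∀ w : Fin r → ℝ, ∀ m : ℝ, 0 ≤ m → (∀ l, m ≤ w l) → β⁻¹ * m ≤ dt (b i) w := by
    intro i w m hm hw
    obtain ⟨l, hl⟩ := hb' i
    have h1 : b i l * w l ≤ dt (b i) w :=
      Finset.single_le_sum (f := fun l => b i l * w l)
        (fun l _ => mul_nonneg (hb i l).1 (hm.trans (hw l))) (Finset.mem_univ l)
    refine le_trans ?_ h1
    exact mul_le_mul hl (hw l) hm (hb i l).1
  have hdup : ∀ i, ∀ w : Fin r → ℝ, ∀ m : ℝ, 0 ≤ m → (∀ l, w l ≤ m) → dt (b i) w ≤ r * (β * m) := by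
    intro i w m hm hw
    calc dt (b i) w ≤ ∑ _l : Fin r, β * m := by
          refine Finset.sum_le_sum fun l _ => ?_
          calc b i l * w l ≤ b i l * m := mul_le_mul_of_nonneg_left (hw l) (hb i l).1
            _ ≤ β * m := mul_le_mul_of_nonneg_right (hb i l).2 hm
      _ = _ := by rw [Finset.sum_const, Finset.card_univ, Fintype.card_fin, nsmul_eq_mul]
  have hβi : 0 < β⁻¹ := inv_pos.2 hβ0
  set s : Fin k → ℝ → ℝ := fun i t => Real.log (a i * Real.exp (dt (b i) v) / D₀) + dt (b i) ω * t with hs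
  have hseq : ∀ i t, s i t = Real.log (a i) - Real.log D₀ + dt (b i) (u t) := by
    intro i t
    rw [hs, hu]
    simp only
    rw [Real.log_div (mul_pos (ha0 i) (Real.exp_pos _)).ne' hD.ne', Real.log_mul (ha0 i).ne'
      (Real.exp_pos _).ne', Real.log_exp, dt_add, dt_smul]
    ring
  have hs1 : ∀ i, ∀ t ∈ Icc (0 : ℝ) 1, 1 ≤ s i t := by
    intro i t ht
    rw [hseq]
    have h1 := hdlow i (u t) (L / 3) (by linarith) (fun l => (hul t ht l).1)
    have h2 : 1 + Real.log D₀ ≤ L * (β⁻¹ / 3 - c) := by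
      rwa [div_le_iff₀ hgap] at hN1
    have h3 := (hloga i).1
    have h4 : L * (β⁻¹ / 3 - c) = β⁻¹ * (L / 3) - c * L := by ring
    linarith
  have hsT : ∀ i, ∀ t ∈ Icc (0 : ℝ) 1, s i t ≤ T := by
    intro i t ht
    rw [hseq]
    have h1 := hdup i (u t) (2 * L) (by linarith) (fun l => (hul t ht l).2)
    have h3 := (hloga i).2
    have h4 : c * L ≤ 1 / 8 * L := mul_le_mul_of_nonneg_right hc8 (by linarith)
    have h5 : T = r * (β * (2 * L)) + 2 * L := by rw [hT]; ring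
    linarith
  refine ⟨fun i j => decide (ρ ≤ |dt (b i) ω - dt (b j) ω|), fun t ht => ?_⟩
  have hyy : ∀ i, yy (fun i => a i * Real.exp (dt (b i) v)) (fun i => dt (b i) ω) D₀ i t =
      (1 + gE (s i t))⁻¹ := fun i => rfl
  have hw : ∀ i, 1 ≤ gE (s i t) ∧ gE (s i t) ≤ T := by
    intro i
    obtain ⟨h1, h2, _⟩ := gE_bounds (hs1 i t ht)
    exact ⟨h1, h2.trans (hsT i t ht)⟩
  have hbω : ∀ i, β⁻¹ ≤ dt (b i) ω := fun i => by
    have := hdlow i ω 1 zero_le_one hω1
    linarith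
  -- single factors
  have hsingle : ∀ i, ρ ≤ |dt (b i) ω * yy (fun i => a i * Real.exp (dt (b i) v)) (fun i => dt (b i) ω) D₀ i t *
      (1 - yy (fun i => a i * Real.exp (dt (b i) v)) (fun i => dt (b i) ω) D₀ i t)| := by
    intro i
    rw [hyy]
    have h1 : (1 + T)⁻¹ ≤ (1 + gE (s i t))⁻¹ :=
      inv_anti₀ (by linarith [(hw i).1]) (by linarith [(hw i).2])
    have h2 : (1 + gE (s i t))⁻¹ ≤ 2⁻¹ :=
      inv_anti₀ (by norm_num) (by linarith [(hw i).1])
    have h0 : 0 < (1 + gE (s i t))⁻¹ := inv_pos.2 (by linarith [(hw i).1])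
    have h3 : β⁻¹ * (1 + T)⁻¹ * 2⁻¹ ≤ dt (b i) ω * (1 + gE (s i t))⁻¹ * (1 - (1 + gE (s i t))⁻¹) := by
      have h5 : 0 < (1 + T)⁻¹ := inv_pos.2 (by linarith)
      have h6 : β⁻¹ * (1 + T)⁻¹ ≤ dt (b i) ω * (1 + gE (s i t))⁻¹ :=
        mul_le_mul (hbω i) h1 h5.le (hβi.le.trans (hbω i))
      have h7 : (2 : ℝ)⁻¹ ≤ 1 - (1 + gE (s i t))⁻¹ := by linarith
      exact mul_le_mul h6 h7 (by norm_num) (mul_nonneg (hβi.le.trans (hbω i)) h0.le)
    have h4 : ρ ≤ β⁻¹ * (1 + T)⁻¹ * 2⁻¹ := by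
      rw [← mul_inv, ← mul_inv, ← one_div, le_div_iff₀ (by positivity)]
      have h6 : N ^ c ≤ N ^ (8 * c) := Real.rpow_le_rpow_of_exponent_le hNge (by linarith)
      have h7 : ρ * N ^ (8 * c) = 1 := by
        rw [hρ, ← Real.rpow_add hN0, neg_add_cancel, Real.rpow_zero]
      calc ρ * (β * (1 + T) * 2) ≤ ρ * N ^ (8 * c) :=
            mul_le_mul_of_nonneg_left (hA5.trans h6) hρ0.le
        _ = 1 := h7
    exact (h4.trans h3).trans (le_abs_self _)
  have hpair : ∀ i j, ρ ≤ |if i = j then (1 : ℝ) else if decide (ρ ≤ |dt (b i) ω - dt (b j) ω|) = true then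
      dt (b i) ω - dt (b j) ω else
      yy (fun i => a i * Real.exp (dt (b i) v)) (fun i => dt (b i) ω) D₀ i t -
        yy (fun i => a i * Real.exp (dt (b i) v)) (fun i => dt (b i) ω) D₀ j t| := by
    intro i j
    by_cases hij : i = j
    · rw [if_pos hij, abs_one]; exact hρ1
    rw [if_neg hij]
    by_cases hbij : ρ ≤ |dt (b i) ω - dt (b j) ω|
    · rw [if_pos (by simpa using hbij)]; exact hbij
    · rw [if_neg (by simpa using hbij)]
      push Not at hbij
      set lam := Real.log (a i) - Real.log (a j) + dt (fun l => b i l - b j l) v with hlam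
      have hlamlow : N ^ (-(7 * c)) ≤ |lam| := by
        by_cases hb3 : N ^ (-(3 * c)) ≤ ∑ l, |b i l - b j l|
        · exact hslab i j hij hb3
        · push Not at hb3
          have h1 : N ^ (-(3 * c)) ≤ N ^ (-c) / 2 := by
            have h2 : N ^ (-(3 * c)) * N ^ c ≤ N ^ (-c) := by
              rw [e32]; exact Real.rpow_le_rpow_of_exponent_le hNge (by linarith)
            have h3 : N ^ (-(3 * c)) * 2 ≤ N ^ (-(3 * c)) * N ^ c :=
              mul_le_mul_of_nonneg_left (by linarith) (hp _).le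
            linarith
          have h2 : N ^ (-c) / 2 ≤ |a i - a j| := by
            have := hab i j hij
            linarith
          have h3 : N ^ (-(2 * c)) / 2 ≤ |Real.log (a i) - Real.log (a j)| := by
            refine le_trans ?_ (log_sep (ha0 i) (ha0 j) (ha i).2 (ha j).2)
            rw [le_div_iff₀ (hp _)]
            calc N ^ (-(2 * c)) / 2 * N ^ c = (N ^ (-(2 * c)) * N ^ c) / 2 := by ring
              _ = N ^ (-c) / 2 := by rw [e21]
              _ ≤ _ := h2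
          have h4 : |dt (fun l => b i l - b j l) v| ≤ N ^ (-(2 * c)) / 4 := by
            unfold dt
            refine (Finset.abs_sum_le_sum_abs _ _).trans ?_
            have h5 : ∑ l, |(b i l - b j l) * v l| ≤ ∑ l, |b i l - b j l| * (L + 1) := by
              refine Finset.sum_le_sum fun l _ => ?_
              have hv0 : 0 ≤ v l := by linarith [(hv l).1]
              rw [abs_mul, abs_of_nonneg hv0]
              exact mul_le_mul_of_nonneg_left (hv l).2 (abs_nonneg _)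
            refine h5.trans ?_
            rw [← Finset.sum_mul]
            calc (∑ l, |b i l - b j l|) * (L + 1) ≤ N ^ (-(3 * c)) * (N ^ c / 8) :=
                  mul_le_mul hb3.le hA2 (by linarith) (hp _).le
              _ = (N ^ (-(3 * c)) * N ^ c) / 8 := by ring
              _ = N ^ (-(2 * c)) / 8 := by rw [e32]
              _ ≤ _ := by have := hp (-(2 * c)); linarith
          have h5 : N ^ (-(2 * c)) / 4 ≤ |lam| := by
            have h7 := abs_sub_abs_le_abs_sub (Real.log (a i) - Real.log (a j))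
              (-(dt (fun l => b i l - b j l) v))
            rw [abs_neg, sub_neg_eq_add] at h7
            rw [hlam]
            linarith
          refine le_trans ?_ h5
          have h6 : N ^ (-(7 * c)) ≤ N ^ (-(3 * c)) :=
            Real.rpow_le_rpow_of_exponent_le hNge (by linarith)
          have h7 : N ^ (-(3 * c)) * 4 ≤ N ^ (-(3 * c)) * N ^ c :=
            mul_le_mul_of_nonneg_left hA1 (hp _).le
          rw [e32] at h7
          linarith
      have h5 : N ^ (-(7 * c)) / 2 ≤ |s i t - s j t| := by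
        have h6 : s i t - s j t = lam + t * (dt (b i) ω - dt (b j) ω) := by
          rw [hseq, hseq, hlam, hu]
          simp only
          rw [dt_add, dt_add, dt_smul, dt_smul, dt_sub]
          ring
        rw [h6]
        have h7 : |t * (dt (b i) ω - dt (b j) ω)| ≤ N ^ (-(7 * c)) / 2 := by
          rw [abs_mul, abs_of_nonneg ht.1]
          calc t * |dt (b i) ω - dt (b j) ω| ≤ 1 * ρ :=
                mul_le_mul ht.2 hbij.le (abs_nonneg _) zero_le_one
            _ ≤ N ^ (-(7 * c)) / 2 := by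
                have h8 : ρ * 4 ≤ ρ * N ^ c := mul_le_mul_of_nonneg_left hA1 hρ0.le
                rw [e87] at h8
                linarith
        have h8 := abs_sub_abs_le_abs_sub lam (-(t * (dt (b i) ω - dt (b j) ω)))
        rw [abs_neg, sub_neg_eq_add] at h8
        linarith
      rw [hyy, hyy]
      refine le_trans ?_ (yy_sep (hs1 i t ht) (hs1 j t ht) (hsT i t ht) (hsT j t ht))
      rw [le_div_iff₀ (by positivity)]
      have h8' : ρ * (8 * (1 + T) ^ 2) ≤ ρ * N ^ c := mul_le_mul_of_nonneg_left hA4 hρ0.le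
      have h9 : 0 ≤ ρ * N ^ c := mul_nonneg hρ0.le (hp _).le
      calc ρ * (2 * (1 + T) ^ 2) = ρ * (8 * (1 + T) ^ 2) / 4 := by ring
        _ ≤ ρ * N ^ c / 2 := by linarith
        _ = N ^ (-(7 * c)) / 2 := by rw [e87]
        _ ≤ _ := h5
  unfold rr
  rw [abs_mul, Finset.abs_prod, Finset.abs_prod, pow_add]
  refine mul_le_mul ?_ ?_ (by positivity) (Finset.prod_nonneg fun i _ => abs_nonneg _)
  · calc ρ ^ k = ∏ _i : Fin k, ρ := by rw [Finset.prod_const, Finset.card_univ, Fintype.card_fin]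
      _ ≤ _ := Finset.prod_le_prod (fun i _ => hρ0.le) fun i _ => hsingle i
  · calc ρ ^ (k * k) = ∏ _i : Fin k, ρ ^ k := by
          rw [Finset.prod_const, Finset.card_univ, Fintype.card_fin, pow_mul]
      _ ≤ _ := by
          refine Finset.prod_le_prod (fun i _ => by positivity) fun i _ => ?_
          rw [Finset.abs_prod]
          calc ρ ^ k = ∏ _j : Fin k, ρ := by
                rw [Finset.prod_const, Finset.card_univ, Fintype.card_fin]
            _ ≤ _ := Finset.prod_le_prod (fun j _ => hρ0.le) fun j _ => hpair i j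

end Pool.Agent.Lib.MP_ec260d_ntG
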