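import Mathlib
import Pool.Agent.Lib.MP_ec260d_ntG.SepG

/-!
# Monomials in several parameters, and their restriction to lines
-/

open Set Filter Topology

namespace Pool.Agent.Lib.MP_ec260d_ntG

open Pool.Agent.Lib.MP_ec260d_nt Pool.Agent.Lib.MP_ec260d_ntH

variable {r k D : ℕ}

/-- exponents at most `D` -/
abbrev Iy (r k D : ℕ) : Type := Fin r ⊕ Fin k → Fin (D + 1)

/-- the exponent along the line -/
def A₀ (α : Iy r k D) : ℕ := ∑ l : Fin r, (α (.inl l) : ℕ) * (D + 1) ^ (l : ℕ)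

/-- the other exponents -/
def A₁ (α : Iy r k D) (i : Fin k) : ℕ := (α (.inr i) : ℕ)

theorem digits_inj (m : ℕ) : ∀ (r : ℕ) (x y : Fin r → ℕ), (∀ l, x l < m) → (∀ l, y l < m) →
    ∑ l : Fin r, x l * m ^ (l : ℕ) = ∑ l : Fin r, y l * m ^ (l : ℕ) → x = y := by
  intro r
  induction r with
  | zero =>
    intro x y _ _ _
    funext l
    exact l.elim0
  | succ r ih =>
    intro x y hx hy h
    rw [Fin.sum_univ_succ, Fin.sum_univ_succ] at h
    simp only [Fin.val_zero, pow_zero, mul_one, Fin.val_succ] at h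
    have h1 : ∀ z : Fin (r + 1) → ℕ, ∑ l : Fin r, z l.succ * m ^ ((l : ℕ) + 1) =
        m * ∑ l : Fin r, z l.succ * m ^ (l : ℕ) := by
      intro z
      rw [Finset.mul_sum]
      exact Finset.sum_congr rfl fun l _ => by rw [pow_succ]; ring
    rw [h1, h1] at h
    have hm : 0 < m := lt_of_le_of_lt (Nat.zero_le _) (hx 0)
    have h2 : x 0 = y 0 := by
      have h3 := congrArg (fun z => z % m) h
      simp only [Nat.add_mul_mod_self_left] at h3
      rwa [Nat.mod_eq_of_lt (hx 0), Nat.mod_eq_of_lt (hy 0)] at h3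
    rw [h2] at h
    have h3 : ∑ l : Fin r, x l.succ * m ^ (l : ℕ) = ∑ l : Fin r, y l.succ * m ^ (l : ℕ) :=
      Nat.eq_of_mul_eq_mul_left hm (Nat.add_left_cancel h)
    have h4 := ih (fun l => x l.succ) (fun l => y l.succ) (fun l => hx _) (fun l => hy _) h3
    funext l
    refine Fin.cases h2 (fun l => ?_) l
    exact congrFun h4 l

theorem A_inj : Function.Injective fun α : Iy r k D => (A₀ α, A₁ α) := by
  intro α β h
  have h1 : A₀ α = A₀ β := (Prod.ext_iff.1 h).1
  have h2 : A₁ α = A₁ β := (Prod.ext_iff.1 h).2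
  have h3 := digits_inj (D + 1) r (fun l => (α (.inl l) : ℕ)) (fun l => (β (.inl l) : ℕ))
    (fun l => (α (.inl l)).2) (fun l => (β (.inl l)).2) h1
  funext v
  cases v with
  | inl l => exact Fin.ext (congrFun h3 l)
  | inr i => exact Fin.ext (congrFun h2 i)

/-- the direction -/
noncomputable def om (r D : ℕ) (l : Fin r) : ℝ := ((D : ℝ) + 1) ^ (l : ℕ)

theorem om_ge (l : Fin r) : 1 ≤ om r D l := by
  unfold om
  exact one_le_pow₀ (by linarith [(Nat.cast_nonneg D : (0 : ℝ) ≤ D)])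

theorem om_le (l : Fin r) : om r D l ≤ ((D : ℝ) + 1) ^ r := by
  unfold om
  exact pow_le_pow_right₀ (by linarith [(Nat.cast_nonneg D : (0 : ℝ) ≤ D)]) l.2.le

/-- sum of `α l * u l` -/
noncomputable def el (α : Iy r k D) (u : Fin r → ℝ) : ℝ := ∑ l, ((α (.inl l) : ℕ) : ℝ) * u l

/-- the monomial as a function of the logarithms of the parameters -/
noncomputable def HH (a : Fin k → ℝ) (b : Fin k → Fin r → ℝ) (B D₀ : ℝ) (α : Iy r k D)
    (u : Fin r → ℝ) : ℝ :=
  Real.exp (el α u) * ∏ i, Sy B D₀ (a i * Real.exp (dt (b i) u)) ^ (α (.inr i) : ℕ)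

theorem HH_pos {a : Fin k → ℝ} {b : Fin k → Fin r → ℝ} {B D₀ : ℝ} (ha : ∀ i, 0 < a i) (hB : 0 < B)
    (hD : 0 < D₀) (α : Iy r k D) (u : Fin r → ℝ) : 0 < HH a b B D₀ α u := by
  unfold HH
  refine mul_pos (Real.exp_pos _) (Finset.prod_pos fun i _ => pow_pos (Sy_pos hB hD ?_) _)
  exact mul_pos (ha i) (Real.exp_pos _)

theorem HH_line (a : Fin k → ℝ) (b : Fin k → Fin r → ℝ) (B D₀ : ℝ) (α : Iy r k D) (v : Fin r → ℝ)
    (t : ℝ) : HH a b B D₀ α (v + t • om r D) = Real.exp (el α v) *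
      hg A₀ A₁ (fun i => a i * Real.exp (dt (b i) v)) (fun i => dt (b i) (om r D)) B D₀ α t := by
  unfold HH hg SS
  rw [← mul_assoc, ← Real.exp_add]
  congr 1
  · congr 1
    unfold el A₀ om
    push_cast
    rw [Finset.sum_mul, ← Finset.sum_add_distrib]
    refine Finset.sum_congr rfl fun l _ => ?_
    rw [Pi.add_apply, Pi.smul_apply, smul_eq_mul]
    ring
  · refine Finset.prod_congr rfl fun i _ => ?_
    show _ = Sy B D₀ (a i * Real.exp (dt (b i) v) * Real.exp (dt (b i) (om r D) * t)) ^ (α (.inr i) : ℕ)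
    rw [mul_assoc, ← Real.exp_add, dt_add, dt_smul]
    congr 4
    ring

theorem HH_cont {a : Fin k → ℝ} {b : Fin k → Fin r → ℝ} {B D₀ : ℝ} (ha : ∀ i, 0 < a i)
    (hD : 0 < D₀) (α : Iy r k D) : Continuous (HH a b B D₀ α) := by
  have hdt : ∀ b' : Fin r → ℝ, Continuous (dt b') := by
    intro b'
    unfold dt
    fun_prop
  have hgE : Continuous gE := continuous_iff_continuousAt.2 fun x => (gE_hasDeriv x).continuousAt
  unfold HH
  refine Continuous.mul ?_ ?_
  · refine Real.continuous_exp.comp ?_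
    unfold el
    fun_prop
  · refine continuous_finsetProd _ fun i _ => Continuous.pow ?_ _
    have h1 : (fun u : Fin r → ℝ => Sy B D₀ (a i * Real.exp (dt (b i) u))) = fun u =>
        Real.exp (dt (b i) u) * ((a i / B) / gE (Real.log (a i / D₀) + dt (b i) u)) := by
      funext u
      have h2 := Sy_exp (a := a i) (b := 1) (B := B) (ha i) hD (dt (b i) u)
      rw [one_mul] at h2
      exact h2
    rw [h1]
    refine (Real.continuous_exp.comp (hdt _)).mul ?_
    refine continuous_const.div ?_ fun u => (gE_pos _).ne'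
    exact hgE.comp (continuous_const.add (hdt _))

/-- monotonicity and growth of the monomials -/
theorem HH_cell {a : Fin k → ℝ} {b : Fin k → Fin r → ℝ} {B D₀ β : ℝ} (ha : ∀ i, 0 < a i)
    (hb : ∀ i l, 0 ≤ b i l ∧ b i l ≤ β) (hβ : 0 ≤ β) (hB : 0 < B)
    (hD : 0 < D₀) (α : Iy r k D) {u v : Fin r → ℝ} {ε : ℝ} (hε : 0 ≤ ε)
    (huv : ∀ l, u l ≤ v l ∧ v l ≤ u l + ε) :
    HH a b B D₀ α u ≤ HH a b B D₀ α v ∧
      HH a b B D₀ α v ≤ Real.exp ((r * D + k * (D * (r * β))) * ε) * HH a b B D₀ α u := by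
  have hel1 : el α u ≤ el α v := by
    unfold el
    exact Finset.sum_le_sum fun l _ => mul_le_mul_of_nonneg_left (huv l).1 (Nat.cast_nonneg _)
  have hel2 : el α v ≤ el α u + r * D * ε := by
    unfold el
    have h1 : ∑ l, ((α (.inl l) : ℕ) : ℝ) * v l ≤ ∑ l : Fin r, (((α (.inl l) : ℕ) : ℝ) * u l + D * ε) := by
      refine Finset.sum_le_sum fun l _ => ?_
      have h2 : ((α (.inl l) : ℕ) : ℝ) ≤ D := by exact_mod_cast Nat.le_of_lt_succ (α (.inl l)).2
      have h3 : ((α (.inl l) : ℕ) : ℝ) * v l ≤ ((α (.inl l) : ℕ) : ℝ) * (u l + ε) :=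
        mul_le_mul_of_nonneg_left (huv l).2 (Nat.cast_nonneg _)
      have h4 : ((α (.inl l) : ℕ) : ℝ) * ε ≤ D * ε := mul_le_mul_of_nonneg_right h2 hε
      linarith
    refine h1.trans (le_of_eq ?_)
    rw [Finset.sum_add_distrib, Finset.sum_const, Finset.card_univ, Fintype.card_fin, nsmul_eq_mul]
    ring
  have hd1 : ∀ i, dt (b i) u ≤ dt (b i) v := fun i =>
    Finset.sum_le_sum fun l _ => mul_le_mul_of_nonneg_left (huv l).1 (hb i l).1
  have hd2 : ∀ i, dt (b i) v ≤ dt (b i) u + r * β * ε := by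
    intro i
    unfold dt
    have h1 : ∑ l, b i l * v l ≤ ∑ l : Fin r, (b i l * u l + β * ε) := by
      refine Finset.sum_le_sum fun l _ => ?_
      have h3 : b i l * v l ≤ b i l * (u l + ε) :=
        mul_le_mul_of_nonneg_left (huv l).2 (hb i l).1
      have h4 : b i l * ε ≤ β * ε := mul_le_mul_of_nonneg_right (hb i l).2 hε
      linarith
    refine h1.trans (le_of_eq ?_)
    rw [Finset.sum_add_distrib, Finset.sum_const, Finset.card_univ, Fintype.card_fin, nsmul_eq_mul]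
    ring
  have hy : ∀ i, 0 < a i * Real.exp (dt (b i) u) := fun i => mul_pos (ha i) (Real.exp_pos _)
  have hyz : ∀ i, a i * Real.exp (dt (b i) u) ≤ a i * Real.exp (dt (b i) v) := fun i =>
    mul_le_mul_of_nonneg_left (Real.exp_le_exp.2 (hd1 i)) (ha i).le
  have hS1 : ∀ i, Sy B D₀ (a i * Real.exp (dt (b i) u)) ≤ Sy B D₀ (a i * Real.exp (dt (b i) v)) := fun i =>
    Sy_mono hB hD (hy i) (hyz i)
  have hS2 : ∀ i, Sy B D₀ (a i * Real.exp (dt (b i) v)) ≤
      Real.exp (r * β * ε) * Sy B D₀ (a i * Real.exp (dt (b i) u)) := by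
    intro i
    refine (Sy_le hB hD (hy i) (hyz i)).trans ?_
    refine mul_le_mul_of_nonneg_right ?_ (Sy_pos hB hD (hy i)).le
    rw [div_le_iff₀ (hy i)]
    calc a i * Real.exp (dt (b i) v) ≤ a i * Real.exp (dt (b i) u + r * β * ε) :=
          mul_le_mul_of_nonneg_left (Real.exp_le_exp.2 (hd2 i)) (ha i).le
      _ = _ := by rw [Real.exp_add]; ring
  constructor
  · unfold HH
    refine mul_le_mul (Real.exp_le_exp.2 hel1) ?_ ?_ (Real.exp_pos _).le
    · exact Finset.prod_le_prod (fun i _ => pow_nonneg (Sy_pos hB hD (hy i)).le _)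
        fun i _ => pow_le_pow_left₀ (Sy_pos hB hD (hy i)).le (hS1 i) _
    · exact Finset.prod_nonneg fun i _ => pow_nonneg (Sy_pos hB hD (hy i)).le _
  · unfold HH
    have h1 : ∏ i, Sy B D₀ (a i * Real.exp (dt (b i) v)) ^ (α (.inr i) : ℕ) ≤
        Real.exp (k * (D * (r * β)) * ε) * ∏ i, Sy B D₀ (a i * Real.exp (dt (b i) u)) ^ (α (.inr i) : ℕ) := by
      have h2 : ∏ i, Sy B D₀ (a i * Real.exp (dt (b i) v)) ^ (α (.inr i) : ℕ) ≤
          ∏ i : Fin k, (Real.exp (D * (r * β) * ε) * Sy B D₀ (a i * Real.exp (dt (b i) u)) ^ (α (.inr i) : ℕ)) := by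
        refine Finset.prod_le_prod (fun i _ => pow_nonneg ((Sy_pos hB hD (hy i)).le.trans (hS1 i)) _)
          fun i _ => ?_
        refine (pow_le_pow_left₀ ((Sy_pos hB hD (hy i)).le.trans (hS1 i)) (hS2 i) _).trans ?_
        rw [mul_pow]
        refine mul_le_mul_of_nonneg_right ?_ (pow_nonneg (Sy_pos hB hD (hy i)).le _)
        rw [← Real.exp_nat_mul]
        refine Real.exp_le_exp.2 ?_
        have h3 : ((α (.inr i) : ℕ) : ℝ) ≤ D := by exact_mod_cast Nat.le_of_lt_succ (α (.inr i)).2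
        have h4 : 0 ≤ r * β * ε := by positivity
        calc ((α (.inr i) : ℕ) : ℝ) * (r * β * ε) ≤ D * (r * β * ε) := mul_le_mul_of_nonneg_right h3 h4
          _ = _ := by ring
      refine h2.trans (le_of_eq ?_)
      rw [Finset.prod_mul_distrib, Finset.prod_const, Finset.card_univ, Fintype.card_fin,
        ← Real.exp_nat_mul]
      congr 2
      ring
    calc Real.exp (el α v) * ∏ i, Sy B D₀ (a i * Real.exp (dt (b i) v)) ^ (α (.inr i) : ℕ)
        ≤ Real.exp (el α u + r * D * ε) * (Real.exp (k * (D * (r * β)) * ε) *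
            ∏ i, Sy B D₀ (a i * Real.exp (dt (b i) u)) ^ (α (.inr i) : ℕ)) := by
          refine mul_le_mul (Real.exp_le_exp.2 hel2) h1 ?_ (Real.exp_pos _).le
          exact Finset.prod_nonneg fun i _ => pow_nonneg ((Sy_pos hB hD (hy i)).le.trans (hS1 i)) _
      _ = _ := by
          rw [Real.exp_add, add_mul, Real.exp_add]
          ring

end Pool.Agent.Lib.MP_ec260d_ntG
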