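import Mathlib
import Pool.Agent.Lib.MP_ec260d_ntH.Cov

/-!
# Averaging over a direction
-/

open Set Filter Topology MeasureTheory
open scoped ENNReal

namespace Pool.Agent.Lib.MP_ec260d_ntG

open Pool.Agent.Lib.MP_ec260d_ntH

theorem ton {r : ℕ} {E Box Box' Z : Set (Fin r → ℝ)} (hE : MeasurableSet E)
    (hBox' : MeasurableSet Box') (hZ : MeasurableSet Z) (ω : Fin r → ℝ)
    (hsub : ∀ u ∈ Box, ∀ t ∈ Icc (0 : ℝ) 1, u - t • ω ∈ Box') (ε : ℝ≥0∞)
    (h : ∀ v ∈ Box', v ∉ Z → volume {t : ℝ | t ∈ Icc (0 : ℝ) 1 ∧ v + t • ω ∈ E} ≤ ε) :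
    volume (E ∩ Box) ≤ ε * volume Box' + volume (Z ∩ Box') := by
  set S : Set (ℝ × (Fin r → ℝ)) := {x | x.1 ∈ Icc (0 : ℝ) 1 ∧ x.2 ∈ Box' ∧ x.2 + x.1 • ω ∈ E} with hS
  have hSm : MeasurableSet S := by
    have h1 : MeasurableSet {x : ℝ × (Fin r → ℝ) | x.1 ∈ Icc (0 : ℝ) 1} := measurable_fst measurableSet_Icc
    have h2 : MeasurableSet {x : ℝ × (Fin r → ℝ) | x.2 ∈ Box'} := measurable_snd hBox'
    have h3 : MeasurableSet {x : ℝ × (Fin r → ℝ) | x.2 + x.1 • ω ∈ E} := by
      have hc : Continuous fun x : ℝ × (Fin r → ℝ) => x.2 + x.1 • ω := by fun_prop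
      exact hc.measurable hE
    exact h1.inter (h2.inter h3)
  have hlow : volume (E ∩ Box) ≤ (volume.prod volume) S := by
    rw [Measure.prod_apply hSm]
    have h1 : volume (E ∩ Box) = ∫⁻ _t in Icc (0 : ℝ) 1, volume (E ∩ Box) := by
      rw [setLIntegral_const, Real.volume_Icc]
      simp
    rw [h1]
    calc ∫⁻ _t in Icc (0 : ℝ) 1, volume (E ∩ Box) ≤
          ∫⁻ t in Icc (0 : ℝ) 1, volume (Prod.mk t ⁻¹' S) := by
          refine setLIntegral_mono' measurableSet_Icc fun t ht => ?_
          have h2 : volume (E ∩ Box) = volume ((fun v => v + t • ω) ⁻¹' (E ∩ Box)) :=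
            (measure_preimage_add_right volume (t • ω) (E ∩ Box)).symm
          rw [h2]
          refine measure_mono fun v hv => ?_
          refine ⟨ht, ?_, hv.1⟩
          have h3 := hsub _ hv.2 t ht
          simpa using h3
      _ ≤ ∫⁻ t, volume (Prod.mk t ⁻¹' S) := setLIntegral_le_lintegral _ _
  have hup : (volume.prod volume) S ≤ ε * volume Box' + volume (Z ∩ Box') := by
    rw [Measure.prod_apply_symm hSm]
    calc ∫⁻ v, volume ((fun t : ℝ => (t, v)) ⁻¹' S) ≤
          ∫⁻ v, (Box'.indicator (fun _ => ε) v + (Z ∩ Box').indicator (fun _ => 1) v) := by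
          refine lintegral_mono fun v => ?_
          by_cases hv : v ∈ Box'
          · rw [Set.indicator_of_mem hv]
            by_cases hvZ : v ∈ Z
            · rw [Set.indicator_of_mem (show v ∈ Z ∩ Box' from ⟨hvZ, hv⟩)]
              refine le_trans ?_ (le_add_left le_rfl)
              calc volume ((fun t : ℝ => (t, v)) ⁻¹' S) ≤ volume (Icc (0 : ℝ) 1) :=
                    measure_mono fun t ht => ht.1
                _ = 1 := by rw [Real.volume_Icc]; simp
            · refine le_trans ?_ (le_add_right le_rfl)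
              refine le_trans (measure_mono fun t ht => ?_) (h v hv hvZ)
              exact ⟨ht.1, ht.2.2⟩
          · have h1 : (fun t : ℝ => (t, v)) ⁻¹' S = ∅ := by
              rw [Set.eq_empty_iff_forall_notMem]
              intro t ht
              exact hv ht.2.1
            rw [h1, measure_empty]
            exact zero_le
      _ = (∫⁻ v, Box'.indicator (fun _ => ε) v) + (∫⁻ v, (Z ∩ Box').indicator (fun _ => 1) v) :=
          lintegral_add_left (measurable_const.indicator hBox') _
      _ = _ := by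
          rw [lintegral_indicator hBox', lintegral_indicator (hZ.inter hBox'), setLIntegral_const,
            setLIntegral_const, one_mul]
  exact hlow.trans hup

/-- the measure of a set covered by few short intervals -/
theorem cov_measure {m : ℕ} {l : ℝ} {E : Set ℝ} (h : Cov m l E) :
    volume E ≤ ENNReal.ofReal (m * l) := by
  obtain ⟨p, hp⟩ := h
  have h1 : E ⊆ ⋃ i, Icc (p i) (p i + l) := by
    intro u hu
    obtain ⟨i, h1, h2⟩ := hp u hu
    exact mem_iUnion.2 ⟨i, h1, h2⟩
  calc volume E ≤ volume (⋃ i, Icc (p i) (p i + l)) := measure_mono h1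
    _ ≤ ∑' i, volume (Icc (p i) (p i + l)) := measure_iUnion_le _
    _ = ∑ i : Fin m, ENNReal.ofReal l := by
        rw [tsum_fintype]
        refine Finset.sum_congr rfl fun i _ => ?_
        rw [Real.volume_Icc, add_sub_cancel_left]
    _ = ENNReal.ofReal (m * l) := by
        rw [Finset.sum_const, Finset.card_univ, Fintype.card_fin, nsmul_eq_mul,
          ENNReal.ofReal_mul (Nat.cast_nonneg _), ENNReal.ofReal_natCast]

/-- the box -/
def bx (r : ℕ) (p q : ℝ) : Set (Fin r → ℝ) := Set.pi univ fun _ => Icc p q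

theorem bx_meas (r : ℕ) (p q : ℝ) : MeasurableSet (bx r p q) :=
  MeasurableSet.univ_pi fun _ => measurableSet_Icc

theorem bx_vol (r : ℕ) {p q : ℝ} (h : p ≤ q) : volume (bx r p q) = ENNReal.ofReal ((q - p) ^ r) := by
  unfold bx
  rw [volume_pi_pi]
  simp only [Real.volume_Icc]
  rw [Finset.prod_const, Finset.card_univ, Fintype.card_fin, ENNReal.ofReal_pow (by linarith)]

end Pool.Agent.Lib.MP_ec260d_ntG
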