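import Mathlib
import Pool.Agent.Lib.MP_ec260d_ntG.Ton

/-!
# The measure of a slab, and counting integer points by cells
-/

open Set Filter Topology MeasureTheory
open scoped ENNReal

namespace Pool.Agent.Lib.MP_ec260d_ntG

open Pool.Agent.Lib.MP_ec260d_ntH

theorem slab (r : ℕ) (lam : ℝ) (d : Fin r → ℝ) {ε₁ ε₂ p q : ℝ} (hε₁ : 0 < ε₁) (hε₂ : 0 < ε₂)
    (hd : ε₂ ≤ ∑ l, |d l|) (hpq : p ≤ q) :
    volume ({v : Fin r → ℝ | |lam + ∑ l, d l * v l| < ε₁} ∩ bx r p q) ≤
      ENNReal.ofReal (2 * ε₁ * (r / ε₂) * (q - p + 1) ^ r) := by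
  classical
  have hr : 0 < r := by
    rcases Nat.eq_zero_or_pos r with h | h
    · subst h
      simp at hd
      linarith
    · exact h
  have hr0 : (0 : ℝ) < r := by exact_mod_cast hr
  obtain ⟨l, hl⟩ : ∃ l, ε₂ / r ≤ |d l| := by
    by_contra hcon
    push Not at hcon
    have : Nonempty (Fin r) := ⟨⟨0, hr⟩⟩
    have h1 : ∑ l, |d l| < ∑ _l : Fin r, ε₂ / r :=
      Finset.sum_lt_sum_of_nonempty Finset.univ_nonempty fun l _ => hcon l
    rw [Finset.sum_const, Finset.card_univ, Fintype.card_fin, nsmul_eq_mul] at h1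
    have h2 : (r : ℝ) * (ε₂ / r) = ε₂ := by field_simp
    linarith
  have hdl : 0 < |d l| := lt_of_lt_of_le (by positivity) hl
  set E : Set (Fin r → ℝ) := {v | |lam + ∑ l, d l * v l| < ε₁} with hE
  have hEm : MeasurableSet E := by
    have hc : Continuous fun v : Fin r → ℝ => |lam + ∑ l, d l * v l| := by fun_prop
    exact (isOpen_lt hc continuous_const).measurableSet
  have h1 := ton (Box := bx r p q) (Box' := bx r (p - 1) q) (Z := ∅) hEm (bx_meas r (p - 1) q)
    MeasurableSet.empty (Pi.single l 1) (by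
      intro u hu t ht m _
      have h2 := hu m (mem_univ m)
      have h3 : (u - t • (Pi.single l 1 : Fin r → ℝ)) m = u m - t * (Pi.single l (1 : ℝ) : Fin r → ℝ) m := by
        simp
      have h4 : 0 ≤ (Pi.single l (1 : ℝ) : Fin r → ℝ) m ∧ (Pi.single l (1 : ℝ) : Fin r → ℝ) m ≤ 1 := by
        by_cases hm : m = l
        · subst hm; simp
        · rw [Pi.single_eq_of_ne hm]; simp
      have h5 : 0 ≤ t * (Pi.single l (1 : ℝ) : Fin r → ℝ) m := mul_nonneg ht.1 h4.1
      have h6 : t * (Pi.single l (1 : ℝ) : Fin r → ℝ) m ≤ 1 := mul_le_one₀ ht.2 h4.1 h4.2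
      show p - 1 ≤ (u - t • (Pi.single l 1 : Fin r → ℝ)) m ∧ (u - t • (Pi.single l 1 : Fin r → ℝ)) m ≤ q
      rw [h3]
      constructor
      · linarith [h2.1]
      · linarith [h2.2]) (ENNReal.ofReal (2 * ε₁ * (r / ε₂))) (by
      intro v _ _
      set c₀ := lam + ∑ m, d m * v m with hc₀
      have hval : ∀ t : ℝ, lam + ∑ m, d m * (v + t • (Pi.single l 1 : Fin r → ℝ)) m = c₀ + t * d l := by
        intro t
        have h2 : ∑ m, d m * (v + t • (Pi.single l 1 : Fin r → ℝ)) m =
            ∑ m, d m * v m + ∑ m, t * (d m * (Pi.single l (1 : ℝ) : Fin r → ℝ) m) := by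
          rw [← Finset.sum_add_distrib]
          refine Finset.sum_congr rfl fun m _ => ?_
          simp
          ring
        have h3 : ∑ m, t * (d m * (Pi.single l (1 : ℝ) : Fin r → ℝ) m) = t * d l := by
          rw [Finset.sum_eq_single l]
          · simp
          · intro m _ hm
            rw [Pi.single_eq_of_ne hm]; ring
          · simp
        rw [h2, h3, hc₀]
        ring
      have hcov : Cov 1 (2 * ε₁ / |d l|) {t : ℝ | t ∈ Icc (0 : ℝ) 1 ∧
          v + t • (Pi.single l 1 : Fin r → ℝ) ∈ E} := by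
        refine Cov.single (a := -c₀ / d l - ε₁ / |d l|) ?_
        rintro t ⟨_, ht⟩
        have ht' : |lam + ∑ m, d m * (v + t • (Pi.single l 1 : Fin r → ℝ)) m| < ε₁ := ht
        rw [hval] at ht'
        have hd0 : d l ≠ 0 := by
          intro h0; rw [h0, abs_zero] at hdl; exact lt_irrefl _ hdl
        have h2 : |t - -c₀ / d l| < ε₁ / |d l| := by
          rw [lt_div_iff₀ hdl, ← abs_mul]
          have h3 : (t - -c₀ / d l) * d l = c₀ + t * d l := by field_simp; ring
          rw [h3]; exact ht'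
        rw [abs_lt] at h2
        have h4 : 2 * ε₁ / |d l| = ε₁ / |d l| + ε₁ / |d l| := by ring
        constructor
        · linarith [h2.1]
        · linarith [h2.2]
      refine (cov_measure hcov).trans (ENNReal.ofReal_le_ofReal ?_)
      rw [Nat.cast_one, one_mul, div_le_iff₀ hdl]
      calc 2 * ε₁ = 2 * ε₁ * (r / ε₂) * (ε₂ / r) := by field_simp
        _ ≤ 2 * ε₁ * (r / ε₂) * |d l| := mul_le_mul_of_nonneg_left hl (by positivity))
  rw [Set.empty_inter, measure_empty, add_zero, bx_vol r (by linarith)] at h1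
  refine h1.trans (le_of_eq ?_)
  rw [← ENNReal.ofReal_mul (by positivity)]
  congr 2
  ring

theorem cells (r : ℕ) (F : Finset (Fin r → ℕ)) (N : ℕ) (hF : ∀ n ∈ F, ∀ l, 1 ≤ n l ∧ n l ≤ N)
    (E : Set (Fin r → ℝ)) (hcell : ∀ n ∈ F, ∀ u : Fin r → ℝ,
      (∀ l, Real.log (n l) ≤ u l ∧ u l < Real.log (n l + 1)) → u ∈ E) :
    (F.card : ℝ≥0∞) * ENNReal.ofReal ((1 / (2 * (N : ℝ))) ^ r) ≤ volume E := by
  classical
  set Q : (Fin r → ℕ) → Set (Fin r → ℝ) := fun n =>
    Set.pi univ fun l => Ico (Real.log (n l)) (Real.log (n l + 1)) with hQ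
  have hQm : ∀ n, MeasurableSet (Q n) := fun n => MeasurableSet.univ_pi fun _ => measurableSet_Ico
  have hmem : ∀ n u, u ∈ Q n ↔ ∀ l, Real.log (n l) ≤ u l ∧ u l < Real.log (n l + 1) := by
    intro n u
    rw [hQ]
    simp [Set.mem_pi]
  have hdisj : (F : Set (Fin r → ℕ)).PairwiseDisjoint Q := by
    intro n hn m hm hnm
    rw [Function.onFun, Set.disjoint_left]
    intro u hu1 hu2
    apply hnm
    funext l
    have h1 := (hmem n u).1 hu1 l
    have h2 := (hmem m u).1 hu2 l
    have hn1 : (0 : ℝ) < n l := by exact_mod_cast (hF n hn l).1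
    have hm1 : (0 : ℝ) < m l := by exact_mod_cast (hF m hm l).1
    have h3 : Real.log (n l) < Real.log (m l + 1) := lt_of_le_of_lt h1.1 h2.2
    have h4 : Real.log (m l) < Real.log (n l + 1) := lt_of_le_of_lt h2.1 h1.2
    have h5 : (n l : ℝ) < m l + 1 := (Real.log_lt_log_iff hn1 (by linarith)).1 h3
    have h6 : (m l : ℝ) < n l + 1 := (Real.log_lt_log_iff hm1 (by linarith)).1 h4
    have h7 : n l < m l + 1 := by exact_mod_cast h5
    have h8 : m l < n l + 1 := by exact_mod_cast h6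
    omega
  have hvol : ∀ n ∈ F, ENNReal.ofReal ((1 / (2 * (N : ℝ))) ^ r) ≤ volume (Q n) := by
    intro n hn
    rw [hQ]
    simp only
    rw [Real.volume_pi_Ico]
    have h1 : ENNReal.ofReal ((1 / (2 * (N : ℝ))) ^ r) = ∏ _l : Fin r, ENNReal.ofReal (1 / (2 * (N : ℝ))) := by
      rw [Finset.prod_const, Finset.card_univ, Fintype.card_fin, ENNReal.ofReal_pow (by positivity)]
    rw [h1]
    refine Finset.prod_le_prod' fun l _ => ENNReal.ofReal_le_ofReal ?_
    obtain ⟨h2, h3⟩ := hF n hn l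
    have hn1 : (1 : ℝ) ≤ n l := by exact_mod_cast h2
    have hn2 : (n l : ℝ) ≤ N := by exact_mod_cast h3
    have hn0 : (0 : ℝ) < n l := by linarith
    have h4 := Real.one_sub_inv_le_log_of_pos (show (0 : ℝ) < (n l + 1) / n l by positivity)
    rw [Real.log_div (by positivity) hn0.ne', inv_div] at h4
    have h5 : 1 - (n l : ℝ) / (n l + 1) = 1 / (n l + 1) := by
      have : (n l : ℝ) + 1 ≠ 0 := by positivity
      field_simp
      ring
    rw [h5] at h4
    refine le_trans ?_ h4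
    exact one_div_le_one_div_of_le (by positivity) (by linarith)
  calc (F.card : ℝ≥0∞) * ENNReal.ofReal ((1 / (2 * (N : ℝ))) ^ r) =
        ∑ _n ∈ F, ENNReal.ofReal ((1 / (2 * (N : ℝ))) ^ r) := by
        rw [Finset.sum_const, nsmul_eq_mul]
    _ ≤ ∑ n ∈ F, volume (Q n) := Finset.sum_le_sum hvol
    _ = volume (⋃ n ∈ F, Q n) := (measure_biUnion_finset hdisj fun n _ => hQm n).symm
    _ ≤ volume E := by
        refine measure_mono fun u hu => ?_
        rw [mem_iUnion₂] at hu
        obtain ⟨n, hn, hun⟩ := hu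
        exact hcell n hn u ((hmem n u).1 hun)

end Pool.Agent.Lib.MP_ec260d_ntG
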