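import Mathlib
import Pool.Agent.Lib.MP_ec260d_ntG.Line
import Pool.Agent.Lib.MP_ec260d_ntG.Slab

/-!
# The volume of the bad set in logarithmic coordinates
-/

open Set Filter Topology MeasureTheory
open scoped ENNReal

namespace Pool.Agent.Lib.MP_ec260d_ntG

open Pool.Agent.Lib.MP_ec260d_nt Pool.Agent.Lib.MP_ec260d_ntH

theorem lineCov (r k D : ℕ) (β : ℝ) (hβ : 1 ≤ β) : ∃ (K J : ℕ) (C : ℝ), 1 ≤ C ∧
    ∀ (a : Fin k → ℝ) (b : Fin k → Fin r → ℝ) (B D₀ : ℝ), (∀ i, 0 < a i) →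
      (∀ i l, 0 ≤ b i l ∧ b i l ≤ β) → (∀ i, ∃ l, β⁻¹ ≤ b i l) → 0 < B → 0 < D₀ →
      ∀ (f : Fin k → Fin k → Bool) (ρ : ℝ) (v : Fin r → ℝ), 0 < ρ →
        (∀ t ∈ Icc (0 : ℝ) 1, ρ ≤
          |rr (fun i => a i * Real.exp (dt (b i) v)) (fun i => dt (b i) (om r D)) D₀ f t|) →
        ∀ (np : ℕ), 0 < np → C ≤ np * ρ ^ K → ∀ (cc : Iy r k D → ℂ) (η l : ℝ), 0 < η → 0 < l → l ≤ 1 →
          C * η ≤ ρ ^ K * l ^ J → Cov (np * 2 ^ J) l {t | t ∈ Icc (0 : ℝ) 1 ∧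
            ‖∑ α, cc α * ((HH a b B D₀ α (v + t • om r D) : ℝ) : ℂ)‖ <
              η * ∑ α, ‖cc α‖ * HH a b B D₀ α (v + t • om r D)} := by
  have hβ0 : 0 < β := by linarith
  obtain ⟨M₀, hM₀, hM₁⟩ : ∃ M₀ : ℕ, (∀ α : Iy r k D, A₀ α ≤ M₀) ∧ ∀ (α : Iy r k D) i, A₁ α i ≤ M₀ := by
    refine ⟨∑ α : Iy r k D, A₀ α + D, fun α => ?_, fun α i => ?_⟩
    · have := Finset.single_le_sum (f := fun α : Iy r k D => A₀ α) (fun _ _ => Nat.zero_le _)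
        (Finset.mem_univ α)
      omega
    · have : A₁ α i ≤ D := Nat.le_of_lt_succ (α (.inr i)).2
      omega
  obtain ⟨K, J, C, hC, hblock⟩ := block (ι := Fin k) (A := Iy r k D) A_inj hM₀ hM₁
    (r * (β * ((D : ℝ) + 1) ^ r)) (by positivity)
  refine ⟨K, J, C, hC, ?_⟩
  intro a b B D₀ ha hb hb' hB hD f ρ v hρ hrr np hnp hCnp cc η l hη hl hl1 hηl
  have hb1 : ∀ i, 0 < dt (b i) (om r D) := by
    intro i
    obtain ⟨l, hl⟩ := hb' i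
    have h1 : b i l * om r D l ≤ dt (b i) (om r D) :=
      Finset.single_le_sum (f := fun l => b i l * om r D l)
        (fun l _ => mul_nonneg (hb i l).1 (by linarith [om_ge (D := D) l])) (Finset.mem_univ l)
    have h2 : 0 < b i l := (inv_pos.2 hβ0).trans_le hl
    have h3 : 0 < b i l * om r D l := mul_pos h2 (by linarith [om_ge (D := D) l])
    linarith
  have hb2 : ∀ i, dt (b i) (om r D) ≤ r * (β * ((D : ℝ) + 1) ^ r) := by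
    intro i
    calc dt (b i) (om r D) ≤ ∑ _l : Fin r, β * ((D : ℝ) + 1) ^ r := by
          refine Finset.sum_le_sum fun l _ => ?_
          exact mul_le_mul (hb i l).2 (om_le l) (by linarith [om_ge (D := D) l]) hβ0.le
      _ = _ := by rw [Finset.sum_const, Finset.card_univ, Fintype.card_fin, nsmul_eq_mul]
  have h1 := hblock (fun i => a i * Real.exp (dt (b i) v)) (fun i => dt (b i) (om r D)) B D₀
    (fun i => mul_pos (ha i) (Real.exp_pos _)) hb1 hb2 hB hD f ρ 0 hρ (by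
      intro t ht
      rw [zero_add] at ht
      exact hrr t ht) np hnp hCnp (fun α => cc α * ((Real.exp (el α v) : ℝ) : ℂ)) η l hη hl hl1 hηl
  refine h1.mono le_rfl le_rfl ?_
  rintro t ⟨ht, hlt⟩
  refine ⟨by rw [zero_add]; exact ht, ?_⟩
  have e1 : ∀ α : Iy r k D, cc α * ((Real.exp (el α v) : ℝ) : ℂ) *
      ((hg A₀ A₁ (fun i => a i * Real.exp (dt (b i) v)) (fun i => dt (b i) (om r D)) B D₀ α t : ℝ) : ℂ) =
      cc α * ((HH a b B D₀ α (v + t • om r D) : ℝ) : ℂ) := by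
    intro α
    rw [HH_line]
    push_cast
    ring
  have e2 : ∀ α : Iy r k D, ‖cc α * ((Real.exp (el α v) : ℝ) : ℂ)‖ *
      hg A₀ A₁ (fun i => a i * Real.exp (dt (b i) v)) (fun i => dt (b i) (om r D)) B D₀ α t =
      ‖cc α‖ * HH a b B D₀ α (v + t • om r D) := by
    intro α
    rw [HH_line, norm_mul, Complex.norm_real, Real.norm_eq_abs, abs_of_pos (Real.exp_pos _)]
    ring
  simp only [e1, e2]
  exact hlt

theorem volE {r : ℕ} {κ : Type} (I : Finset κ) (E : κ → Set (Fin r → ℝ))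
    (hE : ∀ i ∈ I, MeasurableSet (E i)) {Box Box' Z : Set (Fin r → ℝ)}
    (hBox' : MeasurableSet Box') (hZ : MeasurableSet Z) (ω : Fin r → ℝ)
    (hsub : ∀ u ∈ Box, ∀ t ∈ Icc (0 : ℝ) 1, u - t • ω ∈ Box') {m : ℕ} {l : ℝ}
    (h : ∀ i ∈ I, ∀ v ∈ Box', v ∉ Z → Cov m l {t : ℝ | t ∈ Icc (0 : ℝ) 1 ∧ v + t • ω ∈ E i}) :
    volume ((⋃ i ∈ I, E i) ∩ Box) ≤
      ((I.card : ℝ≥0∞) * ENNReal.ofReal (m * l)) * volume Box' + volume (Z ∩ Box') := by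
  refine ton (Finset.measurableSet_biUnion I hE) hBox' hZ ω hsub _ fun v hv hvZ => ?_
  have h1 : {t : ℝ | t ∈ Icc (0 : ℝ) 1 ∧ v + t • ω ∈ ⋃ i ∈ I, E i} ⊆
      ⋃ i ∈ I, {t : ℝ | t ∈ Icc (0 : ℝ) 1 ∧ v + t • ω ∈ E i} := by
    rintro t ⟨ht, htE⟩
    rw [mem_iUnion₂] at htE ⊢
    obtain ⟨i, hi, hti⟩ := htE
    exact ⟨i, hi, ht, hti⟩
  calc volume {t : ℝ | t ∈ Icc (0 : ℝ) 1 ∧ v + t • ω ∈ ⋃ i ∈ I, E i} ≤
        volume (⋃ i ∈ I, {t : ℝ | t ∈ Icc (0 : ℝ) 1 ∧ v + t • ω ∈ E i}) := measure_mono h1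
    _ ≤ ∑ i ∈ I, volume {t : ℝ | t ∈ Icc (0 : ℝ) 1 ∧ v + t • ω ∈ E i} := measure_biUnion_finset_le I _
    _ ≤ ∑ _i ∈ I, ENNReal.ofReal (m * l) :=
        Finset.sum_le_sum fun i hi => cov_measure (h i hi v hv hvZ)
    _ = _ := by rw [Finset.sum_const, nsmul_eq_mul]

/-- union of slabs -/
theorem volZ {r : ℕ} (S : Finset (ℝ × (Fin r → ℝ))) {ε₁ ε₂ p q : ℝ} (hε₁ : 0 < ε₁) (hε₂ : 0 < ε₂)
    (hpq : p ≤ q) :
    volume ({v : Fin r → ℝ | ∃ x ∈ S, ∃ y ∈ S, ε₂ ≤ ∑ l, |x.2 l - y.2 l| ∧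
      |Real.log x.1 - Real.log y.1 + dt (fun l => x.2 l - y.2 l) v| < ε₁} ∩ bx r p q) ≤
      ENNReal.ofReal ((S.card : ℝ) ^ 2 * (2 * ε₁ * (r / ε₂) * (q - p + 1) ^ r)) := by
  classical
  have h1 : ({v : Fin r → ℝ | ∃ x ∈ S, ∃ y ∈ S, ε₂ ≤ ∑ l, |x.2 l - y.2 l| ∧
      |Real.log x.1 - Real.log y.1 + dt (fun l => x.2 l - y.2 l) v| < ε₁} ∩ bx r p q) ⊆
      ⋃ z ∈ (S ×ˢ S).filter (fun z => ε₂ ≤ ∑ l, |z.1.2 l - z.2.2 l|),
        ({v : Fin r → ℝ | |(Real.log z.1.1 - Real.log z.2.1) + ∑ l, (z.1.2 l - z.2.2 l) * v l| < ε₁} ∩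
          bx r p q) := by
    rintro v ⟨⟨x, hx, y, hy, h2, h3⟩, hv⟩
    rw [mem_iUnion₂]
    exact ⟨(x, y), Finset.mem_filter.2 ⟨Finset.mem_product.2 ⟨hx, hy⟩, h2⟩, h3, hv⟩
  refine (measure_mono h1).trans ((measure_biUnion_finset_le _ _).trans ?_)
  have h2 : ∀ z ∈ (S ×ˢ S).filter (fun z => ε₂ ≤ ∑ l, |z.1.2 l - z.2.2 l|),
      volume ({v : Fin r → ℝ | |(Real.log z.1.1 - Real.log z.2.1) + ∑ l, (z.1.2 l - z.2.2 l) * v l| < ε₁} ∩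
          bx r p q) ≤ ENNReal.ofReal (2 * ε₁ * (r / ε₂) * (q - p + 1) ^ r) := by
    intro z hz
    exact slab r _ (fun l => z.1.2 l - z.2.2 l) hε₁ hε₂ (Finset.mem_filter.1 hz).2 hpq
  refine (Finset.sum_le_sum h2).trans ?_
  rw [Finset.sum_const, nsmul_eq_mul, ENNReal.ofReal_mul (p := (S.card : ℝ) ^ 2) (by positivity)]
  have h3 : ((S ×ˢ S).filter (fun z => ε₂ ≤ ∑ l, |z.1.2 l - z.2.2 l|)).card ≤ S.card ^ 2 := by
    refine (Finset.card_filter_le _ _).trans ?_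
    rw [Finset.card_product, pow_two]
  have h4 : ((((S ×ˢ S).filter (fun z => ε₂ ≤ ∑ l, |z.1.2 l - z.2.2 l|)).card : ℕ) : ℝ≥0∞) ≤
      ENNReal.ofReal ((S.card : ℝ) ^ 2) := by
    rw [← ENNReal.ofReal_natCast]
    refine ENNReal.ofReal_le_ofReal ?_
    exact_mod_cast h3
  exact mul_le_mul' h4 le_rfl

end Pool.Agent.Lib.MP_ec260d_ntG
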