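import Mathlib
import Pool.Agent.Lib.MP_ec260d_ntG.VolG

/-!
# Counting the bad tuples
-/

open Set Filter Topology MeasureTheory
open scoped ENNReal

namespace Pool.Agent.Lib.MP_ec260d_ntG

open Pool.Agent.Lib.MP_ec260d_nt Pool.Agent.Lib.MP_ec260d_ntH

/-- the tuples with a small entry -/
theorem smallG (r N : ℕ) : ∃ E : Finset (Fin r → ℕ),
    (E.card : ℝ) ≤ r * ((N : ℝ) ^ ((1 : ℝ) / 2) * (N : ℝ) ^ (r - 1)) ∧
    ∀ n : Fin r → ℕ, (∀ l, 1 ≤ n l ∧ n l ≤ N) → n ∉ E → ∀ l, (N : ℝ) ^ ((1 : ℝ) / 2) < n l := by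
  classical
  set R : ℕ := ⌊(N : ℝ) ^ ((1 : ℝ) / 2)⌋₊ with hR
  have hR0 : (0 : ℝ) ≤ (N : ℝ) ^ ((1 : ℝ) / 2) := Real.rpow_nonneg (Nat.cast_nonneg _) _
  refine ⟨Finset.univ.biUnion fun l : Fin r =>
    Fintype.piFinset fun m : Fin r => if m = l then Finset.Icc 1 R else Finset.Icc 1 N, ?_, ?_⟩
  · have h1 : ∀ l : Fin r, (((Fintype.piFinset fun m : Fin r =>
        if m = l then Finset.Icc 1 R else Finset.Icc 1 N).card : ℕ) : ℝ) ≤
        (N : ℝ) ^ ((1 : ℝ) / 2) * (N : ℝ) ^ (r - 1) := by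
      intro l
      rw [Fintype.card_piFinset, ← Finset.mul_prod_erase Finset.univ _ (Finset.mem_univ l), if_pos rfl]
      have h2 : ∏ m ∈ Finset.univ.erase l,
          (if m = l then Finset.Icc 1 R else Finset.Icc 1 N).card = N ^ (r - 1) := by
        rw [Finset.prod_congr rfl (g := fun _ => N) (fun m hm => by
          rw [if_neg (Finset.ne_of_mem_erase hm), Nat.card_Icc, Nat.add_sub_cancel])]
        rw [Finset.prod_const, Finset.card_erase_of_mem (Finset.mem_univ l), Finset.card_univ,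
          Fintype.card_fin]
      rw [h2, Nat.card_Icc, Nat.add_sub_cancel]
      push_cast
      exact mul_le_mul_of_nonneg_right (Nat.floor_le hR0) (by positivity)
    calc ((Finset.univ.biUnion fun l : Fin r => Fintype.piFinset fun m : Fin r =>
          if m = l then Finset.Icc 1 R else Finset.Icc 1 N).card : ℝ) ≤
          ∑ l : Fin r, (((Fintype.piFinset fun m : Fin r =>
            if m = l then Finset.Icc 1 R else Finset.Icc 1 N).card : ℕ) : ℝ) := by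
          exact_mod_cast Finset.card_biUnion_le
      _ ≤ ∑ _l : Fin r, (N : ℝ) ^ ((1 : ℝ) / 2) * (N : ℝ) ^ (r - 1) := Finset.sum_le_sum fun l _ => h1 l
      _ = _ := by rw [Finset.sum_const, Finset.card_univ, Fintype.card_fin, nsmul_eq_mul]
  · intro n hn hnE l
    by_contra hcon
    push Not at hcon
    apply hnE
    rw [Finset.mem_biUnion]
    refine ⟨l, Finset.mem_univ l, ?_⟩
    rw [Fintype.mem_piFinset]
    intro m
    by_cases hm : m = l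
    · rw [if_pos hm, Finset.mem_Icc, hm]
      exact ⟨(hn l).1, Nat.le_floor hcon⟩
    · rw [if_neg hm, Finset.mem_Icc]
      exact hn m

theorem cellG {r k D : ℕ} {a : Fin k → ℝ} {b : Fin k → Fin r → ℝ} {B D₀ β : ℝ} (ha : ∀ i, 0 < a i)
    (hb : ∀ i l, 0 ≤ b i l ∧ b i l ≤ β) (hβ : 0 ≤ β) (hB : 0 < B) (hD : 0 < D₀)
    (cc : Iy r k D → ℂ) {η ε : ℝ} (hη : 0 < η) (hε : 0 ≤ ε)
    (hG : Real.exp ((r * D + k * (D * (r * β))) * ε) ≤ 1 + η)
    {u v : Fin r → ℝ} (huv : ∀ l, u l ≤ v l ∧ v l ≤ u l + ε)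
    (h : ‖∑ α, cc α * ((HH a b B D₀ α u : ℝ) : ℂ)‖ < η * ∑ α, ‖cc α‖ * HH a b B D₀ α u) :
    ‖∑ α, cc α * ((HH a b B D₀ α v : ℝ) : ℂ)‖ < 2 * η * ∑ α, ‖cc α‖ * HH a b B D₀ α v := by
  have hcell := fun α : Iy r k D => HH_cell (B := B) (D₀ := D₀) ha hb hβ hB hD α hε huv
  have hpos := fun α : Iy r k D => HH_pos (b := b) (B := B) (D₀ := D₀) ha hB hD α u
  have h1 : ∑ α, cc α * ((HH a b B D₀ α v : ℝ) : ℂ) = ∑ α, cc α * ((HH a b B D₀ α u : ℝ) : ℂ) +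
      ∑ α, cc α * ((HH a b B D₀ α v - HH a b B D₀ α u : ℝ) : ℂ) := by
    rw [← Finset.sum_add_distrib]
    refine Finset.sum_congr rfl fun α _ => ?_
    push_cast
    ring
  have h2 : ‖∑ α, cc α * ((HH a b B D₀ α v - HH a b B D₀ α u : ℝ) : ℂ)‖ ≤
      η * ∑ α, ‖cc α‖ * HH a b B D₀ α u := by
    refine (norm_sum_le _ _).trans ?_
    rw [Finset.mul_sum]
    refine Finset.sum_le_sum fun α _ => ?_
    rw [norm_mul, Complex.norm_real, Real.norm_eq_abs, abs_of_nonneg (by linarith [(hcell α).1])]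
    have h3 : HH a b B D₀ α v - HH a b B D₀ α u ≤ η * HH a b B D₀ α u := by
      have h4 := (hcell α).2
      have h5 := mul_le_mul_of_nonneg_right hG (hpos α).le
      linarith
    calc ‖cc α‖ * (HH a b B D₀ α v - HH a b B D₀ α u) ≤ ‖cc α‖ * (η * HH a b B D₀ α u) :=
          mul_le_mul_of_nonneg_left h3 (norm_nonneg _)
      _ = _ := by ring
  have h3 : ∑ α, ‖cc α‖ * HH a b B D₀ α u ≤ ∑ α, ‖cc α‖ * HH a b B D₀ α v :=
    Finset.sum_le_sum fun α _ => mul_le_mul_of_nonneg_left (hcell α).1 (norm_nonneg _)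
  have h4 := mul_le_mul_of_nonneg_left h3 hη.le
  rw [h1]
  refine lt_of_le_of_lt (norm_add_le _ _) ?_
  linarith

/-- the slabs to be removed -/
def ZS {r : ℕ} (S : Finset (ℝ × (Fin r → ℝ))) (ε₁ ε₂ : ℝ) : Set (Fin r → ℝ) :=
  {v : Fin r → ℝ | ∃ x ∈ S, ∃ y ∈ S, ε₂ ≤ ∑ l, |x.2 l - y.2 l| ∧
      |Real.log x.1 - Real.log y.1 + dt (fun l => x.2 l - y.2 l) v| < ε₁}

theorem ZS_meas {r : ℕ} (S : Finset (ℝ × (Fin r → ℝ))) (ε₁ ε₂ : ℝ) : MeasurableSet (ZS S ε₁ ε₂) := by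
  classical
  have h1 : ZS S ε₁ ε₂ = ⋃ z ∈ (S ×ˢ S).filter (fun z => ε₂ ≤ ∑ l, |z.1.2 l - z.2.2 l|),
      {v : Fin r → ℝ | |Real.log z.1.1 - Real.log z.2.1 + dt (fun l => z.1.2 l - z.2.2 l) v| < ε₁} := by
    ext v
    rw [mem_iUnion₂]
    constructor
    · rintro ⟨x, hx, y, hy, h2, h3⟩
      exact ⟨(x, y), Finset.mem_filter.2 ⟨Finset.mem_product.2 ⟨hx, hy⟩, h2⟩, h3⟩
    · rintro ⟨z, hz, h3⟩
      rw [Finset.mem_filter, Finset.mem_product] at hz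
      exact ⟨z.1, hz.1.1, z.2, hz.1.2, hz.2, h3⟩
  rw [h1]
  refine Finset.measurableSet_biUnion _ fun z _ => ?_
  have hc : Continuous fun v : Fin r → ℝ =>
      |Real.log z.1.1 - Real.log z.2.1 + dt (fun l => z.1.2 l - z.2.2 l) v| := by
    unfold dt
    fun_prop
  exact (isOpen_lt hc continuous_const).measurableSet

theorem countG {r k D : ℕ} {β B D₀ : ℝ} (hβ : 0 ≤ β) (hB : 0 < B) (hD : 0 < D₀) (N : ℕ) (hN : 1 ≤ N)
    (S : Finset (ℝ × (Fin r → ℝ))) (hS : ∀ p ∈ S, 0 < p.1 ∧ ∀ l, 0 ≤ p.2 l ∧ p.2 l ≤ β)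
    (GG : Finset (Fin k → ℝ × (Fin r → ℝ))) (hGG : ∀ g ∈ GG, ∀ i, g i ∈ S)
    (CC : Finset (Iy r k D → ℂ)) (η ε₁ ε₂ l₀ : ℝ) (hη : 0 < η) (hε₁ : 0 < ε₁) (hε₂ : 0 < ε₂)
    (hl₀ : 0 < l₀) (m : ℕ) (hlog : 6 * ((D : ℝ) + 1) ^ r + 6 ≤ Real.log N)
    (hG : Real.exp ((r * D + k * (D * (r * β))) * (N : ℝ) ^ (-((1 : ℝ) / 2))) ≤ 1 + η)
    (hcov : ∀ g ∈ GG, ∀ cc ∈ CC, ∀ v : Fin r → ℝ,
      (∀ l, Real.log N / 3 ≤ v l ∧ v l ≤ Real.log N + 1) → v ∉ ZS S ε₁ ε₂ →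
      Cov m l₀ {t : ℝ | t ∈ Icc (0 : ℝ) 1 ∧
        ‖∑ α, cc α * ((HH (fun i => (g i).1) (fun i => (g i).2) B D₀ α (v + t • om r D) : ℝ) : ℂ)‖ <
          2 * η * ∑ α, ‖cc α‖ * HH (fun i => (g i).1) (fun i => (g i).2) B D₀ α (v + t • om r D)})
    (F : Finset (Fin r → ℕ)) (hF : ∀ n ∈ F, (∀ l, 1 ≤ n l ∧ n l ≤ N) ∧
      (∀ l, (N : ℝ) ^ ((1 : ℝ) / 2) < n l) ∧ ∃ g ∈ GG, ∃ cc ∈ CC,
        ‖∑ α, cc α * ((HH (fun i => (g i).1) (fun i => (g i).2) B D₀ α (fun l => Real.log (n l)) : ℝ) : ℂ)‖ <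
          η * ∑ α, ‖cc α‖ * HH (fun i => (g i).1) (fun i => (g i).2) B D₀ α (fun l => Real.log (n l))) :
    (F.card : ℝ) ≤ (2 * (N : ℝ)) ^ r * (((GG.card : ℝ) * CC.card) * (m * l₀) * (2 * Real.log N) ^ r +
      (S.card : ℝ) ^ 2 * (2 * ε₁ * (r / ε₂) * (2 * Real.log N) ^ r)) := by
  classical
  have hNpos : (0 : ℝ) < N := by exact_mod_cast (by omega : 0 < N)
  set L := Real.log N with hL
  set Ω : ℝ := ((D : ℝ) + 1) ^ r with hΩ
  have hΩ1 : 1 ≤ Ω := one_le_pow₀ (by linarith [(Nat.cast_nonneg D : (0 : ℝ) ≤ D)])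
  have hL12 : 12 ≤ L := by linarith
  have hsN : 0 < (N : ℝ) ^ ((1 : ℝ) / 2) := Real.rpow_pos_of_pos hNpos _
  set Ei : (Fin k → ℝ × (Fin r → ℝ)) × (Iy r k D → ℂ) → Set (Fin r → ℝ) := fun z => {u |
    ‖∑ α, z.2 α * ((HH (fun i => (z.1 i).1) (fun i => (z.1 i).2) B D₀ α u : ℝ) : ℂ)‖ <
      2 * η * ∑ α, ‖z.2 α‖ * HH (fun i => (z.1 i).1) (fun i => (z.1 i).2) B D₀ α u} with hEi
  have hEm : ∀ z ∈ GG ×ˢ CC, MeasurableSet (Ei z) := by
    intro z hz
    rw [Finset.mem_product] at hz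
    have hc : ∀ α : Iy r k D,
        Continuous (HH (fun i => (z.1 i).1) (fun i => (z.1 i).2) B D₀ α : (Fin r → ℝ) → ℝ) :=
      fun α => HH_cont (fun i => (hS _ (hGG _ hz.1 i)).1) hD α
    have h1 : Continuous fun u : Fin r → ℝ =>
        ‖∑ α, z.2 α * ((HH (fun i => (z.1 i).1) (fun i => (z.1 i).2) B D₀ α u : ℝ) : ℂ)‖ := by
      refine continuous_norm.comp (continuous_finsetSum _ fun α _ => ?_)
      exact continuous_const.mul (Complex.continuous_ofReal.comp (hc α))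
    have h2 : Continuous fun u : Fin r → ℝ =>
        2 * η * ∑ α, ‖z.2 α‖ * HH (fun i => (z.1 i).1) (fun i => (z.1 i).2) B D₀ α u := by
      refine continuous_const.mul (continuous_finsetSum _ fun α _ => ?_)
      exact continuous_const.mul (hc α)
    exact (isOpen_lt h1 h2).measurableSet
  have hsub : ∀ u ∈ bx r (L / 2) (L + 1), ∀ t ∈ Icc (0 : ℝ) 1, u - t • om r D ∈ bx r (L / 2 - Ω) (L + 1) := by
    intro u hu t ht l _
    have h1 := hu l (mem_univ l)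
    have h2 : (u - t • om r D) l = u l - t * om r D l := by simp
    have h3 : 0 ≤ t * om r D l := mul_nonneg ht.1 (by linarith [om_ge (D := D) l])
    have h4 : t * om r D l ≤ Ω := by
      have h5 : t * om r D l ≤ 1 * om r D l :=
        mul_le_mul_of_nonneg_right ht.2 (by linarith [om_ge (D := D) l])
      linarith [om_le (D := D) l]
    show L / 2 - Ω ≤ (u - t • om r D) l ∧ (u - t • om r D) l ≤ L + 1
    rw [h2]
    exact ⟨by linarith [h1.1], by linarith [h1.2]⟩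
  have hvol := volE (GG ×ˢ CC) Ei hEm (bx_meas r (L / 2 - Ω) (L + 1)) (ZS_meas S ε₁ ε₂) (om r D) hsub
    (m := m) (l := l₀) (by
      rintro z hz v hv hvZ
      rw [Finset.mem_product] at hz
      refine (hcov z.1 hz.1 z.2 hz.2 v (fun l => ?_) hvZ).mono le_rfl le_rfl ?_
      · have h1 := hv l (mem_univ l)
        exact ⟨by linarith [h1.1], h1.2⟩
      · rintro t ⟨ht, htE⟩
        exact ⟨ht, htE⟩)
  have hZ := volZ S hε₁ hε₂ (show L / 2 - Ω ≤ L + 1 by linarith)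
  have hcells := cells r F N (fun n hn => (hF n hn).1)
    ((⋃ z ∈ GG ×ˢ CC, Ei z) ∩ bx r (L / 2) (L + 1)) (by
      intro n hn u hu
      obtain ⟨hn1, hn2, g, hg, cc, hcc, hlt⟩ := hF n hn
      have hnl : ∀ l, (0 : ℝ) < n l := fun l => hsN.trans (hn2 l)
      have hstep : ∀ l, u l ≤ Real.log (n l) + (N : ℝ) ^ (-((1 : ℝ) / 2)) := by
        intro l
        have h1 := (hu l).2.le
        have h2 : Real.log (n l + 1) - Real.log (n l) ≤ 1 / n l := by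
          rw [← Real.log_div (by linarith [hnl l]) (hnl l).ne']
          refine (Real.log_le_sub_one_of_pos (by have := hnl l; positivity)).trans (le_of_eq ?_)
          have := (hnl l).ne'
          field_simp
          ring
        have h3 : 1 / (n l : ℝ) ≤ (N : ℝ) ^ (-((1 : ℝ) / 2)) := by
          rw [Real.rpow_neg hNpos.le, one_div]
          exact inv_anti₀ hsN (hn2 l).le
        linarith
      refine ⟨?_, ?_⟩
      · rw [mem_iUnion₂]
        refine ⟨(g, cc), Finset.mem_product.2 ⟨hg, hcc⟩, ?_⟩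
        exact cellG (fun i => (hS _ (hGG g hg i)).1) (fun i => (hS _ (hGG g hg i)).2) hβ hB hD cc hη
          (Real.rpow_nonneg hNpos.le _) hG (fun l => ⟨(hu l).1, hstep l⟩) hlt
      · intro l _
        have h1 : L / 2 ≤ Real.log (n l) := by
          have h2 := Real.log_le_log hsN (hn2 l).le
          rw [Real.log_rpow hNpos] at h2
          linarith
        have h2 : Real.log (n l) ≤ L := Real.log_le_log (hnl l) (by exact_mod_cast (hn1 l).2)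
        have h3 : (N : ℝ) ^ (-((1 : ℝ) / 2)) ≤ 1 :=
          Real.rpow_le_one_of_one_le_of_nonpos (by exact_mod_cast hN) (by norm_num)
        exact ⟨h1.trans (hu l).1, by linarith [hstep l]⟩)
  have hbv : volume (bx r (L / 2 - Ω) (L + 1)) ≤ ENNReal.ofReal ((2 * L) ^ r) := by
    rw [bx_vol r (by linarith)]
    exact ENNReal.ofReal_le_ofReal (pow_le_pow_left₀ (by linarith) (by linarith) _)
  have hZv : volume (ZS S ε₁ ε₂ ∩ bx r (L / 2 - Ω) (L + 1)) ≤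
      ENNReal.ofReal ((S.card : ℝ) ^ 2 * (2 * ε₁ * (r / ε₂) * (2 * L) ^ r)) := by
    refine hZ.trans (ENNReal.ofReal_le_ofReal ?_)
    refine mul_le_mul_of_nonneg_left (mul_le_mul_of_nonneg_left ?_ (by positivity)) (by positivity)
    exact pow_le_pow_left₀ (by linarith) (by linarith) _
  have hL0 : 0 ≤ 2 * L := by linarith
  have hfinal : ENNReal.ofReal ((F.card : ℝ) * (1 / (2 * (N : ℝ))) ^ r) ≤
      ENNReal.ofReal (((GG.card : ℝ) * CC.card) * (m * l₀) * (2 * L) ^ r +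
        (S.card : ℝ) ^ 2 * (2 * ε₁ * (r / ε₂) * (2 * L) ^ r)) := by
    have e1 : ENNReal.ofReal ((F.card : ℝ) * (1 / (2 * (N : ℝ))) ^ r) =
        (F.card : ℝ≥0∞) * ENNReal.ofReal ((1 / (2 * (N : ℝ))) ^ r) := by
      rw [ENNReal.ofReal_mul (Nat.cast_nonneg _), ENNReal.ofReal_natCast]
    have e2 : ENNReal.ofReal (((GG.card : ℝ) * CC.card) * (m * l₀) * (2 * L) ^ r +
        (S.card : ℝ) ^ 2 * (2 * ε₁ * (r / ε₂) * (2 * L) ^ r)) =
        (((GG ×ˢ CC).card : ℕ) : ℝ≥0∞) * ENNReal.ofReal (m * l₀) * ENNReal.ofReal ((2 * L) ^ r) +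
        ENNReal.ofReal ((S.card : ℝ) ^ 2 * (2 * ε₁ * (r / ε₂) * (2 * L) ^ r)) := by
      rw [ENNReal.ofReal_add (by positivity) (by positivity), ENNReal.ofReal_mul (by positivity),
        ENNReal.ofReal_mul (by positivity), Finset.card_product]
      congr 3
      rw [← ENNReal.ofReal_natCast]
      push_cast
      rfl
    rw [e1, e2]
    refine hcells.trans (hvol.trans ?_)
    exact add_le_add (mul_le_mul' le_rfl hbv) hZv
  have hnn : 0 ≤ ((GG.card : ℝ) * CC.card) * (m * l₀) * (2 * L) ^ r +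
        (S.card : ℝ) ^ 2 * (2 * ε₁ * (r / ε₂) * (2 * L) ^ r) := by positivity
  have h1 := (ENNReal.ofReal_le_ofReal_iff hnn).1 hfinal
  have h2 : (F.card : ℝ) = (2 * (N : ℝ)) ^ r * ((F.card : ℝ) * (1 / (2 * (N : ℝ))) ^ r) := by
    have h3 : (2 * (N : ℝ)) ^ r * (1 / (2 * (N : ℝ))) ^ r = 1 := by
      rw [← mul_pow, mul_one_div_cancel (by positivity), one_pow]
    calc (F.card : ℝ) = F.card * ((2 * (N : ℝ)) ^ r * (1 / (2 * (N : ℝ))) ^ r) := by rw [h3, mul_one]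
      _ = _ := by ring
  rw [h2]
  exact mul_le_mul_of_nonneg_left h1 (by positivity)

end Pool.Agent.Lib.MP_ec260d_ntG
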