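import Mathlib
import Pool.Agent.Lib.MP_ec260d_nt.OrdRealL
import Pool.Agent.Lib.MP_ec260d_ntG.WMainG

/-!
# Fixed polynomial, one parameter: no exceptions for large values of the parameter
-/

open Set Filter Topology

namespace Pool.Agent.Lib.MP_ec260d_ntG

open Pool.Agent.Lib.MP_ec260d_nt

theorem fixG (k : ℕ) (a b : Fin k → ℝ) (ha : ∀ i, 0 < a i) (hb : ∀ i, 0 < b i)
    (hinj : Function.Injective (fun i => (a i, b i)))
    (P : MvPolynomial (Option (Fin k)) ℂ) (hP : P ≠ 0) (θ κ : ℝ) (hθ : 0 < θ) (hκ : 0 < κ) :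
    ∃ x₀ : ℝ, ∀ x : ℝ, x₀ ≤ x → ∀ s : Fin k → ℝ,
      (∀ i, |(zeroCount (s i) : ℝ) - a i * x ^ (b i)| ≤ (a i * x ^ (b i)) ^ (1 - θ)) →
      MvPolynomial.eval (fun o : Option (Fin k) => o.elim (x : ℂ) (fun i => ((s i : ℝ) : ℂ))) P ≠ 0 ∧
      ∀ α : Option (Fin k) →₀ ℕ, ‖P.coeff α‖ * (x ^ (α none) * ∏ i, |s i| ^ (α (some i))) ≤
        x ^ κ * ‖MvPolynomial.eval (fun o : Option (Fin k) => o.elim (x : ℂ) (fun i => ((s i : ℝ) : ℂ))) P‖ := by
  classical
  obtain ⟨B, D₀, hB, hD, hor⟩ := ord_realL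
  obtain ⟨K, M, hK, c, d, hc, hwt, hmain⟩ := w_mainG k a b ha hb hinj B D₀ hB hD P hP
  have h1 : ∀ i, ∃ C y₀ : ℝ, 0 ≤ C ∧ ∀ y : ℝ, y₀ ≤ y → ∀ τ : ℝ, 0 ≤ τ → τ ≤ a i / 2 → ∀ s : ℝ,
      |(zeroCount s : ℝ) - a i * y| ≤ τ * y →
      |s - (a i * y / B) / lam (a i * y / D₀)| ≤ C * (τ * y + y ^ ((1 : ℝ) / 2)) :=
    fun i => hor (a i) (ha i)
  choose Cf y₀ hC0 hC using h1
  obtain ⟨x₁, hx₁, hx₁'⟩ := hmain (2 * ∑ i, Cf i)
  have hKpos : K ≠ 0 := by omega
  have hSC : 0 ≤ ∑ i, Cf i := Finset.sum_nonneg fun i _ => hC0 i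
  have hSa : 0 ≤ ∑ i, a i / B := Finset.sum_nonneg fun i _ => (div_pos (ha i) hB).le
  set C₃ : ℝ := 1 + ∑ i, a i / B + 2 * ∑ i, Cf i with hC₃
  have hC₃1 : 1 ≤ C₃ := by rw [hC₃]; linarith
  set C₅ : ℝ := ∑ m ∈ P.support, ‖P.coeff m‖ * C₃ ^ (∑ i, m (some i)) with hC₅
  have hC₅0 : 0 ≤ C₅ := Finset.sum_nonneg fun m _ => mul_nonneg (norm_nonneg _) (by positivity)
  have hev1 : ∀ᶠ x : ℝ in atTop, ∀ i, y₀ i ≤ x ^ (b i) := by
    rw [Filter.eventually_all]
    intro i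
    exact (tendsto_rpow_atTop (hb i)).eventually_ge_atTop _
  have hev2 : ∀ᶠ x : ℝ in atTop, ∀ i, 1 / (Real.log x) ^ K ≤ a i / 2 := by
    rw [Filter.eventually_all]
    intro i
    have h2 : Tendsto (fun x : ℝ => (Real.log x) ^ K) atTop atTop :=
      (tendsto_pow_atTop hKpos).comp Real.tendsto_log_atTop
    have h3 : Tendsto (fun x : ℝ => 1 / (Real.log x) ^ K) atTop (𝓝 0) := by
      refine h2.inv_tendsto_atTop.congr fun x => ?_
      show ((Real.log x) ^ K)⁻¹ = 1 / (Real.log x) ^ K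
      rw [one_div]
    have h4 : (0 : ℝ) < a i / 2 := by
      have := ha i
      positivity
    exact (h3.eventually (gt_mem_nhds h4)).mono fun _ h => h.le
  have hlogp : ∀ e R : ℝ, 0 < e → 0 < R → ∀ n : ℕ, ∀ᶠ x : ℝ in atTop, R * (Real.log x) ^ n ≤ x ^ e := by
    intro e R he hR n
    have h2 := (isLittleO_log_rpow_rpow_atTop (n : ℝ) he).bound (c := 1 / R) (by positivity)
    filter_upwards [h2, eventually_ge_atTop (1 : ℝ)] with x hx hx1
    have hlog : 0 ≤ Real.log x := Real.log_nonneg hx1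
    rw [Real.rpow_natCast, Real.norm_of_nonneg (pow_nonneg hlog _),
      Real.norm_of_nonneg (Real.rpow_nonneg (by linarith) _), one_div_mul_eq_div, le_div_iff₀ hR] at hx
    linarith
  have hev3 : ∀ᶠ x : ℝ in atTop, ∀ i, (Real.log x) ^ K ≤ x ^ (b i / 2) := by
    rw [Filter.eventually_all]
    intro i
    have := hlogp (b i / 2) 1 (by have := hb i; positivity) one_pos K
    filter_upwards [this] with x hx
    linarith
  have hev4 : ∀ᶠ x : ℝ in atTop, ∀ i, a i ^ (1 - θ) * (Real.log x) ^ K ≤ x ^ (b i * θ) := by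
    rw [Filter.eventually_all]
    intro i
    exact hlogp (b i * θ) _ (mul_pos (hb i) hθ) (Real.rpow_pos_of_pos (ha i) _) K
  have hev5 : ∀ᶠ x : ℝ in atTop, (C₅ / c + 1) * (Real.log x) ^ M ≤ x ^ κ :=
    hlogp κ _ hκ (by positivity) M
  have hev6 : ∀ᶠ x : ℝ in atTop, 1 ≤ Real.log x := Real.tendsto_log_atTop.eventually_ge_atTop _
  have hev7 : ∀ᶠ x : ℝ in atTop, ∀ i, Real.exp 1 * D₀ / a i ≤ x ^ (b i) := by
    rw [Filter.eventually_all]
    intro i
    exact (tendsto_rpow_atTop (hb i)).eventually_ge_atTop _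
  obtain ⟨x₂, hx₂⟩ := eventually_atTop.1 (hev1.and (hev2.and (hev3.and (hev4.and (hev5.and (hev6.and hev7))))))
  refine ⟨max x₁ x₂, ?_⟩
  intro x hx s hs
  have hxx₁ : x₁ ≤ x := (le_max_left _ _).trans hx
  have hx1 : 1 < x := lt_of_lt_of_le hx₁ hxx₁
  have hx0 : 0 < x := by linarith
  have hlog : 0 < Real.log x := Real.log_pos hx1
  have hlK : 0 < (Real.log x) ^ K := pow_pos hlog K
  have hlM : 0 < (Real.log x) ^ M := pow_pos hlog M
  obtain ⟨e1, e2, e3, e4, e5, e6, e7⟩ := hx₂ x ((le_max_right _ _).trans hx)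
  have hxb : ∀ i, 0 < x ^ (b i) := fun i => Real.rpow_pos_of_pos hx0 _
  have hs' : ∀ i, |(zeroCount (s i) : ℝ) - a i * x ^ (b i)| ≤ x ^ (b i) / (Real.log x) ^ K := by
    intro i
    refine (hs i).trans ?_
    rw [le_div_iff₀ hlK, Real.mul_rpow (ha i).le (hxb i).le, ← Real.rpow_mul hx0.le]
    have h2 : x ^ (b i) = x ^ (b i * θ) * x ^ (b i * (1 - θ)) := by
      rw [← Real.rpow_add hx0]; congr 1; ring
    calc a i ^ (1 - θ) * x ^ (b i * (1 - θ)) * Real.log x ^ K =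
          (a i ^ (1 - θ) * Real.log x ^ K) * x ^ (b i * (1 - θ)) := by ring
      _ ≤ x ^ (b i * θ) * x ^ (b i * (1 - θ)) :=
          mul_le_mul_of_nonneg_right (e4 i) (Real.rpow_nonneg hx0.le _)
      _ = _ := h2.symm
  have hwin : ∀ i, |s i - (a i * x ^ (b i) / B) / lam (a i * x ^ (b i) / D₀)| ≤
      2 * (∑ i, Cf i) * (x ^ (b i) / (Real.log x) ^ K) := by
    intro i
    have h2 := hC i (x ^ (b i)) (e1 i) (1 / (Real.log x) ^ K) (by positivity) (e2 i) (s i)
      (by rw [one_div_mul_eq_div]; exact hs' i)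
    have h3 : (x ^ (b i)) ^ ((1 : ℝ) / 2) ≤ x ^ (b i) / (Real.log x) ^ K := by
      rw [le_div_iff₀ hlK, ← Real.rpow_mul hx0.le]
      have h4 : b i * (1 / 2) = b i / 2 := by ring
      rw [h4]
      have h5 : x ^ (b i) = x ^ (b i / 2) * x ^ (b i / 2) := by
        rw [← Real.rpow_add hx0]
        congr 1
        ring
      rw [h5]
      exact mul_le_mul_of_nonneg_left (e3 i) (Real.rpow_nonneg hx0.le _)
    have h6 : Cf i ≤ ∑ i, Cf i :=
      Finset.single_le_sum (f := fun i => Cf i) (fun i _ => hC0 i) (Finset.mem_univ i)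
    have h7 : 0 ≤ x ^ (b i) / (Real.log x) ^ K := by have := hxb i; positivity
    calc |s i - (a i * x ^ (b i) / B) / lam (a i * x ^ (b i) / D₀)|
        ≤ Cf i * (1 / (Real.log x) ^ K * x ^ (b i) + (x ^ (b i)) ^ ((1 : ℝ) / 2)) := h2
      _ ≤ Cf i * (x ^ (b i) / (Real.log x) ^ K + x ^ (b i) / (Real.log x) ^ K) := by
          refine mul_le_mul_of_nonneg_left ?_ (hC0 i)
          rw [one_div_mul_eq_div]
          exact add_le_add le_rfl h3
      _ = 2 * Cf i * (x ^ (b i) / (Real.log x) ^ K) := by ring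
      _ ≤ 2 * (∑ i, Cf i) * (x ^ (b i) / (Real.log x) ^ K) :=
          mul_le_mul_of_nonneg_right (mul_le_mul_of_nonneg_left h6 (by norm_num)) h7
  have hlow := hx₁' x hxx₁ s hwin
  obtain ⟨ev, hev'⟩ : ∃ ev : ℂ, ev = MvPolynomial.eval (fun o : Option (Fin k) =>
    o.elim (x : ℂ) (fun i => ((s i : ℝ) : ℂ))) P := ⟨_, rfl⟩
  rw [← hev'] at hlow ⊢
  have hxd : 0 < x ^ d := Real.rpow_pos_of_pos hx0 _
  have hev0 : 0 < ‖ev‖ := by
    have h2 : 0 < Real.log x ^ M * ‖ev‖ := (mul_pos hc hxd).trans_le hlow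
    exact (mul_pos_iff_of_pos_left hlM).1 h2
  refine ⟨norm_pos_iff.1 hev0, fun α => ?_⟩
  -- the sizes of the `s i`
  have hsize : ∀ i, |(fun i => |s i|) i / x ^ (b i)| ≤ C₃ := by
    intro i
    simp only
    rw [abs_div, abs_abs, abs_of_pos (hxb i), div_le_iff₀ (hxb i)]
    have h2 : 1 ≤ lam (a i * x ^ (b i) / D₀) := by
      refine (lam_le_log ?_).1
      rw [le_div_iff₀ hD]
      have h3 := e7 i
      rw [div_le_iff₀ (ha i)] at h3
      linarith
    have h3 : 0 ≤ (a i * x ^ (b i) / B) / lam (a i * x ^ (b i) / D₀) := by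
      have := ha i
      have := hxb i
      positivity
    have h4 : (a i * x ^ (b i) / B) / lam (a i * x ^ (b i) / D₀) ≤ a i / B * x ^ (b i) := by
      calc (a i * x ^ (b i) / B) / lam (a i * x ^ (b i) / D₀) ≤ (a i * x ^ (b i) / B) / 1 := by
            refine div_le_div_of_nonneg_left ?_ one_pos h2
            have := ha i
            have := hxb i
            positivity
        _ = _ := by ring
    have h5 : 2 * (∑ i, Cf i) * (x ^ (b i) / (Real.log x) ^ K) ≤ 2 * (∑ i, Cf i) * x ^ (b i) := by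
      refine mul_le_mul_of_nonneg_left ?_ (by linarith)
      exact div_le_self (hxb i).le (one_le_pow₀ e6)
    have h6 : |s i| ≤ |s i - (a i * x ^ (b i) / B) / lam (a i * x ^ (b i) / D₀)| +
        (a i * x ^ (b i) / B) / lam (a i * x ^ (b i) / D₀) := by
      have h7 := abs_add_le (s i - (a i * x ^ (b i) / B) / lam (a i * x ^ (b i) / D₀))
        ((a i * x ^ (b i) / B) / lam (a i * x ^ (b i) / D₀))
      rwa [sub_add_cancel, abs_of_nonneg h3] at h7
    have h7 : a i / B ≤ ∑ i, a i / B :=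
      Finset.single_le_sum (f := fun i => a i / B) (fun i _ => (div_pos (ha i) hB).le) (Finset.mem_univ i)
    have h8 : a i / B * x ^ (b i) ≤ (∑ i, a i / B) * x ^ (b i) :=
      mul_le_mul_of_nonneg_right h7 (hxb i).le
    have h9 := hwin i
    have h10 := hxb i
    rw [hC₃, add_mul, add_mul]
    linarith
  by_cases hα : P.coeff α = 0
  · rw [hα, norm_zero, zero_mul]
    exact mul_nonneg (Real.rpow_nonneg hx0.le _) (norm_nonneg _)
  · have hαs : α ∈ P.support := MvPolynomial.mem_support_iff.2 hα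
    have h2 := WPertG_scale b α x hx0 (fun i => |s i|)
    have h3 : ∏ i, ((fun i => |s i|) i / x ^ (b i)) ^ (α (some i)) ≤ C₃ ^ (∑ i, α (some i)) := by
      rw [← Finset.prod_pow_eq_pow_sum]
      refine Finset.prod_le_prod (fun i _ => ?_) fun i _ => ?_
      · have := hxb i
        positivity
      · refine pow_le_pow_left₀ ?_ ((le_abs_self _).trans (hsize i)) _
        have := hxb i
        positivity
    have h4 : x ^ (α none) * ∏ i, |s i| ^ (α (some i)) ≤ x ^ d * C₃ ^ (∑ i, α (some i)) := by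
      rw [show (∏ i, |s i| ^ (α (some i))) = ∏ i, (fun i => |s i|) i ^ (α (some i)) from rfl, h2]
      refine mul_le_mul ?_ h3 (Finset.prod_nonneg fun i _ => ?_) hxd.le
      · exact Real.rpow_le_rpow_of_exponent_le hx1.le (hwt α hαs)
      · have := hxb i
        positivity
    have h5 : ‖P.coeff α‖ * C₃ ^ (∑ i, α (some i)) ≤ C₅ :=
      Finset.single_le_sum (f := fun m => ‖P.coeff m‖ * C₃ ^ (∑ i, m (some i)))
        (fun m _ => mul_nonneg (norm_nonneg _) (by positivity)) hαs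
    calc ‖P.coeff α‖ * (x ^ (α none) * ∏ i, |s i| ^ (α (some i))) ≤
          ‖P.coeff α‖ * (x ^ d * C₃ ^ (∑ i, α (some i))) := mul_le_mul_of_nonneg_left h4 (norm_nonneg _)
      _ = (‖P.coeff α‖ * C₃ ^ (∑ i, α (some i))) * x ^ d := by ring
      _ ≤ C₅ * x ^ d := mul_le_mul_of_nonneg_right h5 hxd.le
      _ = C₅ / c * (c * x ^ d) := by field_simp
      _ ≤ C₅ / c * (Real.log x ^ M * ‖ev‖) := mul_le_mul_of_nonneg_left hlow (by positivity)
      _ ≤ (C₅ / c + 1) * (Real.log x ^ M * ‖ev‖) :=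
          mul_le_mul_of_nonneg_right (by linarith) (by positivity)
      _ = ((C₅ / c + 1) * Real.log x ^ M) * ‖ev‖ := by ring
      _ ≤ x ^ κ * ‖ev‖ := mul_le_mul_of_nonneg_right e5 hev0.le

end Pool.Agent.Lib.MP_ec260d_ntG
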