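import Mathlib

/-!
# The numerical inequality of the union bound
-/

open Set Filter Topology

namespace Pool.Agent.Lib.MP_ec260d_ntG

theorem log_small (r : ℕ) {C e : ℝ} (hC : 0 ≤ C) (he : 0 < e) :
    ∀ᶠ N : ℝ in atTop, C * Real.log N ^ r ≤ N ^ e := by
  have h1 := (isLittleO_log_rpow_rpow_atTop ((r : ℕ) : ℝ) he).def (c := 1 / (C + 1)) (by positivity)
  filter_upwards [h1, eventually_ge_atTop (1 : ℝ)] with N hN hN1
  have hl : 0 ≤ Real.log N := Real.log_nonneg hN1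
  have hp : 0 ≤ N ^ e := Real.rpow_nonneg (by linarith) _
  rw [Real.rpow_natCast, Real.norm_of_nonneg (pow_nonneg hl _), Real.norm_of_nonneg hp,
    one_div_mul_eq_div, le_div_iff₀ (by linarith)] at hN
  have : 0 ≤ Real.log N ^ r := pow_nonneg hl _
  linarith

theorem numG (r k M J : ℕ) (hr : 0 < r) (C₁ lam c c₄ : ℝ) (hC₁ : 0 ≤ C₁) (hlam : 0 < lam) (hc : 0 < c)
    (hc4 : c ≤ 1 / 4) (hsum : c * (k + M + 1) + c₄ ≤ lam / 2) :
    ∀ᶠ N : ℝ in atTop, ∀ S A np : ℝ, 0 ≤ S → S ≤ N ^ c → 0 ≤ A → A ≤ N ^ c → 0 ≤ np →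
      np ≤ 2 * C₁ * N ^ c₄ →
      r * (N ^ ((1 : ℝ) / 2) * N ^ (r - 1)) + (2 * N) ^ r * ((S ^ k * (A + 1) ^ M) * (np * 2 ^ J * N ^ (-lam)) *
        (2 * Real.log N) ^ r + S ^ 2 * (2 * N ^ (-(7 * c)) * (r / N ^ (-(3 * c))) * (2 * Real.log N) ^ r)) ≤
      N ^ ((r : ℝ) - c) := by
  set C₂ : ℝ := 3 * (2 ^ r * (2 ^ M * (2 * C₁) * 2 ^ J) * 2 ^ r) with hC₂
  have hC₂0 : 0 ≤ C₂ := by positivity
  have h1 := log_small r hC₂0 (show 0 < lam / 2 by positivity)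
  have h2 : ∀ᶠ N : ℝ in atTop, 3 * (r : ℝ) ≤ N ^ ((1 : ℝ) / 4) :=
    (tendsto_rpow_atTop (by norm_num)).eventually_ge_atTop _
  have h3 := log_small r (show (0 : ℝ) ≤ 3 * (2 ^ r * (2 * r) * 2 ^ r) by positivity) hc
  filter_upwards [h1, h2, h3, eventually_ge_atTop (1 : ℝ)] with
    N hN1 hN2 hN3 hN S A np hS0 hS hA0 hA hnp0 hnp
  have hN0 : 0 < N := by linarith
  have hlog0 : 0 ≤ Real.log N := Real.log_nonneg hN
  have hp : ∀ e : ℝ, 0 < N ^ e := fun e => Real.rpow_pos_of_pos hN0 e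
  have hNr : N ^ r = N ^ (r : ℝ) := (Real.rpow_natCast N r).symm
  -- first term
  have t1 : r * (N ^ ((1 : ℝ) / 2) * N ^ (r - 1)) ≤ 1 / 3 * N ^ ((r : ℝ) - c) := by
    have e1 : N ^ (r - 1) = N ^ ((r : ℝ) - 1) := by
      rw [← Real.rpow_natCast, Nat.cast_sub hr, Nat.cast_one]
    rw [e1, ← Real.rpow_add hN0]
    have e2 : (r : ℝ) * N ^ ((1 : ℝ) / 2 + ((r : ℝ) - 1)) ≤
        1 / 3 * (N ^ ((1 : ℝ) / 4) * N ^ ((1 : ℝ) / 2 + ((r : ℝ) - 1))) := by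
      have := mul_le_mul_of_nonneg_right hN2 (hp ((1 : ℝ) / 2 + ((r : ℝ) - 1))).le
      linarith
    refine e2.trans ?_
    rw [← Real.rpow_add hN0]
    have := Real.rpow_le_rpow_of_exponent_le hN
      (show (1 : ℝ) / 4 + (1 / 2 + ((r : ℝ) - 1)) ≤ (r : ℝ) - c by linarith)
    linarith
  have hSk : S ^ k ≤ N ^ (c * k) := by
    calc S ^ k ≤ (N ^ c) ^ k := pow_le_pow_left₀ hS0 hS k
      _ = N ^ (c * k) := by rw [← Real.rpow_natCast (N ^ c) k, ← Real.rpow_mul hN0.le]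
  have hAM : (A + 1) ^ M ≤ 2 ^ M * N ^ (c * M) := by
    have e1 : A + 1 ≤ 2 * N ^ c := by
      have : 1 ≤ N ^ c := Real.one_le_rpow hN hc.le
      linarith
    calc (A + 1) ^ M ≤ (2 * N ^ c) ^ M := pow_le_pow_left₀ (by linarith) e1 M
      _ = _ := by
          rw [mul_pow, ← Real.rpow_natCast (N ^ c) M, ← Real.rpow_mul hN0.le]
  have p1 := hp (c * k)
  have p2 := hp (c * M)
  have p3 := hp c₄
  have p4 := hp (-lam)
  have p5 : 0 < N ^ r := pow_pos hN0 r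
  -- second term
  have t2 : (2 * N) ^ r * ((S ^ k * (A + 1) ^ M) * (np * 2 ^ J * N ^ (-lam)) * (2 * Real.log N) ^ r) ≤
      1 / 3 * N ^ ((r : ℝ) - c) := by
    calc _ ≤ (2 * N) ^ r * ((N ^ (c * k) * (2 ^ M * N ^ (c * M))) * ((2 * C₁ * N ^ c₄) * 2 ^ J * N ^ (-lam)) *
          (2 * Real.log N) ^ r) := by gcongr
      _ = 1 / 3 * ((C₂ * Real.log N ^ r) * (N ^ r * N ^ (c * k) * N ^ (c * M) * N ^ c₄ * N ^ (-lam))) := by
          rw [hC₂, mul_pow, mul_pow]; ring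
      _ ≤ 1 / 3 * (N ^ (lam / 2) * (N ^ r * N ^ (c * k) * N ^ (c * M) * N ^ c₄ * N ^ (-lam))) := by
          gcongr
      _ = 1 / 3 * N ^ (lam / 2 + (r + c * k + c * M + c₄ + -lam)) := by
          rw [hNr, Real.rpow_add hN0, Real.rpow_add hN0, Real.rpow_add hN0, Real.rpow_add hN0,
            Real.rpow_add hN0]
      _ ≤ _ := by
          have := Real.rpow_le_rpow_of_exponent_le hN
            (show lam / 2 + (r + c * k + c * M + c₄ + -lam) ≤ (r : ℝ) - c by linarith)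
          linarith
  -- third term
  have t3 : (2 * N) ^ r * (S ^ 2 * (2 * N ^ (-(7 * c)) * (r / N ^ (-(3 * c))) * (2 * Real.log N) ^ r)) ≤
      1 / 3 * N ^ ((r : ℝ) - c) := by
    have e1 : (1 : ℝ) / N ^ (-(3 * c)) = N ^ (3 * c) := by
      rw [Real.rpow_neg hN0.le, one_div, inv_inv]
    have e2 : S ^ 2 ≤ N ^ (2 * c) := by
      calc S ^ 2 ≤ (N ^ c) ^ 2 := pow_le_pow_left₀ hS0 hS 2
        _ = N ^ (2 * c) := by
            rw [← Real.rpow_natCast (N ^ c) 2, ← Real.rpow_mul hN0.le]; congr 1; push_cast; ring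
    have q1 := hp (2 * c)
    have q2 := hp (-(7 * c))
    have q3 := hp (3 * c)
    have e3 : (r : ℝ) / N ^ (-(3 * c)) = r * N ^ (3 * c) := by rw [← e1]; ring
    rw [e3]
    calc _ ≤ (2 * N) ^ r * (N ^ (2 * c) * (2 * N ^ (-(7 * c)) * (r * N ^ (3 * c)) * (2 * Real.log N) ^ r)) := by
          gcongr
      _ = 1 / 3 * ((3 * (2 ^ r * (2 * r) * 2 ^ r) * Real.log N ^ r) *
            (N ^ r * N ^ (2 * c) * N ^ (-(7 * c)) * N ^ (3 * c))) := by
          rw [mul_pow, mul_pow]; ring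
      _ ≤ 1 / 3 * (N ^ c * (N ^ r * N ^ (2 * c) * N ^ (-(7 * c)) * N ^ (3 * c))) := by gcongr
      _ = 1 / 3 * N ^ (c + (r + 2 * c + -(7 * c) + 3 * c)) := by
          rw [hNr, Real.rpow_add hN0, Real.rpow_add hN0, Real.rpow_add hN0, Real.rpow_add hN0]
      _ ≤ _ := by
          have := Real.rpow_le_rpow_of_exponent_le hN
            (show c + (r + 2 * c + -(7 * c) + 3 * c) ≤ (r : ℝ) - c by linarith)
          linarith
  rw [mul_add]
  linarith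

end Pool.Agent.Lib.MP_ec260d_ntG
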