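import Mathlib
import Pool.Agent.Lib.MP_ec260d_nt.OrdRealL
import Pool.Agent.Lib.MP_ec260d_ntG.Sy

/-!
# Replacing the `s i` by the `Sy y`, and monomials
-/

open Set Filter Topology

namespace Pool.Agent.Lib.MP_ec260d_ntG

open Pool.Agent.Lib.MP_ec260d_nt Pool.Agent.Lib.MP_ec260d_ntH

theorem pertG {B D₀ C y₀ : ℝ} (hB : 0 < B) (hD : 0 < D₀) (hC : 0 ≤ C)
    (hord : ∀ y : ℝ, y₀ ≤ y → ∀ τ : ℝ, 0 ≤ τ → τ ≤ 1 / 2 → ∀ s : ℝ,
      |(zeroCount s : ℝ) - y| ≤ τ * y → |s - (y / B) / lam (y / D₀)| ≤ C * (τ * y + y ^ ((1 : ℝ) / 2)))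
    (β θ Q : ℝ) (hβ : 1 ≤ β) (hθ : 0 < θ) (hQ0 : 0 ≤ Q) :
    ∀ᶠ N : ℝ in atTop, ∀ y s : ℝ, N ^ (3 / (8 * β)) ≤ y → y ≤ N ^ Q →
      |(zeroCount s : ℝ) - y| ≤ y ^ (1 - θ) →
        |s - Sy B D₀ y| ≤ N ^ (-(min (θ / (4 * β)) (1 / (8 * β)))) * Sy B D₀ y := by
  have hβ0 : 0 < β := by linarith
  set γ := min (θ / (4 * β)) (1 / (8 * β)) with hγ
  have hγ0 : 0 < γ := lt_min (by positivity) (by positivity)
  have hγθ : γ ≤ θ / (4 * β) := min_le_left _ _
  have hγβ : γ ≤ 1 / (8 * β) := min_le_right _ _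
  set R : ℝ := 2 * C * B * (Q + 1) + 1 with hR
  have hR0 : 0 < R := by positivity
  have hlim : ∀ᶠ N : ℝ in atTop, R * Real.log N ≤ N ^ (γ / 2) := by
    have h1 := (isLittleO_log_rpow_atTop (show 0 < γ / 2 by positivity)).def (c := 1 / R) (by positivity)
    filter_upwards [h1, eventually_ge_atTop (1 : ℝ)] with N hN hN1
    have hl : 0 ≤ Real.log N := Real.log_nonneg hN1
    rw [Real.norm_of_nonneg hl, Real.norm_of_nonneg (Real.rpow_nonneg (by linarith) _),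
      one_div_mul_eq_div, le_div_iff₀ hR0] at hN
    linarith
  have h8β : 0 < 3 / (8 * β) := by positivity
  have hy₀ : ∀ᶠ N : ℝ in atTop, max y₀ (D₀ * Real.exp 1) ≤ N ^ (3 / (8 * β)) :=
    (tendsto_rpow_atTop h8β).eventually_ge_atTop _
  have hτ : ∀ᶠ N : ℝ in atTop, N ^ (-(3 * θ / (8 * β))) ≤ 1 / 2 :=
    (tendsto_rpow_neg_atTop (show 0 < 3 * θ / (8 * β) by positivity)).eventually_le_const (by norm_num)
  have hL2 : ∀ᶠ N : ℝ in atTop, -Real.log D₀ ≤ Real.log N := Real.tendsto_log_atTop.eventually_ge_atTop _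
  have hL3 : ∀ᶠ N : ℝ in atTop, 1 ≤ Real.log N := Real.tendsto_log_atTop.eventually_ge_atTop _
  filter_upwards [hlim, hy₀, hτ, hL2, hL3, eventually_ge_atTop (1 : ℝ)] with N hN1 hN2 hN3 hN4 hN5 hNge
    y s hylow hyup hs
  have hN0 : 0 < N := by linarith
  set L := Real.log N with hL
  have hp : ∀ e : ℝ, 0 < N ^ e := fun e => Real.rpow_pos_of_pos hN0 e
  have hy0 : 0 < y := (hp _).trans_le hylow
  have hyy₀ : y₀ ≤ y := (le_max_left _ _).trans (hN2.trans hylow)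
  have hyD : Real.exp 1 ≤ y / D₀ := by
    rw [le_div_iff₀ hD, mul_comm]
    exact (le_max_right _ _).trans (hN2.trans hylow)
  set τ := y ^ (-θ) with hτdef
  have hτ0 : 0 ≤ τ := Real.rpow_nonneg hy0.le _
  have hτy : τ * y = y ^ (1 - θ) := by
    rw [hτdef]
    conv_lhs => rw [← Real.rpow_one y, ← Real.rpow_mul hy0.le, ← Real.rpow_add hy0]
    congr 1
    ring
  have hτle : τ ≤ N ^ (-(3 * θ / (8 * β))) := by
    calc τ ≤ (N ^ (3 / (8 * β))) ^ (-θ) := Real.rpow_le_rpow_of_nonpos (hp _) hylow (by linarith)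
      _ = _ := by rw [← Real.rpow_mul hN0.le]; congr 1; ring
  have hmain := hord y hyy₀ τ hτ0 (hτle.trans hN3) s (by rw [hτy]; exact hs)
  unfold Sy
  refine hmain.trans ?_
  obtain ⟨hl1, hl2⟩ := lam_le_log hyD
  set w := lam (y / D₀) with hw
  have hw0 : 0 < w := by linarith
  have hwL : w ≤ (Q + 1) * L := by
    refine hl2.trans ?_
    have h1 : Real.log y ≤ Q * L := by
      have h3 := Real.log_le_log hy0 hyup
      rwa [Real.log_rpow hN0] at h3
    rw [Real.log_div hy0.ne' hD.ne']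
    linarith
  -- the two parts
  have hA : τ * y ≤ N ^ (-(3 / 2 * γ)) * y := by
    refine mul_le_mul_of_nonneg_right (hτle.trans ?_) hy0.le
    refine Real.rpow_le_rpow_of_exponent_le hNge ?_
    have : 3 * θ / (8 * β) = 3 / 2 * (θ / (4 * β)) := by field_simp; norm_num
    rw [this]
    linarith
  have hBp : y ^ ((1 : ℝ) / 2) ≤ N ^ (-(3 / 2 * γ)) * y := by
    have h1 : y ^ ((1 : ℝ) / 2) = y ^ (-((1 : ℝ) / 2)) * y := by
      conv_rhs => rw [← Real.rpow_one y, ← Real.rpow_mul hy0.le, ← Real.rpow_add hy0]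
      congr 1
      norm_num
    rw [h1]
    refine mul_le_mul_of_nonneg_right ?_ hy0.le
    calc y ^ (-((1 : ℝ) / 2)) ≤ (N ^ (3 / (8 * β))) ^ (-((1 : ℝ) / 2)) :=
          Real.rpow_le_rpow_of_nonpos (hp _) hylow (by norm_num)
      _ = N ^ (-(3 / 2 * (1 / (8 * β)))) := by
          rw [← Real.rpow_mul hN0.le]; congr 1; field_simp
      _ ≤ _ := Real.rpow_le_rpow_of_exponent_le hNge (by linarith)
  have hkey : 2 * C * B * w * N ^ (-(3 / 2 * γ)) ≤ N ^ (-γ) := by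
    have h1 : N ^ (-γ) = N ^ (γ / 2) * N ^ (-(3 / 2 * γ)) := by
      rw [← Real.rpow_add hN0]; congr 1; ring
    rw [h1]
    refine mul_le_mul_of_nonneg_right ?_ (hp _).le
    refine le_trans ?_ hN1
    calc 2 * C * B * w ≤ 2 * C * B * ((Q + 1) * L) := by gcongr
      _ = (2 * C * B * (Q + 1)) * L := by ring
      _ ≤ R * L := by
          refine mul_le_mul_of_nonneg_right ?_ (by linarith)
          rw [hR]; linarith
  rw [mul_div_assoc', le_div_iff₀ hw0]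
  calc C * (τ * y + y ^ ((1 : ℝ) / 2)) * w ≤
        C * (N ^ (-(3 / 2 * γ)) * y + N ^ (-(3 / 2 * γ)) * y) * w := by gcongr
    _ = (2 * C * B * w * N ^ (-(3 / 2 * γ))) * (y / B) := by field_simp; ring
    _ ≤ N ^ (-γ) * (y / B) := by
        refine mul_le_mul_of_nonneg_right hkey (by positivity)

section mono

variable {V : Type} [Fintype V] [DecidableEq V] {D : ℕ}

/-- the exponent as a finitely supported function -/
noncomputable def phv (α : V → Fin (D + 1)) : V →₀ ℕ := Finsupp.equivFunOnFinite.symm (fun o => (α o : ℕ))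

omit [DecidableEq V] in
theorem phv_apply (α : V → Fin (D + 1)) (o : V) : phv α o = (α o : ℕ) := by
  simp [phv]

omit [DecidableEq V] in
theorem phv_inj : Function.Injective (phv : (V → Fin (D + 1)) → _) := by
  intro α β h
  funext o
  have := DFunLike.congr_fun h o
  rw [phv_apply, phv_apply] at this
  exact Fin.ext this

theorem evalV (P : MvPolynomial V ℂ) (hP : P.totalDegree ≤ D) (v : V → ℂ) :
    MvPolynomial.eval v P = ∑ α : V → Fin (D + 1), P.coeff (phv α) * ∏ o, v o ^ (α o : ℕ) := by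
  classical
  rw [MvPolynomial.eval_eq']
  have h1 : ∑ α : V → Fin (D + 1), P.coeff (phv α) * ∏ o, v o ^ (α o : ℕ) =
      ∑ d ∈ Finset.univ.image (phv : (V → Fin (D + 1)) → _), P.coeff d * ∏ o, v o ^ d o := by
    rw [Finset.sum_image (fun α _ β _ h => phv_inj h)]
    refine Finset.sum_congr rfl fun α _ => ?_
    simp only [phv_apply]
  rw [h1]
  refine Finset.sum_subset ?_ ?_
  · intro d hd
    rw [Finset.mem_image]
    have hle : ∀ o, d o ≤ D := fun o =>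
      (MvPolynomial.monomial_le_degreeOf o hd).trans
        ((MvPolynomial.degreeOf_le_totalDegree P o).trans hP)
    refine ⟨fun o => ⟨d o, Nat.lt_succ_of_le (hle o)⟩, Finset.mem_univ _, ?_⟩
    ext o
    rw [phv_apply]
  · intro d _ hd
    rw [MvPolynomial.notMem_support_iff.1 hd, zero_mul]

/-- closeness: `|x - X| ≤ (2 ^ p - 1) ε X` -/
def Cl (ε : ℝ) (p : ℕ) (x X : ℝ) : Prop := 0 ≤ X ∧ |x - X| ≤ (2 ^ p - 1) * ε * X

omit [Fintype V] [DecidableEq V] in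
theorem Cl.mul {ε : ℝ} (hε0 : 0 ≤ ε) (hε : ε ≤ 1) {p q : ℕ} {x X y Y : ℝ} (h : Cl ε p x X)
    (h' : Cl ε q y Y) : Cl ε (p + q) (x * y) (X * Y) := by
  obtain ⟨hX, hx⟩ := h
  obtain ⟨hY, hy⟩ := h'
  refine ⟨mul_nonneg hX hY, ?_⟩
  have hp : (1 : ℝ) ≤ 2 ^ p := one_le_pow₀ one_le_two
  have hq : (1 : ℝ) ≤ 2 ^ q := one_le_pow₀ one_le_two
  have h1 : |x| ≤ X + (2 ^ p - 1) * ε * X := by
    have := abs_sub_abs_le_abs_sub x X
    rw [abs_of_nonneg hX] at this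
    linarith
  have h2 : x * y - X * Y = x * (y - Y) + (x - X) * Y := by ring
  rw [h2]
  calc |x * (y - Y) + (x - X) * Y| ≤ |x * (y - Y)| + |(x - X) * Y| := abs_add_le _ _
    _ = |x| * |y - Y| + |x - X| * Y := by rw [abs_mul, abs_mul, abs_of_nonneg hY]
    _ ≤ (X + (2 ^ p - 1) * ε * X) * ((2 ^ q - 1) * ε * Y) + (2 ^ p - 1) * ε * X * Y := by
        have h3 : 0 ≤ (2 ^ p - 1) * ε * X := mul_nonneg (mul_nonneg (by linarith) hε0) hX
        have h4 : 0 ≤ (2 ^ q - 1) * ε * Y := mul_nonneg (mul_nonneg (by linarith) hε0) hY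
        gcongr
    _ = ε * (X * Y) * ((2 ^ q - 1) + (2 ^ p - 1) * (2 ^ q - 1) * ε + (2 ^ p - 1)) := by ring
    _ ≤ ε * (X * Y) * ((2 ^ q - 1) + (2 ^ p - 1) * (2 ^ q - 1) * 1 + (2 ^ p - 1)) := by
        have h5 : 0 ≤ ((2 : ℝ) ^ p - 1) * (2 ^ q - 1) := mul_nonneg (by linarith) (by linarith)
        gcongr
    _ = _ := by rw [pow_add]; ring

omit [Fintype V] [DecidableEq V] in
theorem Cl.pow {ε : ℝ} (hε0 : 0 ≤ ε) (hε : ε ≤ 1) {x X : ℝ} (h : Cl ε 1 x X) (n : ℕ) :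
    Cl ε n (x ^ n) (X ^ n) := by
  induction n with
  | zero => exact ⟨by simp, by simp⟩
  | succ n ih =>
    rw [pow_succ, pow_succ]
    exact Cl.mul hε0 hε ih h

omit [Fintype V] [DecidableEq V] in
theorem Cl.prod {ε : ℝ} (hε0 : 0 ≤ ε) (hε : ε ≤ 1) {ι : Type} (F : Finset ι) (p : ι → ℕ)
    (x X : ι → ℝ) (h : ∀ i, Cl ε (p i) (x i) (X i)) : Cl ε (∑ i ∈ F, p i) (∏ i ∈ F, x i) (∏ i ∈ F, X i) := by
  classical
  induction F using Finset.induction_on with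
  | empty => exact ⟨by simp, by simp⟩
  | insert i F hi ih =>
    rw [Finset.sum_insert hi, Finset.prod_insert hi, Finset.prod_insert hi]
    exact Cl.mul hε0 hε (h i) ih

omit [DecidableEq V] in
theorem mono_pertV {x X : V → ℝ} {ε : ℝ} (hX : ∀ o, 0 < X o) (hε0 : 0 ≤ ε) (hε : ε ≤ 1)
    (h : ∀ o, |x o - X o| ≤ ε * X o) (α : V → Fin (D + 1)) :
    |∏ o, x o ^ (α o : ℕ) - ∏ o, X o ^ (α o : ℕ)| ≤
      2 ^ (Fintype.card V * D) * ε * ∏ o, X o ^ (α o : ℕ) := by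
  have h1 : ∀ o, Cl ε 1 (x o) (X o) := by
    intro o
    refine ⟨(hX o).le, ?_⟩
    have h2 : ((2 : ℝ) ^ 1 - 1) * ε = ε := by norm_num
    rw [h2]
    exact h o
  have h2 := Cl.prod hε0 hε Finset.univ (fun o => (α o : ℕ)) (fun o => x o ^ (α o : ℕ))
    (fun o => X o ^ (α o : ℕ)) (fun o => Cl.pow hε0 hε (h1 o) _)
  refine h2.2.trans ?_
  refine mul_le_mul_of_nonneg_right (mul_le_mul_of_nonneg_right ?_ hε0) h2.1
  have h4 : ∑ o : V, (α o : ℕ) ≤ Fintype.card V * D := by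
    have h5 : ∑ o : V, (α o : ℕ) ≤ ∑ _o : V, D :=
      Finset.sum_le_sum fun o _ => Nat.le_of_lt_succ (α o).2
    refine h5.trans ?_
    rw [Finset.sum_const, Finset.card_univ, smul_eq_mul]
  have h6 : (2 : ℝ) ^ (∑ o : V, (α o : ℕ)) ≤ 2 ^ (Fintype.card V * D) :=
    pow_le_pow_right₀ one_le_two h4
  linarith

/-- If no cancellation occurs for the model `X`, none occurs for `x`. -/
theorem good_pertV {x X : V → ℝ} {ε η : ℝ} (hX : ∀ o, 0 < X o) (hε0 : 0 ≤ ε) (hη : 0 < η) (hη1 : η ≤ 1)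
    (hεη : 2 ^ (Fintype.card V * D) * ε ≤ η / 2) (h : ∀ o, |x o - X o| ≤ ε * X o)
    (P : MvPolynomial V ℂ) (hP : P.totalDegree ≤ D)
    (hgood : η * ∑ α : V → Fin (D + 1), ‖P.coeff (phv α)‖ * ∏ o, X o ^ (α o : ℕ) ≤
      ‖∑ α : V → Fin (D + 1), P.coeff (phv α) * ((∏ o, X o ^ (α o : ℕ) : ℝ) : ℂ)‖)
    (α : V → Fin (D + 1)) :
    0 < ∏ o, x o ^ (α o : ℕ) ∧ ‖P.coeff (phv α)‖ * ∏ o, x o ^ (α o : ℕ) ≤
      4 / η * ‖MvPolynomial.eval (fun o => ((x o : ℝ) : ℂ)) P‖ := by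
  have h2p : (1 : ℝ) ≤ 2 ^ (Fintype.card V * D) := one_le_pow₀ one_le_two
  have hε : ε ≤ 1 := by nlinarith
  have hmp := mono_pertV (D := D) hX hε0 hε h
  set H : (V → Fin (D + 1)) → ℝ := fun α => ∏ o, X o ^ (α o : ℕ) with hH
  have hpos : ∀ α, 0 < H α := fun α => Finset.prod_pos fun o _ => pow_pos (hX o) _
  set z : (V → Fin (D + 1)) → ℝ := fun α => ∏ o, x o ^ (α o : ℕ) with hz
  have hzh : ∀ α, |z α - H α| ≤ η / 2 * H α := fun α =>
    (hmp α).trans (mul_le_mul_of_nonneg_right hεη (hpos α).le)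
  set S := ∑ α : V → Fin (D + 1), ‖P.coeff (phv α)‖ * H α with hS
  have hev : MvPolynomial.eval (fun o => ((x o : ℝ) : ℂ)) P =
      ∑ α : V → Fin (D + 1), P.coeff (phv α) * ((z α : ℝ) : ℂ) := by
    rw [evalV P hP]
    refine Finset.sum_congr rfl fun α _ => ?_
    rw [hz]
    push_cast
    rfl
  have hdiff : ‖∑ α : V → Fin (D + 1), P.coeff (phv α) * ((H α : ℝ) : ℂ)‖ ≤
      ‖∑ α : V → Fin (D + 1), P.coeff (phv α) * ((z α : ℝ) : ℂ)‖ + η / 2 * S := by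
    have h1 : ∑ α : V → Fin (D + 1), P.coeff (phv α) * ((H α : ℝ) : ℂ) =
        ∑ α : V → Fin (D + 1), P.coeff (phv α) * ((z α : ℝ) : ℂ) -
          ∑ α : V → Fin (D + 1), P.coeff (phv α) * (((z α - H α : ℝ)) : ℂ) := by
      rw [← Finset.sum_sub_distrib]
      refine Finset.sum_congr rfl fun α _ => ?_
      push_cast
      ring
    rw [h1]
    refine (norm_sub_le _ _).trans (add_le_add le_rfl ?_)
    refine (norm_sum_le _ _).trans ?_
    rw [hS, Finset.mul_sum]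
    refine Finset.sum_le_sum fun α _ => ?_
    rw [norm_mul, Complex.norm_real, Real.norm_eq_abs]
    calc ‖P.coeff (phv α)‖ * |z α - H α| ≤ ‖P.coeff (phv α)‖ * (η / 2 * H α) :=
          mul_le_mul_of_nonneg_left (hzh α) (norm_nonneg _)
      _ = _ := by ring
  have hE : η / 2 * S ≤ ‖MvPolynomial.eval (fun o => ((x o : ℝ) : ℂ)) P‖ := by
    rw [hev]
    linarith
  have hzα := abs_le.1 (hzh α)
  have hz2 : z α ≤ 2 * H α := by
    have := hzα.2
    have := hpos α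
    nlinarith
  have hz0 : 0 < z α := by
    have := hzα.1
    have := hpos α
    nlinarith
  refine ⟨hz0, ?_⟩
  have hSα : ‖P.coeff (phv α)‖ * H α ≤ S :=
    Finset.single_le_sum (f := fun α => ‖P.coeff (phv α)‖ * H α)
      (fun α _ => mul_nonneg (norm_nonneg _) (hpos α).le) (Finset.mem_univ α)
  calc ‖P.coeff (phv α)‖ * z α ≤ ‖P.coeff (phv α)‖ * (2 * H α) :=
        mul_le_mul_of_nonneg_left hz2 (norm_nonneg _)
    _ = 2 * (‖P.coeff (phv α)‖ * H α) := by ring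
    _ ≤ 2 * S := by linarith
    _ = 4 / η * (η / 2 * S) := by field_simp; ring
    _ ≤ _ := mul_le_mul_of_nonneg_left hE (by positivity)

end mono

end Pool.Agent.Lib.MP_ec260d_ntG
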