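import Mathlib
import Pool.Agent.Lib.MP_ec260d_ntG.CountG
import Pool.Agent.Lib.MP_ec260d_ntG.PertG
import Pool.Agent.Lib.MP_ec260d_ntG.NumG

/-!
# Several integer parameters: uniform in the polynomials and in the monomials
-/

open Set Filter Topology

namespace Pool.Agent.Lib.MP_ec260d_ntG

open Pool.Agent.Lib.MP_ec260d_nt Pool.Agent.Lib.MP_ec260d_ntH

/-- the size of the monomials in the parameters -/
theorem yG {r : ℕ} {β c : ℝ} (hβ : 1 ≤ β) (hcβ : c ≤ 1 / (8 * β)) {N a : ℝ} (hN : 1 ≤ N)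
    {b n : Fin r → ℝ} (ha : N ^ (-c) ≤ a ∧ a ≤ N ^ c) (hb : ∀ l, 0 ≤ b l ∧ b l ≤ β)
    (hb' : ∃ l, β⁻¹ ≤ b l) (hn : ∀ l, N ^ ((1 : ℝ) / 2) ≤ n l ∧ n l ≤ N) :
    N ^ (3 / (8 * β)) ≤ a * ∏ l, n l ^ b l ∧ a * ∏ l, n l ^ b l ≤ N ^ (r * β + 1) := by
  have hβ0 : 0 < β := by linarith
  have hN0 : 0 < N := by linarith
  have hp : ∀ e : ℝ, 0 < N ^ e := fun e => Real.rpow_pos_of_pos hN0 e
  have hn1 : ∀ l, 1 ≤ n l := fun l => (Real.one_le_rpow hN (by norm_num)).trans (hn l).1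
  have hc8 : c ≤ 1 := by
    refine hcβ.trans ?_
    rw [div_le_one (by positivity)]
    linarith
  have hfac : ∀ l, 1 ≤ n l ^ b l := fun l => Real.one_le_rpow (hn1 l) (hb l).1
  constructor
  · obtain ⟨l, hl⟩ := hb'
    have h1 : n l ^ b l ≤ ∏ m, n m ^ b m := by
      rw [← Finset.mul_prod_erase Finset.univ _ (Finset.mem_univ l)]
      exact le_mul_of_one_le_right (by linarith [hfac l]) (Finset.one_le_prod fun m _ => hfac m)
    have h2 : N ^ (1 / (2 * β)) ≤ n l ^ b l := by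
      calc N ^ (1 / (2 * β)) = (N ^ ((1 : ℝ) / 2)) ^ (β⁻¹) := by
            rw [← Real.rpow_mul hN0.le]; congr 1; field_simp
        _ ≤ (n l) ^ (β⁻¹) := Real.rpow_le_rpow (hp _).le (hn l).1 (inv_pos.2 hβ0).le
        _ ≤ _ := Real.rpow_le_rpow_of_exponent_le (hn1 l) hl
    calc N ^ (3 / (8 * β)) ≤ N ^ (-c + 1 / (2 * β)) := by
          refine Real.rpow_le_rpow_of_exponent_le hN ?_
          have : 3 / (8 * β) = 1 / (2 * β) - 1 / (8 * β) := by field_simp; norm_num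
          linarith
      _ = N ^ (-c) * N ^ (1 / (2 * β)) := Real.rpow_add hN0 _ _
      _ ≤ _ := mul_le_mul ha.1 (h2.trans h1) (hp _).le ((hp _).le.trans ha.1)
  · have h1 : ∏ l, n l ^ b l ≤ ∏ _l : Fin r, N ^ β := by
      refine Finset.prod_le_prod (fun l _ => by linarith [hfac l]) fun l _ => ?_
      calc n l ^ b l ≤ N ^ b l := Real.rpow_le_rpow (by linarith [hn1 l]) (hn l).2 (hb l).1
        _ ≤ N ^ β := Real.rpow_le_rpow_of_exponent_le hN (hb l).2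
    rw [Finset.prod_const, Finset.card_univ, Fintype.card_fin, ← Real.rpow_natCast, ← Real.rpow_mul hN0.le] at h1
    have h2 : 0 ≤ ∏ l, n l ^ b l := Finset.prod_nonneg fun l _ => by linarith [hfac l]
    calc a * ∏ l, n l ^ b l ≤ N ^ c * N ^ (β * r) := mul_le_mul ha.2 h1 h2 (hp _).le
      _ = N ^ (c + β * r) := (Real.rpow_add hN0 _ _).symm
      _ ≤ _ := Real.rpow_le_rpow_of_exponent_le hN (by linarith)

/-- the model values -/
noncomputable def XX {r k : ℕ} (a : Fin k → ℝ) (b : Fin k → Fin r → ℝ) (B D₀ : ℝ) (n : Fin r → ℝ) :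
    Fin r ⊕ Fin k → ℝ := Sum.elim n fun i => Sy B D₀ (a i * ∏ l, n l ^ b i l)

theorem HH_log {r k D : ℕ} (a : Fin k → ℝ) (b : Fin k → Fin r → ℝ) (B D₀ : ℝ) (n : Fin r → ℝ)
    (hn : ∀ l, 0 < n l) (α : Iy r k D) :
    HH a b B D₀ α (fun l => Real.log (n l)) = ∏ o, XX a b B D₀ n o ^ (α o : ℕ) := by
  rw [Fintype.prod_sum_type]
  unfold HH XX
  simp only [Sum.elim_inl, Sum.elim_inr]
  congr 1
  · unfold el
    rw [Real.exp_sum]
    refine Finset.prod_congr rfl fun l _ => ?_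
    rw [Real.exp_nat_mul, Real.exp_log (hn l)]
  · refine Finset.prod_congr rfl fun i _ => ?_
    have h1 : Real.exp (dt (b i) fun l => Real.log (n l)) = ∏ l, n l ^ b i l := by
      unfold dt
      rw [Real.exp_sum]
      refine Finset.prod_congr rfl fun l _ => ?_
      rw [Real.rpow_def_of_pos (hn l), mul_comm]
    rw [h1]

theorem unifG (r k D : ℕ) (hr : 0 < r) (β θ κ : ℝ) (hβ : 1 ≤ β) (hθ : 0 < θ) (hκ : 0 < κ) :
    ∃ c C : ℝ, 0 < c ∧ ∀ N : ℕ, 1 ≤ N → ∀ S : Finset (ℝ × (Fin r → ℝ)), (S.card : ℝ) ≤ (N : ℝ) ^ c →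
      (∀ p ∈ S, (N : ℝ) ^ (-c) ≤ p.1 ∧ p.1 ≤ (N : ℝ) ^ c ∧ (∀ l, 0 ≤ p.2 l ∧ p.2 l ≤ β) ∧
        ∃ l, β⁻¹ ≤ p.2 l) →
      (∀ p ∈ S, ∀ q ∈ S, p ≠ q → (N : ℝ) ^ (-c) ≤ |p.1 - q.1| + ∑ l, |p.2 l - q.2 l|) →
      ∀ A : Finset ℂ, (A.card : ℝ) ≤ (N : ℝ) ^ c →
        ∃ E : Finset (Fin r → ℕ), (E.card : ℝ) ≤ C * (N : ℝ) ^ ((r : ℝ) - c) ∧
          ∀ n : Fin r → ℕ, (∀ l, 1 ≤ n l ∧ n l ≤ N) → n ∉ E →
            ∀ g : Fin k → ℝ × (Fin r → ℝ), Function.Injective g → (∀ i, g i ∈ S) →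
            ∀ P : MvPolynomial (Fin r ⊕ Fin k) ℂ, P ≠ 0 → P.totalDegree ≤ D →
              (∀ α ∈ P.support, P.coeff α ∈ A) → ∀ s : Fin k → ℝ,
                (∀ i, |(zeroCount (s i) : ℝ) - (g i).1 * ∏ l, (n l : ℝ) ^ (g i).2 l| ≤
                  ((g i).1 * ∏ l, (n l : ℝ) ^ (g i).2 l) ^ (1 - θ)) →
                MvPolynomial.eval (Sum.elim (fun l => (n l : ℂ)) (fun i => ((s i : ℝ) : ℂ))) P ≠ 0 ∧
                ∀ α : Fin r ⊕ Fin k →₀ ℕ,
                  ‖P.coeff α‖ * ((∏ l, (n l : ℝ) ^ (α (.inl l))) * ∏ i, |s i| ^ (α (.inr i))) ≤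
                  (N : ℝ) ^ κ *
                    ‖MvPolynomial.eval (Sum.elim (fun l => (n l : ℂ)) (fun i => ((s i : ℝ) : ℂ))) P‖ := by
  classical
  have hβ0 : 0 < β := by linarith
  obtain ⟨B, D₀, hB, hD, hord'⟩ := ord_realL
  obtain ⟨C', y₀, hC', hord''⟩ := hord' 1 one_pos
  have hord : ∀ y : ℝ, y₀ ≤ y → ∀ τ : ℝ, 0 ≤ τ → τ ≤ 1 / 2 → ∀ s : ℝ,
      |(zeroCount s : ℝ) - y| ≤ τ * y → |s - (y / B) / lam (y / D₀)| ≤ C' * (τ * y + y ^ ((1 : ℝ) / 2)) := by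
    intro y hy τ h0 h1 s hs
    have := hord'' y hy τ h0 h1 s (by rw [one_mul]; exact hs)
    rwa [one_mul] at this
  obtain ⟨K, J, C₁, hC₁, hblock⟩ := lineCov r k D β hβ
  set M := Fintype.card (Iy r k D) with hM
  set V := Fintype.card (Fin r ⊕ Fin k) with hV
  set γ := min (θ / (4 * β)) (1 / (8 * β)) with hγ
  have hγ0 : 0 < γ := lt_min (by positivity) (by positivity)
  set δ := min (min κ (γ / 2)) (1 / 4) with hδdef
  have hδ : 0 < δ := lt_min (lt_min hκ (by positivity)) (by norm_num)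
  have hδκ : δ ≤ κ := (min_le_left _ _).trans (min_le_left _ _)
  have hδγ : δ ≤ γ / 2 := (min_le_left _ _).trans (min_le_right _ _)
  have hδ1 : δ ≤ 1 / 4 := min_le_right _ _
  set lm := δ / (2 * (J + 1)) with hlm
  have hlm0 : 0 < lm := by positivity
  have hlmδ : lm ≤ δ / 2 := by
    rw [hlm]
    refine div_le_div_of_nonneg_left hδ.le (by norm_num) ?_
    have : (0 : ℝ) ≤ J := Nat.cast_nonneg _
    linarith
  have hlmJ : lm * J ≤ δ / 2 := by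
    rw [hlm, div_mul_eq_mul_div, div_le_div_iff₀ (by positivity) (by norm_num)]
    nlinarith
  set Q : ℝ := 8 * ((k : ℝ) + k * k) * K with hQ
  have hQ0 : 0 ≤ Q := by positivity
  set c := min (1 / (8 * β)) (lm / (2 * (k + M + 1 + Q))) with hc
  have hc0 : 0 < c := lt_min (by positivity) (by positivity)
  have hcβ : c ≤ 1 / (8 * β) := min_le_left _ _
  have hcQ : c * (k + M + 1 + Q) ≤ lm / 2 := by
    have h1 : c ≤ lm / (2 * (k + M + 1 + Q)) := min_le_right _ _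
    rw [le_div_iff₀ (by positivity)] at h1
    linarith
  have hc8 : c ≤ 1 / 8 := by
    refine hcβ.trans ?_
    rw [div_le_div_iff₀ (by positivity) (by norm_num)]
    linarith
  have hcQ' : c * Q ≤ δ / 4 := by
    have h1 : 0 ≤ c * (k + M + 1) := by positivity
    have h2 : c * (k + M + 1 + Q) = c * (k + M + 1) + c * Q := by ring
    linarith
  set R₀ : ℝ := r * D + k * (D * (r * β)) with hR₀
  have hR₀0 : 0 ≤ R₀ := by positivity
  -- the largeness conditions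
  have hev : ∀ᶠ N : ℕ in atTop, (∀ S A np : ℝ, 0 ≤ S → S ≤ (N : ℝ) ^ c → 0 ≤ A → A ≤ (N : ℝ) ^ c → 0 ≤ np →
      np ≤ 2 * C₁ * (N : ℝ) ^ (c * Q) →
      r * ((N : ℝ) ^ ((1 : ℝ) / 2) * (N : ℝ) ^ (r - 1)) + (2 * (N : ℝ)) ^ r *
        ((S ^ k * (A + 1) ^ M) * (np * 2 ^ J * (N : ℝ) ^ (-lm)) * (2 * Real.log N) ^ r +
        S ^ 2 * (2 * (N : ℝ) ^ (-(7 * c)) * (r / (N : ℝ) ^ (-(3 * c))) * (2 * Real.log N) ^ r)) ≤
      (N : ℝ) ^ ((r : ℝ) - c)) ∧
      (∀ (a : Fin k → ℝ) (b : Fin k → Fin r → ℝ), (∀ i, (N : ℝ) ^ (-c) ≤ a i ∧ a i ≤ (N : ℝ) ^ c) →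
      (∀ i l, 0 ≤ b i l ∧ b i l ≤ β) → (∀ i, ∃ l, β⁻¹ ≤ b i l) →
      (∀ i j, i ≠ j → (N : ℝ) ^ (-c) ≤ |a i - a j| + ∑ l, |b i l - b j l|) →
      ∀ v : Fin r → ℝ, (∀ l, Real.log N / 3 ≤ v l ∧ v l ≤ Real.log N + 1) →
      (∀ i j, i ≠ j → (N : ℝ) ^ (-(3 * c)) ≤ ∑ l, |b i l - b j l| →
        (N : ℝ) ^ (-(7 * c)) ≤ |Real.log (a i) - Real.log (a j) + dt (fun l => b i l - b j l) v|) →
      ∃ f : Fin k → Fin k → Bool, ∀ t ∈ Icc (0 : ℝ) 1, ((N : ℝ) ^ (-(8 * c))) ^ (k + k * k) ≤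
        |rr (fun i => a i * Real.exp (dt (b i) v)) (fun i => dt (b i) (om r D)) D₀ f t|) ∧
      (∀ y s : ℝ, (N : ℝ) ^ (3 / (8 * β)) ≤ y → y ≤ (N : ℝ) ^ (r * β + 1) →
        |(zeroCount s : ℝ) - y| ≤ y ^ (1 - θ) → |s - Sy B D₀ y| ≤ (N : ℝ) ^ (-γ) * Sy B D₀ y) ∧
      (N : ℝ) ^ (-δ) ≤ 1 / 8 ∧ 2 ^ (V * D) * (N : ℝ) ^ (-δ) ≤ 1 ∧ 8 * C₁ ≤ (N : ℝ) ^ (δ / 4) ∧
      6 * ((D : ℝ) + 1) ^ r + 6 ≤ Real.log N ∧ R₀ * (N : ℝ) ^ (-((1 : ℝ) / 2)) ≤ (N : ℝ) ^ (-δ) ∧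
      (1 : ℝ) ≤ N := by
    have hcast : Tendsto (fun N : ℕ => (N : ℝ)) atTop atTop := tendsto_natCast_atTop_atTop
    have e1 := hcast.eventually (numG r k M J hr C₁ lm c (c * Q) (by linarith) hlm0 hc0
      (by linarith) (by linarith))
    have e2 := hcast.eventually (sepG k r β D₀ c (((D : ℝ) + 1) ^ r) hβ hc0 hD hcβ (om r D)
      (fun l => om_ge l) (fun l => om_le l))
    have e3 := hcast.eventually (pertG hB hD hC' hord β θ (r * β + 1) hβ hθ (by positivity))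
    have t1 : Tendsto (fun N : ℝ => N ^ (-δ)) atTop (𝓝 0) := tendsto_rpow_neg_atTop hδ
    have e4 := hcast.eventually (t1.eventually_le_const (show (0 : ℝ) < 1 / 8 by norm_num))
    have t2 : Tendsto (fun N : ℝ => 2 ^ (V * D) * N ^ (-δ)) atTop (𝓝 0) := by
      simpa using t1.const_mul ((2 : ℝ) ^ (V * D))
    have e5 := hcast.eventually (t2.eventually_le_const (show (0 : ℝ) < 1 by norm_num))
    have e6 := hcast.eventually
      ((tendsto_rpow_atTop (show (0 : ℝ) < δ / 4 by positivity)).eventually_ge_atTop (8 * C₁))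
    have e7 := hcast.eventually
      (Real.tendsto_log_atTop.eventually_ge_atTop (6 * ((D : ℝ) + 1) ^ r + 6))
    have e8 : ∀ᶠ N : ℕ in atTop, R₀ * (N : ℝ) ^ (-((1 : ℝ) / 2)) ≤ (N : ℝ) ^ (-δ) := by
      have h1 := hcast.eventually ((tendsto_rpow_atTop (show (0 : ℝ) < 1 / 4 by norm_num)).eventually_ge_atTop R₀)
      filter_upwards [h1, hcast.eventually (eventually_ge_atTop (1 : ℝ))] with N h1 h2
      have hN0 : (0 : ℝ) < N := by linarith
      calc R₀ * (N : ℝ) ^ (-((1 : ℝ) / 2)) ≤ (N : ℝ) ^ ((1 : ℝ) / 4) * (N : ℝ) ^ (-((1 : ℝ) / 2)) :=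
            mul_le_mul_of_nonneg_right h1 (Real.rpow_nonneg hN0.le _)
        _ = (N : ℝ) ^ ((1 : ℝ) / 4 + -((1 : ℝ) / 2)) := (Real.rpow_add hN0 _ _).symm
        _ ≤ _ := Real.rpow_le_rpow_of_exponent_le h2 (by linarith)
    have e9 := hcast.eventually (eventually_ge_atTop (1 : ℝ))
    filter_upwards [e1, e2, e3, e4, e5, e6, e7, e8, e9] with N h1 h2 h3 h4 h5 h6 h7 h8 h9
    exact ⟨h1, h2, h3, h4, h5, h6, h7, h8, h9⟩
  obtain ⟨N₀, hN₀⟩ := eventually_atTop.1 hev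
  have hr1 : (1 : ℝ) ≤ r := by exact_mod_cast hr
  refine ⟨c, (N₀ : ℝ) ^ r + 1, hc0, fun N hN S hScard hS1 hS2 A hA => ?_⟩
  have hNpos : (0 : ℝ) < N := by exact_mod_cast (by omega : 0 < N)
  have hN1' : (1 : ℝ) ≤ N := by exact_mod_cast hN
  have hNc : 1 ≤ (N : ℝ) ^ ((r : ℝ) - c) := Real.one_le_rpow hN1' (by linarith)
  have hN₀0 : (0 : ℝ) ≤ (N₀ : ℝ) ^ r := by positivity
  rcases lt_or_ge N N₀ with hlt | hge
  · refine ⟨Fintype.piFinset fun _ => Finset.Icc 1 N, ?_, fun n h2 h3 => ?_⟩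
    · rw [Fintype.card_piFinset, Finset.prod_const, Finset.card_univ, Fintype.card_fin, Nat.card_Icc,
        Nat.add_sub_cancel]
      push_cast
      have h1 : (N : ℝ) ^ r ≤ (N₀ : ℝ) ^ r :=
        pow_le_pow_left₀ hNpos.le (by exact_mod_cast hlt.le) _
      have h3 : ((N₀ : ℝ) ^ r + 1) * 1 ≤ ((N₀ : ℝ) ^ r + 1) * (N : ℝ) ^ ((r : ℝ) - c) :=
        mul_le_mul_of_nonneg_left hNc (by linarith)
      linarith
    · exact absurd (Fintype.mem_piFinset.2 fun l => Finset.mem_Icc.2 (h2 l)) h3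
  obtain ⟨hnum, hsep, hpert, hη8, hpw, hC₁N, hlogN, hR₀N, -⟩ := hN₀ N hge
  have hp : ∀ e : ℝ, 0 < (N : ℝ) ^ e := fun e => Real.rpow_pos_of_pos hNpos e
  set η : ℝ := 4 * (N : ℝ) ^ (-δ) with hη
  have hη0 : 0 < η := by have := hp (-δ); positivity
  have hη12 : η ≤ 1 / 2 := by rw [hη]; linarith
  set ρ : ℝ := ((N : ℝ) ^ (-(8 * c))) ^ (k + k * k) with hρ
  have hρ0 : 0 < ρ := pow_pos (hp _) _
  have hρK : ρ ^ K = (N : ℝ) ^ (-(c * Q)) := by
    rw [hρ, ← pow_mul, ← Real.rpow_natCast, ← Real.rpow_mul hNpos.le]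
    congr 1
    rw [hQ]
    push_cast
    ring
  set np : ℕ := ⌈C₁ * (N : ℝ) ^ (c * Q)⌉₊ with hnp
  have hNcQ : 1 ≤ (N : ℝ) ^ (c * Q) := Real.one_le_rpow hN1' (by positivity)
  have hCN : 1 ≤ C₁ * (N : ℝ) ^ (c * Q) := one_le_mul_of_one_le_of_one_le hC₁ hNcQ
  have hnp0 : 0 < np := Nat.ceil_pos.2 (by linarith)
  have hnp1 : C₁ ≤ np * ρ ^ K := by
    have h1 : C₁ * (N : ℝ) ^ (c * Q) ≤ np := Nat.le_ceil _
    have h2 : (N : ℝ) ^ (c * Q) * (N : ℝ) ^ (-(c * Q)) = 1 := by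
      rw [← Real.rpow_add hNpos, add_neg_cancel, Real.rpow_zero]
    rw [hρK]
    calc C₁ = (C₁ * (N : ℝ) ^ (c * Q)) * (N : ℝ) ^ (-(c * Q)) := by rw [mul_assoc, h2, mul_one]
      _ ≤ _ := mul_le_mul_of_nonneg_right h1 (hp _).le
  have hnp2 : (np : ℝ) ≤ 2 * C₁ * (N : ℝ) ^ (c * Q) := by
    have := Nat.ceil_lt_add_one (show 0 ≤ C₁ * (N : ℝ) ^ (c * Q) by linarith)
    rw [← hnp] at this
    linarith
  set l₀ : ℝ := (N : ℝ) ^ (-lm) with hl
  have hl0 : 0 < l₀ := hp _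
  have hl1 : l₀ ≤ 1 := Real.rpow_le_one_of_one_le_of_nonpos hN1' (by linarith)
  have hCη : C₁ * (2 * η) ≤ ρ ^ K * l₀ ^ J := by
    have h1 : l₀ ^ J = (N : ℝ) ^ (-(lm * J)) := by
      rw [hl, ← Real.rpow_natCast, ← Real.rpow_mul hNpos.le]; congr 1; ring
    rw [hρK, h1, ← Real.rpow_add hNpos, hη]
    have h2 : (N : ℝ) ^ (δ / 4) * (N : ℝ) ^ (-δ) ≤ (N : ℝ) ^ (-(c * Q) + -(lm * J)) := by
      rw [← Real.rpow_add hNpos]
      exact Real.rpow_le_rpow_of_exponent_le hN1' (by linarith)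
    calc C₁ * (2 * (4 * (N : ℝ) ^ (-δ))) = (8 * C₁) * (N : ℝ) ^ (-δ) := by ring
      _ ≤ (N : ℝ) ^ (δ / 4) * (N : ℝ) ^ (-δ) := mul_le_mul_of_nonneg_right hC₁N (hp _).le
      _ ≤ _ := h2
  have hG : Real.exp (R₀ * (N : ℝ) ^ (-((1 : ℝ) / 2))) ≤ 1 + η := by
    have h1 : R₀ * (N : ℝ) ^ (-((1 : ℝ) / 2)) ≤ 1 := by linarith
    have h0 : 0 ≤ R₀ * (N : ℝ) ^ (-((1 : ℝ) / 2)) := mul_nonneg hR₀0 (hp _).le
    have h2 := Real.abs_exp_sub_one_le (x := R₀ * (N : ℝ) ^ (-((1 : ℝ) / 2))) (by rw [abs_of_nonneg h0]; exact h1)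
    rw [abs_of_nonneg h0] at h2
    have h3 := (abs_le.1 h2).2
    rw [hη]
    have := hp (-δ)
    linarith
  set GG' : Finset (Fin k → ℝ × (Fin r → ℝ)) :=
    (Fintype.piFinset (fun _ : Fin k => S)).filter Function.Injective with hGG
  have hGGcard : (GG'.card : ℝ) ≤ (S.card : ℝ) ^ k := by
    have h1 : GG'.card ≤ S.card ^ k := by
      refine (Finset.card_filter_le _ _).trans ?_
      rw [Fintype.card_piFinset, Finset.prod_const, Finset.card_univ, Fintype.card_fin]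
    exact_mod_cast h1
  have hGGS : ∀ g ∈ GG', ∀ i, g i ∈ S := by
    intro g hg
    rw [hGG, Finset.mem_filter, Fintype.mem_piFinset] at hg
    exact hg.1
  have hGGinj : ∀ g ∈ GG', Function.Injective g := fun g hg => (Finset.mem_filter.1 hg).2
  set CC : Finset (Iy r k D → ℂ) := Fintype.piFinset (fun _ => insert 0 A) with hCC
  have hCCcard : (CC.card : ℝ) ≤ ((A.card : ℝ) + 1) ^ M := by
    have h1 : CC.card ≤ (A.card + 1) ^ M := by
      rw [hCC, Fintype.card_piFinset, Finset.prod_const, Finset.card_univ]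
      exact Nat.pow_le_pow_left (Finset.card_insert_le _ _) _
    exact_mod_cast h1
  obtain ⟨E₀, hE₀card, hE₀⟩ := smallG r N
  set F : Finset (Fin r → ℕ) := (Fintype.piFinset fun _ : Fin r => Finset.Icc 1 N).filter fun n =>
    (∀ l, (N : ℝ) ^ ((1 : ℝ) / 2) < n l) ∧ ∃ g ∈ GG', ∃ cc ∈ CC,
      ‖∑ α, cc α * ((HH (fun i => (g i).1) (fun i => (g i).2) B D₀ α (fun l => Real.log (n l)) : ℝ) : ℂ)‖ <
        η * ∑ α, ‖cc α‖ * HH (fun i => (g i).1) (fun i => (g i).2) B D₀ α (fun l => Real.log (n l)) with hF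
  have hFcard := countG (m := np * 2 ^ J) hβ0.le hB hD N hN S
    (fun p hpS => ⟨(hp _).trans_le (hS1 p hpS).1, (hS1 p hpS).2.2.1⟩) GG' hGGS CC η
    ((N : ℝ) ^ (-(7 * c))) ((N : ℝ) ^ (-(3 * c))) l₀ hη0 (hp _) (hp _) hl0 hlogN hG (by
      intro g hg cc _ v hv hvZ
      have hgS := hGGS g hg
      obtain ⟨f, hf⟩ := hsep (fun i => (g i).1) (fun i => (g i).2)
        (fun i => ⟨(hS1 _ (hgS i)).1, (hS1 _ (hgS i)).2.1⟩) (fun i => (hS1 _ (hgS i)).2.2.1)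
        (fun i => (hS1 _ (hgS i)).2.2.2)
        (fun i j hij => hS2 _ (hgS i) _ (hgS j) fun h => hij (hGGinj g hg h)) v hv (by
          intro i j _ h2
          by_contra hcon
          push Not at hcon
          exact hvZ ⟨g i, hgS i, g j, hgS j, h2, hcon⟩)
      exact hblock (fun i => (g i).1) (fun i => (g i).2) B D₀
        (fun i => (hp _).trans_le (hS1 _ (hgS i)).1) (fun i => (hS1 _ (hgS i)).2.2.1)
        (fun i => (hS1 _ (hgS i)).2.2.2) hB hD f ρ v hρ0 hf np hnp0 hnp1 cc (2 * η) l₀ (by positivity)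
        hl0 hl1 hCη) F (by
      intro n hn
      rw [hF, Finset.mem_filter, Fintype.mem_piFinset] at hn
      exact ⟨fun l => Finset.mem_Icc.1 (hn.1 l), hn.2.1, hn.2.2⟩)
  refine ⟨E₀ ∪ F, ?_, ?_⟩
  · have h1 : ((E₀ ∪ F).card : ℝ) ≤ E₀.card + F.card := by exact_mod_cast Finset.card_union_le _ _
    have h2 := hnum (S.card : ℝ) (A.card : ℝ) (np : ℝ) (Nat.cast_nonneg _) hScard (Nat.cast_nonneg _) hA
      (Nat.cast_nonneg _) hnp2
    have hlog0 : 0 ≤ Real.log N := Real.log_nonneg hN1'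
    have h3 : (2 * (N : ℝ)) ^ r * (((GG'.card : ℝ) * CC.card) * (((np * 2 ^ J : ℕ) : ℝ) * l₀) *
        (2 * Real.log N) ^ r + (S.card : ℝ) ^ 2 * (2 * (N : ℝ) ^ (-(7 * c)) * (r / (N : ℝ) ^ (-(3 * c))) *
          (2 * Real.log N) ^ r)) ≤
        (2 * (N : ℝ)) ^ r * (((S.card : ℝ) ^ k * ((A.card : ℝ) + 1) ^ M) * (np * 2 ^ J * l₀) *
        (2 * Real.log N) ^ r + (S.card : ℝ) ^ 2 * (2 * (N : ℝ) ^ (-(7 * c)) * (r / (N : ℝ) ^ (-(3 * c))) *
          (2 * Real.log N) ^ r)) := by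
      push_cast
      gcongr
    have h4 : 0 ≤ (N₀ : ℝ) ^ r * (N : ℝ) ^ ((r : ℝ) - c) := mul_nonneg hN₀0 (by linarith)
    linarith
  · intro n hn hnE g hginj hgS P hP0 hPD hPA s hs
    rw [Finset.mem_union, not_or] at hnE
    obtain ⟨hnE1, hnE2⟩ := hnE
    have hsqrt := hE₀ n hn hnE1
    have hgmem : g ∈ GG' := by
      rw [hGG, Finset.mem_filter, Fintype.mem_piFinset]
      exact ⟨hgS, hginj⟩
    have hn0 : ∀ l, (0 : ℝ) < n l := fun l => by exact_mod_cast (by have := (hn l).1; omega : 0 < n l)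
    set a : Fin k → ℝ := fun i => (g i).1 with ha'
    set b : Fin k → Fin r → ℝ := fun i => (g i).2 with hb'
    have ha : ∀ i, 0 < a i := fun i => (hp _).trans_le (hS1 _ (hgS i)).1
    set X : Fin r ⊕ Fin k → ℝ := XX a b B D₀ (fun l => (n l : ℝ)) with hX
    set x : Fin r ⊕ Fin k → ℝ := Sum.elim (fun l => (n l : ℝ)) s with hx
    have hXpos : ∀ o, 0 < X o := by
      intro o
      cases o with
      | inl l => exact hn0 l
      | inr i =>
        exact Sy_pos hB hD (mul_pos (ha i) (Finset.prod_pos fun l _ => Real.rpow_pos_of_pos (hn0 l) _))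
    have hPmem : (fun α : Iy r k D => P.coeff (phv α)) ∈ CC := by
      rw [hCC, Fintype.mem_piFinset]
      intro α
      by_cases h0 : P.coeff (phv α) = 0
      · rw [h0]; exact Finset.mem_insert_self _ _
      · exact Finset.mem_insert_of_mem (hPA _ (MvPolynomial.mem_support_iff.2 h0))
    have hgood : η * ∑ α : Iy r k D, ‖P.coeff (phv α)‖ * ∏ o, X o ^ (α o : ℕ) ≤
        ‖∑ α : Iy r k D, P.coeff (phv α) * ((∏ o, X o ^ (α o : ℕ) : ℝ) : ℂ)‖ := by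
      by_contra hcon
      push Not at hcon
      apply hnE2
      rw [hF, Finset.mem_filter, Fintype.mem_piFinset]
      refine ⟨fun l => Finset.mem_Icc.2 (hn l), hsqrt, g, hgmem, _, hPmem, ?_⟩
      have h1 : ∀ α : Iy r k D, HH (fun i => (g i).1) (fun i => (g i).2) B D₀ α
          (fun l => Real.log (n l)) = ∏ o, X o ^ (α o : ℕ) := fun α =>
        HH_log a b B D₀ (fun l => (n l : ℝ)) hn0 α
      simp only [h1]
      exact hcon
    have hε0 : 0 ≤ (N : ℝ) ^ (-γ) := (hp _).le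
    have hεη : 2 ^ (V * D) * (N : ℝ) ^ (-γ) ≤ η / 2 := by
      have h1 : (N : ℝ) ^ (-γ) ≤ (N : ℝ) ^ (-δ) * (N : ℝ) ^ (-δ) := by
        rw [← Real.rpow_add hNpos]
        exact Real.rpow_le_rpow_of_exponent_le hN1' (by linarith)
      have hNδ := hp (-δ)
      calc 2 ^ (V * D) * (N : ℝ) ^ (-γ) ≤
            2 ^ (V * D) * ((N : ℝ) ^ (-δ) * (N : ℝ) ^ (-δ)) := by gcongr
        _ = (2 ^ (V * D) * (N : ℝ) ^ (-δ)) * (N : ℝ) ^ (-δ) := by ring
        _ ≤ 1 * (N : ℝ) ^ (-δ) := by gcongr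
        _ ≤ η / 2 := by rw [hη]; linarith
    have hclose : ∀ o, |x o - X o| ≤ (N : ℝ) ^ (-γ) * X o := by
      intro o
      cases o with
      | inl l =>
        have h1 : x (.inl l) - X (.inl l) = 0 := sub_self _
        rw [h1, abs_zero]
        exact mul_nonneg hε0 (hXpos _).le
      | inr i =>
        have h1 := yG hβ hcβ hN1' (a := a i) (b := b i) (n := fun l => (n l : ℝ))
          ⟨(hS1 _ (hgS i)).1, (hS1 _ (hgS i)).2.1⟩ (hS1 _ (hgS i)).2.2.1 (hS1 _ (hgS i)).2.2.2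
          (fun l => ⟨(hsqrt l).le, by exact_mod_cast (hn l).2⟩)
        exact hpert _ (s i) h1.1 h1.2 (hs i)
    have hmain := good_pertV (D := D) hXpos hε0 hη0 (by linarith) hεη hclose P hPD hgood
    have hspos : ∀ i, |s i| = s i := by
      intro i
      have h1 := abs_le.1 (hclose (.inr i))
      have h2 : 0 < X (.inr i) := hXpos (.inr i)
      have h3 : (N : ℝ) ^ (-γ) ≤ 1 / 4 := by
        have h4 : (1 : ℝ) ≤ 2 ^ (V * D) := one_le_pow₀ one_le_two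
        have h6 : 1 * (N : ℝ) ^ (-γ) ≤ 2 ^ (V * D) * (N : ℝ) ^ (-γ) :=
          mul_le_mul_of_nonneg_right h4 hε0
        linarith
      have h5 : (N : ℝ) ^ (-γ) * X (.inr i) ≤ 1 / 4 * X (.inr i) :=
        mul_le_mul_of_nonneg_right h3 h2.le
      have h6 : x (.inr i) = s i := rfl
      rw [h6] at h1
      exact abs_of_nonneg (by linarith [h1.1])
    have hvv : (Sum.elim (fun l => (n l : ℂ)) (fun i => ((s i : ℝ) : ℂ)) : Fin r ⊕ Fin k → ℂ) =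
        fun o => ((x o : ℝ) : ℂ) := by
      funext o
      cases o with
      | inl l => simp [hx]
      | inr i => simp [hx]
    rw [hvv]
    have h4η : 4 / η ≤ (N : ℝ) ^ κ := by
      have h1 : 4 / η = (N : ℝ) ^ δ := by
        rw [hη, Real.rpow_neg hNpos.le]
        have : (N : ℝ) ^ δ ≠ 0 := (Real.rpow_pos_of_pos hNpos _).ne'
        field_simp
      rw [h1]
      exact Real.rpow_le_rpow_of_exponent_le hN1' hδκ
    -- exponents occurring in `P`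
    have hex : ∀ d : Fin r ⊕ Fin k →₀ ℕ, P.coeff d ≠ 0 → ∃ α : Iy r k D, phv α = d := by
      intro d hd
      have hle : ∀ o, d o ≤ D := fun o =>
        (MvPolynomial.monomial_le_degreeOf o (MvPolynomial.mem_support_iff.2 hd)).trans
          ((MvPolynomial.degreeOf_le_totalDegree P o).trans hPD)
      refine ⟨fun o => ⟨d o, Nat.lt_succ_of_le (hle o)⟩, ?_⟩
      ext o
      rw [phv_apply]
    constructor
    · obtain ⟨d, hd⟩ := MvPolynomial.ne_zero_iff.1 hP0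
      obtain ⟨α, rfl⟩ := hex d hd
      obtain ⟨h1, h2⟩ := hmain α
      intro h0
      rw [h0, norm_zero, mul_zero] at h2
      have h3 : 0 < ‖P.coeff (phv α)‖ * ∏ o, x o ^ (α o : ℕ) :=
        mul_pos (norm_pos_iff.2 hd) h1
      linarith
    · intro d
      by_cases hd : P.coeff d = 0
      · rw [hd, norm_zero, zero_mul]
        exact mul_nonneg (Real.rpow_nonneg hNpos.le _) (norm_nonneg _)
      · obtain ⟨α, rfl⟩ := hex d hd
        have h2 := (hmain α).2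
        have h3 : (∏ l, (n l : ℝ) ^ (phv α (.inl l))) * ∏ i, |s i| ^ (phv α (.inr i)) =
            ∏ o, x o ^ (α o : ℕ) := by
          rw [Fintype.prod_sum_type]
          simp only [phv_apply, hspos]
          rfl
        rw [h3]
        exact h2.trans (mul_le_mul_of_nonneg_right h4η (norm_nonneg _))

end Pool.Agent.Lib.MP_ec260d_ntG
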