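import Mathlib
import Pool.Agent.Lib.MP_ec260d_ntG.UnifG
import Pool.Agent.Lib.MP_ec260d_ntG.FixG
import Pool.Agent.Lib.MP_ec260d_ntH.OrdUnif

/-!
# The ordinates: uniform statement for several parameters, finiteness for fixed data
-/

open Set Filter Topology

namespace Pool.Agent.Lib.MP_ec260d_ntG

open Pool.Agent.Lib.MP_ec260d_nt Pool.Agent.Lib.MP_ec260d_ntH

/-- windows of indices and windows of values of the counting function -/
theorem winG (θ : ℝ) (hθ : 0 < θ) : ∃ θ' y₁ : ℝ, 0 < θ' ∧ ∀ y : ℝ, y₁ ≤ y → ∀ m : ℕ,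
    |(m : ℝ) - y| ≤ y ^ (1 - θ) →
      |(zeroCount (ordinate m) : ℝ) - y| ≤ y ^ (1 - θ') ∧ 1 ≤ ordinate m := by
  obtain ⟨C, hC, m₀, hord⟩ := ordinate_spec
  set θ' := min θ (1 / 2) / 2 with hθ'
  have hθ'0 : 0 < θ' := by
    have : 0 < min θ (1 / 2) := lt_min hθ (by norm_num)
    positivity
  have hθ'1 : 2 * θ' ≤ θ := by
    have := min_le_left θ (1 / 2)
    rw [hθ']; linarith
  have hθ'2 : 2 * θ' ≤ 1 / 2 := by
    have := min_le_right θ (1 / 2)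
    rw [hθ']; linarith
  have h1 : ∀ᶠ y : ℝ in atTop, 2 * C + 1 ≤ y ^ θ' := (tendsto_rpow_atTop hθ'0).eventually_ge_atTop _
  have h2 : ∀ᶠ y : ℝ in atTop, 2 ≤ y ^ θ := (tendsto_rpow_atTop hθ).eventually_ge_atTop _
  have h3 : ∀ᶠ y : ℝ in atTop, 2 * ((m₀ : ℝ) + (zeroCount 1 : ℝ) + 1) ≤ y := eventually_ge_atTop _
  obtain ⟨y₁, hy₁⟩ := eventually_atTop.1 (h1.and (h2.and (h3.and (eventually_ge_atTop (1 : ℝ)))))
  refine ⟨θ', y₁, hθ'0, fun y hy m hm => ?_⟩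
  obtain ⟨e1, e2, e3, e4⟩ := hy₁ y hy
  have hy0 : 0 < y := by linarith
  have hhalf : y ^ (1 - θ) ≤ y / 2 := by
    rw [Real.rpow_sub hy0, Real.rpow_one]
    exact div_le_div_of_nonneg_left hy0.le (by norm_num) e2
  have hm' := abs_le.1 hm
  have hmlow : y / 2 ≤ m := by linarith [hm'.1]
  have hmup : (m : ℝ) ≤ 4 * y := by linarith [hm'.2]
  have hz : (0 : ℝ) ≤ zeroCount 1 := Nat.cast_nonneg _
  have hm0 : (0 : ℝ) ≤ m₀ := Nat.cast_nonneg _
  have hmm₀ : m₀ ≤ m := by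
    have : (m₀ : ℝ) ≤ m := by linarith
    exact_mod_cast this
  have hmz : zeroCount 1 < m := by
    have : (zeroCount 1 : ℝ) < m := by linarith
    exact_mod_cast this
  refine ⟨?_, ordinate_ge_one hmz⟩
  have h4 := hord m hmm₀
  have h5 : (m : ℝ) ^ ((1 : ℝ) / 2) ≤ 2 * y ^ ((1 : ℝ) / 2) := by
    calc (m : ℝ) ^ ((1 : ℝ) / 2) ≤ (4 * y) ^ ((1 : ℝ) / 2) :=
          Real.rpow_le_rpow (Nat.cast_nonneg _) hmup (by norm_num)
      _ = (4 : ℝ) ^ ((1 : ℝ) / 2) * y ^ ((1 : ℝ) / 2) := Real.mul_rpow (by norm_num) hy0.le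
      _ = 2 * y ^ ((1 : ℝ) / 2) := by
          congr 1
          rw [show (4 : ℝ) = 2 ^ (2 : ℝ) by norm_num, ← Real.rpow_mul (by norm_num)]
          norm_num
  have h6 : y ^ ((1 : ℝ) / 2) ≤ y ^ (1 - 2 * θ') := Real.rpow_le_rpow_of_exponent_le e4 (by linarith)
  have h7 : y ^ (1 - θ) ≤ y ^ (1 - 2 * θ') := Real.rpow_le_rpow_of_exponent_le e4 (by linarith)
  have h8 : |(zeroCount (ordinate m) : ℝ) - y| ≤ C * (m : ℝ) ^ ((1 : ℝ) / 2) + y ^ (1 - θ) := by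
    have h9 : (zeroCount (ordinate m) : ℝ) - y =
        ((zeroCount (ordinate m) : ℝ) - m) + (m - y) := by ring
    rw [h9]
    exact (abs_add_le _ _).trans (add_le_add h4 hm)
  have h9 : C * (m : ℝ) ^ ((1 : ℝ) / 2) ≤ C * (2 * y ^ (1 - 2 * θ')) :=
    mul_le_mul_of_nonneg_left (h5.trans (by linarith)) hC
  have h10 : y ^ (1 - θ') = y ^ θ' * y ^ (1 - 2 * θ') := by
    rw [← Real.rpow_add hy0]; congr 1; ring
  have h11 : (2 * C + 1) * y ^ (1 - 2 * θ') ≤ y ^ θ' * y ^ (1 - 2 * θ') :=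
    mul_le_mul_of_nonneg_right e1 (Real.rpow_nonneg hy0.le _)
  rw [h10]
  linarith

/-- no relation at `n` (of degree at most `D`, with coefficients in `A`, for indices in `S`), with loss `K` -/
def Gd (r k D : ℕ) (θ K : ℝ) (S : Finset (ℝ × (Fin r → ℝ))) (A : Finset ℂ) (n : Fin r → ℕ) : Prop :=
  ∀ g : Fin k → ℝ × (Fin r → ℝ), Function.Injective g → (∀ i, g i ∈ S) →
    ∀ P : MvPolynomial (Fin r ⊕ Fin k) ℂ, P ≠ 0 → P.totalDegree ≤ D → (∀ α ∈ P.support, P.coeff α ∈ A) →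
      ∀ m : Fin k → ℕ,
        (∀ i, |(m i : ℝ) - (g i).1 * ∏ l, (n l : ℝ) ^ (g i).2 l| ≤
          ((g i).1 * ∏ l, (n l : ℝ) ^ (g i).2 l) ^ (1 - θ)) →
        MvPolynomial.eval (Sum.elim (fun l => (n l : ℂ)) (fun i => ((ordinate (m i) : ℝ) : ℂ))) P ≠ 0 ∧
        ∀ α : Fin r ⊕ Fin k →₀ ℕ,
          ‖P.coeff α‖ * ((∏ l, (n l : ℝ) ^ (α (.inl l))) * ∏ i, (ordinate (m i)) ^ (α (.inr i))) ≤
          K * ‖MvPolynomial.eval (Sum.elim (fun l => (n l : ℂ)) (fun i => ((ordinate (m i) : ℝ) : ℂ))) P‖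

theorem finPoly {V : Type} [Fintype V] (D : ℕ) (A : Finset ℂ) :
    {P : MvPolynomial V ℂ | P.totalDegree ≤ D ∧ ∀ α ∈ P.support, P.coeff α ∈ A}.Finite := by
  classical
  refine Set.Finite.of_finite_image (f := fun P : MvPolynomial V ℂ =>
    fun α : V → Fin (D + 1) => P.coeff (phv α)) ?_ ?_
  · refine (Fintype.piFinset fun _ : V → Fin (D + 1) => insert 0 A).finite_toSet.subset ?_
    rintro _ ⟨P, ⟨-, hP⟩, rfl⟩
    rw [Finset.mem_coe, Fintype.mem_piFinset]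
    intro α
    by_cases h0 : P.coeff (phv α) = 0
    · simp only [h0]
      exact Finset.mem_insert_self _ _
    · exact Finset.mem_insert_of_mem (hP _ (MvPolynomial.mem_support_iff.2 h0))
  · intro P hP Q hQ hPQ
    have hex : ∀ R : MvPolynomial V ℂ, R.totalDegree ≤ D → ∀ d : V →₀ ℕ, R.coeff d ≠ 0 →
        ∃ α : V → Fin (D + 1), phv α = d := by
      intro R hR d hd
      have hle : ∀ o, d o ≤ D := fun o =>
        (MvPolynomial.monomial_le_degreeOf o (MvPolynomial.mem_support_iff.2 hd)).trans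
          ((MvPolynomial.degreeOf_le_totalDegree R o).trans hR)
      refine ⟨fun o => ⟨d o, Nat.lt_succ_of_le (hle o)⟩, ?_⟩
      ext o
      rw [phv_apply]
    ext d
    by_cases h1 : P.coeff d = 0
    · by_cases h2 : Q.coeff d = 0
      · rw [h1, h2]
      · obtain ⟨α, rfl⟩ := hex Q hQ.1 d h2
        exact congrFun hPQ α
    · obtain ⟨α, rfl⟩ := hex P hP.1 d h1
      exact congrFun hPQ α

/-- one parameter, fixed data -/
theorem fixOrd (k D : ℕ) (θ κ : ℝ) (hθ : 0 < θ) (hκ : 0 < κ) (S : Finset (ℝ × (Fin 1 → ℝ)))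
    (hS : ∀ p ∈ S, 0 < p.1 ∧ ∃ l, 0 < p.2 l) (A : Finset ℂ) :
    ∃ n₀ : ℕ, ∀ n : Fin 1 → ℕ, n₀ ≤ n 0 → Gd 1 k D θ ((n 0 : ℝ) ^ κ) S A n := by
  classical
  obtain ⟨θ', y₁, hθ', hwin⟩ := winG θ hθ
  have hall : ∀ᶠ x : ℝ in atTop, ∀ g ∈ Fintype.piFinset (fun _ : Fin k => S),
      ∀ P ∈ {P : MvPolynomial (Fin 1 ⊕ Fin k) ℂ | P.totalDegree ≤ D ∧ ∀ α ∈ P.support, P.coeff α ∈ A},
      Function.Injective g → P ≠ 0 → ∀ s : Fin k → ℝ,
      (∀ i, |(zeroCount (s i) : ℝ) - (g i).1 * x ^ ((g i).2 0)| ≤ ((g i).1 * x ^ ((g i).2 0)) ^ (1 - θ')) →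
      MvPolynomial.eval (Sum.elim (fun _ => (x : ℂ)) (fun i => ((s i : ℝ) : ℂ))) P ≠ 0 ∧
      ∀ α : Fin 1 ⊕ Fin k →₀ ℕ, ‖P.coeff α‖ * (x ^ (α (.inl 0)) * ∏ i, |s i| ^ (α (.inr i))) ≤
        x ^ κ * ‖MvPolynomial.eval (Sum.elim (fun _ => (x : ℂ)) (fun i => ((s i : ℝ) : ℂ))) P‖ := by
    rw [Filter.eventually_all_finset]
    intro g hg
    rw [Filter.eventually_all_finite (finPoly D A)]
    intro P hP
    by_cases hginj : Function.Injective g
    · by_cases hP0 : P = 0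
      · exact Eventually.of_forall fun x _ h => absurd hP0 h
      · rw [Fintype.mem_piFinset] at hg
        have hinj' : Function.Injective (fun i => ((g i).1, (g i).2 0)) := by
          intro i j hij
          apply hginj
          have h1 : (g i).1 = (g j).1 := (Prod.ext_iff.1 hij).1
          have h2 : (g i).2 0 = (g j).2 0 := (Prod.ext_iff.1 hij).2
          refine Prod.ext h1 (funext fun l => ?_)
          rw [Subsingleton.elim l 0]
          exact h2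
        set f : Fin 1 ⊕ Fin k → Option (Fin k) := Sum.elim (fun _ => none) some with hf
        have hfinj : Function.Injective f := by
          rintro (x | x) (y | y) hxy
          · rw [Subsingleton.elim x y]
          · simp [hf] at hxy
          · simp [hf] at hxy
          · simp only [hf, Sum.elim_inr, Option.some.injEq] at hxy
            rw [hxy]
        set P' := MvPolynomial.rename f P with hP'
        have hP'0 : P' ≠ 0 := by
          intro h0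
          exact hP0 (MvPolynomial.rename_injective f hfinj (by rw [← hP', h0, map_zero]))
        obtain ⟨x₀, hx₀⟩ := fixG k (fun i => (g i).1) (fun i => (g i).2 0) (fun i => (hS _ (hg i)).1)
          (fun i => by
            obtain ⟨l, hl⟩ := (hS _ (hg i)).2
            rwa [Subsingleton.elim l 0] at hl) hinj' P' hP'0 θ' κ hθ' hκ
        refine eventually_atTop.2 ⟨x₀, fun x hx _ _ s hs => ?_⟩
        have h1 := hx₀ x hx s hs
        have hev : MvPolynomial.eval (fun o : Option (Fin k) => o.elim (x : ℂ) (fun i => ((s i : ℝ) : ℂ))) P' =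
            MvPolynomial.eval (Sum.elim (fun _ => (x : ℂ)) (fun i => ((s i : ℝ) : ℂ))) P := by
          rw [hP', MvPolynomial.eval_rename]
          congr 1
          congr 1
          funext o
          cases o <;> simp [hf]
        rw [hev] at h1
        refine ⟨h1.1, fun α => ?_⟩
        have h2 := h1.2 (α.mapDomain f)
        have h3 : P'.coeff (α.mapDomain f) = P.coeff α := by
          rw [hP', MvPolynomial.coeff_rename_mapDomain f hfinj]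
        have h4 : (α.mapDomain f) none = α (.inl 0) := by
          have : f (.inl 0) = none := rfl
          rw [← this, Finsupp.mapDomain_apply hfinj]
        have h5 : ∀ i, (α.mapDomain f) (some i) = α (.inr i) := by
          intro i
          have : f (.inr i) = some i := rfl
          rw [← this, Finsupp.mapDomain_apply hfinj]
        rw [h3, h4] at h2
        simp only [h5] at h2
        exact h2
    · exact Eventually.of_forall fun x h => absurd h hginj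
  have hy : ∀ᶠ x : ℝ in atTop, ∀ p ∈ S, y₁ ≤ p.1 * x ^ (p.2 0) := by
    rw [Filter.eventually_all_finset]
    intro p hp
    obtain ⟨h1, l, hl⟩ := hS p hp
    rw [Subsingleton.elim l 0] at hl
    exact ((tendsto_rpow_atTop hl).const_mul_atTop h1).eventually_ge_atTop _
  obtain ⟨x₀, hx₀⟩ := eventually_atTop.1 (hall.and hy)
  refine ⟨⌈x₀⌉₊, fun n hn g hginj hgS P hP0 hPD hPA m hm => ?_⟩
  have hnx : x₀ ≤ n 0 := (Nat.le_ceil _).trans (by exact_mod_cast hn)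
  obtain ⟨h1, h2⟩ := hx₀ _ hnx
  have hprod : ∀ b : Fin 1 → ℝ, ∏ l, (n l : ℝ) ^ b l = (n 0 : ℝ) ^ b 0 := fun b => Fintype.prod_unique _
  have hm' : ∀ i, |(zeroCount (ordinate (m i)) : ℝ) - (g i).1 * (n 0 : ℝ) ^ ((g i).2 0)| ≤
      ((g i).1 * (n 0 : ℝ) ^ ((g i).2 0)) ^ (1 - θ') ∧ 1 ≤ ordinate (m i) := by
    intro i
    have h3 := hm i
    rw [hprod] at h3
    exact hwin _ (h2 _ (hgS i)) _ h3
  have h4 := h1 g (Fintype.mem_piFinset.2 hgS) P ⟨hPD, hPA⟩ hginj hP0 (fun i => ordinate (m i))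
    (fun i => (hm' i).1)
  have hval : (Sum.elim (fun _ => (((n 0 : ℕ) : ℝ) : ℂ)) (fun i => ((ordinate (m i) : ℝ) : ℂ)) :
      Fin 1 ⊕ Fin k → ℂ) = Sum.elim (fun l => (n l : ℂ)) (fun i => ((ordinate (m i) : ℝ) : ℂ)) := by
    funext o
    cases o with
    | inl l =>
      rw [Subsingleton.elim l 0]
      simp
    | inr i => rfl
  rw [hval] at h4
  refine ⟨h4.1, fun α => ?_⟩
  have h5 := h4.2 α
  have h6 : ∏ l, (n l : ℝ) ^ (α (.inl l)) = (n 0 : ℝ) ^ (α (.inl 0)) := Fintype.prod_unique _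
  have h7 : ∀ i, |ordinate (m i)| = ordinate (m i) := fun i => abs_of_nonneg (by linarith [(hm' i).2])
  simp only [h7] at h5
  rw [h6]
  exact h5

theorem ordG (r k D : ℕ) (hr : 0 < r) (β θ κ : ℝ) (hβ : 1 ≤ β) (hθ : 0 < θ) (hκ : 0 < κ) :
    ∃ c C : ℝ, 0 < c ∧ ∀ (S : Finset (ℝ × (Fin r → ℝ))) (A : Finset ℂ), ∃ B : ℕ, ∀ N : ℕ, 1 ≤ N →
      (S.card : ℝ) ≤ (N : ℝ) ^ c → (A.card : ℝ) ≤ (N : ℝ) ^ c →
      (∀ p ∈ S, (N : ℝ) ^ (-c) ≤ p.1 ∧ p.1 ≤ (N : ℝ) ^ c ∧ (∀ l, 0 ≤ p.2 l ∧ p.2 l ≤ β) ∧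
        ∃ l, β⁻¹ ≤ p.2 l) →
      (∀ p ∈ S, ∀ q ∈ S, p ≠ q → (N : ℝ) ^ (-c) ≤ |p.1 - q.1| + ∑ l, |p.2 l - q.2 l|) →
        ∃ E : Finset (Fin r → ℕ), (E.card : ℝ) ≤ C * (N : ℝ) ^ ((r : ℝ) - c) ∧
          (r = 1 → ∀ n ∈ E, ∀ l, n l ≤ B) ∧
          ∀ n : Fin r → ℕ, (∀ l, 1 ≤ n l ∧ n l ≤ N) → n ∉ E → Gd r k D θ ((N : ℝ) ^ κ) S A n := by
  classical
  obtain ⟨θ', y₁, hθ', hwin⟩ := winG θ hθ
  obtain ⟨c₀, C₀, hc₀, hmain⟩ := unifG r k D hr β θ' κ hβ hθ' hκ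
  have hβ0 : 0 < β := by linarith
  set c := min c₀ (1 / (8 * β)) with hc
  have hc0 : 0 < c := lt_min hc₀ (by positivity)
  have hcc₀ : c ≤ c₀ := min_le_left _ _
  have hcβ : c ≤ 1 / (8 * β) := min_le_right _ _
  have hc8 : c ≤ 1 / 8 := by
    refine hcβ.trans ?_
    rw [div_le_div_iff₀ (by positivity) (by norm_num)]
    linarith
  have hr1 : (1 : ℝ) ≤ r := by exact_mod_cast hr
  obtain ⟨N₀, hN₀⟩ := eventually_atTop.1
    ((tendsto_rpow_atTop (show 0 < 3 / (8 * β) by positivity)).eventually_ge_atTop y₁)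
  have hN₁0 : (0 : ℝ) ≤ (⌈N₀⌉₊ : ℝ) ^ r := by positivity
  have hC₀0 := abs_nonneg C₀
  refine ⟨c, |C₀| + r + (⌈N₀⌉₊ : ℝ) ^ r, hc0, fun S A => ?_⟩
  -- the bound for fixed data
  obtain ⟨B, hB⟩ : ∃ B : ℕ, r = 1 → (∀ p ∈ S, 0 < p.1 ∧ ∃ l, 0 < p.2 l) →
      ∀ n : Fin r → ℕ, (∃ l, B ≤ n l) → ∀ N : ℕ, (∀ l, n l ≤ N) → Gd r k D θ ((N : ℝ) ^ κ) S A n := by
    by_cases h1 : r = 1
    · subst h1
      by_cases h2 : ∀ p ∈ S, 0 < p.1 ∧ ∃ l, 0 < p.2 l
      · obtain ⟨n₀, hn₀⟩ := fixOrd k D θ κ hθ hκ S h2 A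
        refine ⟨n₀, fun _ _ n hn N hnN => ?_⟩
        obtain ⟨l, hl⟩ := hn
        rw [Subsingleton.elim l 0] at hl
        intro g hginj hgS P hP0 hPD hPA m hm
        obtain ⟨h3, h4⟩ := hn₀ n hl g hginj hgS P hP0 hPD hPA m hm
        refine ⟨h3, fun α => (h4 α).trans (mul_le_mul_of_nonneg_right ?_ (norm_nonneg _))⟩
        exact Real.rpow_le_rpow (Nat.cast_nonneg _) (by exact_mod_cast hnN 0) hκ.le
      · exact ⟨0, fun _ h => absurd h h2⟩
    · exact ⟨0, fun h => absurd h h1⟩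
  refine ⟨B, fun N hN hScard hAcard hS1 hS2 => ?_⟩
  have hNpos : (0 : ℝ) < N := by exact_mod_cast (by omega : 0 < N)
  have hN1 : (1 : ℝ) ≤ N := by exact_mod_cast hN
  have hp : ∀ e : ℝ, 0 < (N : ℝ) ^ e := fun e => Real.rpow_pos_of_pos hNpos e
  have hNc : 1 ≤ (N : ℝ) ^ ((r : ℝ) - c) := Real.one_le_rpow hN1 (by linarith)
  have hSpos : ∀ p ∈ S, 0 < p.1 ∧ ∃ l, 0 < p.2 l := fun p hpS => by
    obtain ⟨h1, -, -, l, hl⟩ := hS1 p hpS
    exact ⟨(hp _).trans_le h1, l, (inv_pos.2 hβ0).trans_le hl⟩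
  -- an exceptional set with the uniform bound
  obtain ⟨E, hEcard, hE⟩ : ∃ E : Finset (Fin r → ℕ),
      (E.card : ℝ) ≤ (|C₀| + r + (⌈N₀⌉₊ : ℝ) ^ r) * (N : ℝ) ^ ((r : ℝ) - c) ∧
      ∀ n : Fin r → ℕ, (∀ l, 1 ≤ n l ∧ n l ≤ N) → n ∉ E → Gd r k D θ ((N : ℝ) ^ κ) S A n := by
    rcases lt_or_ge N ⌈N₀⌉₊ with hlt | hge
    · refine ⟨Fintype.piFinset fun _ => Finset.Icc 1 N, ?_, fun n h2 h3 => ?_⟩
      · rw [Fintype.card_piFinset, Finset.prod_const, Finset.card_univ, Fintype.card_fin, Nat.card_Icc,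
          Nat.add_sub_cancel]
        push_cast
        have h1 : (N : ℝ) ^ r ≤ (⌈N₀⌉₊ : ℝ) ^ r :=
          pow_le_pow_left₀ hNpos.le (by exact_mod_cast hlt.le) _
        have h3 : (|C₀| + r + (⌈N₀⌉₊ : ℝ) ^ r) * 1 ≤
            (|C₀| + r + (⌈N₀⌉₊ : ℝ) ^ r) * (N : ℝ) ^ ((r : ℝ) - c) :=
          mul_le_mul_of_nonneg_left hNc (by linarith)
        linarith
      · exact absurd (Fintype.mem_piFinset.2 fun l => Finset.mem_Icc.2 (h2 l)) h3
    · have hNN₀ : N₀ ≤ N := (Nat.le_ceil _).trans (by exact_mod_cast hge)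
      have hmono : (N : ℝ) ^ c ≤ (N : ℝ) ^ c₀ := Real.rpow_le_rpow_of_exponent_le hN1 hcc₀
      have hmono' : (N : ℝ) ^ (-c₀) ≤ (N : ℝ) ^ (-c) :=
        Real.rpow_le_rpow_of_exponent_le hN1 (by linarith)
      obtain ⟨E₁, hE₁card, hE₁⟩ := hmain N hN S (hScard.trans hmono)
        (fun p hp => ⟨hmono'.trans (hS1 p hp).1, (hS1 p hp).2.1.trans hmono, (hS1 p hp).2.2⟩)
        (fun p hp q hq hpq => hmono'.trans (hS2 p hp q hq hpq)) A (hAcard.trans hmono)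
      obtain ⟨E₀, hE₀card, hE₀⟩ := smallG r N
      refine ⟨E₁ ∪ E₀, ?_, ?_⟩
      · have h1 : ((E₁ ∪ E₀).card : ℝ) ≤ E₁.card + E₀.card := by
          exact_mod_cast Finset.card_union_le E₁ E₀
        have h2 : C₀ * (N : ℝ) ^ ((r : ℝ) - c₀) ≤ |C₀| * (N : ℝ) ^ ((r : ℝ) - c) := by
          have h3 : (N : ℝ) ^ ((r : ℝ) - c₀) ≤ (N : ℝ) ^ ((r : ℝ) - c) :=
            Real.rpow_le_rpow_of_exponent_le hN1 (by linarith)
          calc C₀ * (N : ℝ) ^ ((r : ℝ) - c₀) ≤ |C₀| * (N : ℝ) ^ ((r : ℝ) - c₀) :=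
                mul_le_mul_of_nonneg_right (le_abs_self _) (hp _).le
            _ ≤ _ := mul_le_mul_of_nonneg_left h3 hC₀0
        have h3 : (r : ℝ) * ((N : ℝ) ^ ((1 : ℝ) / 2) * (N : ℝ) ^ (r - 1)) ≤ r * (N : ℝ) ^ ((r : ℝ) - c) := by
          refine mul_le_mul_of_nonneg_left ?_ (Nat.cast_nonneg _)
          have e1 : (N : ℝ) ^ (r - 1) = (N : ℝ) ^ ((r : ℝ) - 1) := by
            rw [← Real.rpow_natCast, Nat.cast_sub hr, Nat.cast_one]
          rw [e1, ← Real.rpow_add hNpos]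
          exact Real.rpow_le_rpow_of_exponent_le hN1 (by linarith)
        have h4 : 0 ≤ (⌈N₀⌉₊ : ℝ) ^ r * (N : ℝ) ^ ((r : ℝ) - c) := mul_nonneg hN₁0 (by linarith)
        linarith
      · intro n hn hnE g hginj hgS P hP0 hPD hPA m hm
        rw [Finset.mem_union, not_or] at hnE
        have hsqrt := hE₀ n hn hnE.2
        have hi : ∀ i, |(zeroCount (ordinate (m i)) : ℝ) - (g i).1 * ∏ l, (n l : ℝ) ^ (g i).2 l| ≤
            ((g i).1 * ∏ l, (n l : ℝ) ^ (g i).2 l) ^ (1 - θ') ∧ 1 ≤ ordinate (m i) := by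
          intro i
          have h1 := yG hβ hcβ hN1 (a := (g i).1) (b := (g i).2) (n := fun l => (n l : ℝ))
            ⟨(hS1 _ (hgS i)).1, (hS1 _ (hgS i)).2.1⟩ (hS1 _ (hgS i)).2.2.1 (hS1 _ (hgS i)).2.2.2
            (fun l => ⟨(hsqrt l).le, by exact_mod_cast (hn l).2⟩)
          exact hwin _ ((hN₀ N hNN₀).trans h1.1) _ (hm i)
        have h4 := hE₁ n hn hnE.1 g hginj hgS P hP0 hPD hPA (fun i => ordinate (m i)) (fun i => (hi i).1)
        refine ⟨h4.1, fun α => ?_⟩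
        have h5 := h4.2 α
        have h7 : ∀ i, |ordinate (m i)| = ordinate (m i) := fun i => abs_of_nonneg (by linarith [(hi i).2])
        simp only [h7] at h5
        exact h5
  by_cases h1 : r = 1
  · refine ⟨E.filter (fun n => ∀ l, n l < B), ?_, fun _ n hn l => ?_, ?_⟩
    · exact le_trans (by exact_mod_cast Finset.card_filter_le _ _) hEcard
    · exact ((Finset.mem_filter.1 hn).2 l).le
    · intro n hn hnE
      by_cases h3 : ∃ l, B ≤ n l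
      · exact hB h1 hSpos n h3 N fun l => (hn l).2
      · push Not at h3
        exact hE n hn fun h4 => hnE (Finset.mem_filter.2 ⟨h4, h3⟩)
  · exact ⟨E, hEcard, fun h => absurd h h1, hE⟩

end Pool.Agent.Lib.MP_ec260d_ntG
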